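import Pool.Agent.InnerAm.Defs

/-!
# From property Gamma to an almost conjugation invariant square-summable function
-/

noncomputable section

namespace Pool.Agent.InnerAm

open scoped ENNReal InnerProductSpace

variable {G : Type*} [Group G]

/-- The canonical trace `τ(x) = ⟨x δ_e, δ_e⟩`. -/
abbrev trace (x : ell2 G →L[ℂ] ell2 G) : ℂ := vecTrace (delta (1 : G)) x

/-- The norm `‖x‖₂ = τ(x* x)^{1/2}`. -/
abbrev norm2 (x : ell2 G →L[ℂ] ell2 G) : ℝ := vecNorm2 (delta (1 : G)) x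

theorem normSq_ell2 {Y : Type*} (ξ : ell2 Y) :
    Summable (fun y => ‖(ξ : Y → ℂ) y‖ ^ 2) ∧ ∑' y, ‖(ξ : Y → ℂ) y‖ ^ 2 = ‖ξ‖ ^ 2 := by
  have h2 : (0 : ℝ) < (2 : ℝ≥0∞).toReal := by norm_num
  have e : (2 : ℝ≥0∞).toReal = ((2 : ℕ) : ℝ) := by norm_num
  have h := lp.hasSum_norm h2 ξ
  rw [e] at h
  simp only [Real.rpow_natCast] at h
  exact ⟨h.summable, h.tsum_eq⟩

/-- The right regular representation. -/
def rightReg (g : G) : ell2 G →L[ℂ] ell2 G :=
  (compEquiv (Equiv.mulRight g)).toContinuousLinearMap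

@[simp] theorem rightReg_apply (g : G) (ξ : ell2 G) (h : G) :
    (rightReg g ξ : G → ℂ) h = (ξ : G → ℂ) (h * g) := rfl

theorem leftReg_mul_inv (g : G) (ξ : ell2 G) : leftReg g (leftReg g⁻¹ ξ) = ξ := by
  ext h
  rw [leftReg_apply, leftReg_apply]
  group

theorem inner_leftReg (g : G) (ξ η : ell2 G) : ⟪leftReg g ξ, leftReg g η⟫_ℂ = ⟪ξ, η⟫_ℂ :=
  (compEquiv (Equiv.mulLeft g⁻¹)).inner_map_map ξ η

theorem star_leftReg (g : G) : star (leftReg g) = leftReg g⁻¹ := by
  rw [ContinuousLinearMap.star_eq_adjoint]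
  symm
  rw [ContinuousLinearMap.eq_adjoint_iff]
  intro ξ η
  rw [← inner_leftReg g, leftReg_mul_inv]

theorem leftReg_rightReg_comm (g h : G) : leftReg g * rightReg h = rightReg h * leftReg g := by
  ext ξ k
  show (leftReg g (rightReg h ξ) : G → ℂ) k = (rightReg h (leftReg g ξ) : G → ℂ) k
  rw [leftReg_apply, rightReg_apply, rightReg_apply, leftReg_apply]
  group

theorem rightReg_mem (h : G) : rightReg h ∈
    StarSubalgebra.centralizer ℂ (Set.range (leftReg (G := G))) := by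
  rw [StarSubalgebra.mem_centralizer_iff]
  rintro _ ⟨g, rfl⟩
  rw [star_leftReg]
  exact ⟨leftReg_rightReg_comm g h, leftReg_rightReg_comm g⁻¹ h⟩

theorem leftReg_mem (g : G) : leftReg g ∈ groupVN G := by
  show leftReg g ∈ StarSubalgebra.centralizer ℂ
    (StarSubalgebra.centralizer ℂ (Set.range (leftReg (G := G))) : Set (ell2 G →L[ℂ] ell2 G))
  rw [StarSubalgebra.mem_centralizer_iff]
  intro z hz
  have hz' : z ∈ StarSubalgebra.centralizer ℂ (Set.range (leftReg (G := G))) := hz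
  rw [StarSubalgebra.mem_centralizer_iff] at hz'
  have h1 := hz' (leftReg g) ⟨g, rfl⟩
  refine ⟨h1.1.symm, ?_⟩
  have h2 := congrArg star h1.2
  rw [star_mul, star_mul, star_star] at h2
  exact h2

theorem comm_rightReg {u : ell2 G →L[ℂ] ell2 G} (hu : u ∈ groupVN G) (h : G) :
    rightReg h * u = u * rightReg h := by
  have hu' : u ∈ StarSubalgebra.centralizer ℂ
    (StarSubalgebra.centralizer ℂ (Set.range (leftReg (G := G))) :
      Set (ell2 G →L[ℂ] ell2 G)) := hu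
  rw [StarSubalgebra.mem_centralizer_iff] at hu'
  exact (hu' (rightReg h) (rightReg_mem h)).1

/-- As a set, `L(G)` is the double commutant of the left regular representation. -/
theorem coe_groupVN : (groupVN G : Set (ell2 G →L[ℂ] ell2 G)) =
    Set.centralizer (Set.centralizer (Set.range (leftReg (G := G)))) := by
  have hstar : star (Set.range (leftReg (G := G))) = Set.range (leftReg (G := G)) := by
    ext z
    rw [Set.mem_star]
    constructor
    · rintro ⟨g, hg⟩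
      refine ⟨g⁻¹, ?_⟩
      rw [← star_leftReg, hg, star_star]
    · rintro ⟨g, rfl⟩
      exact ⟨g⁻¹, (star_leftReg g).symm⟩
  have h1 : (StarSubalgebra.centralizer ℂ (Set.range (leftReg (G := G))) :
      Set (ell2 G →L[ℂ] ell2 G)) = Set.centralizer (Set.range (leftReg (G := G))) := by
    show Set.centralizer (Set.range (leftReg (G := G)) ∪ star (Set.range (leftReg (G := G)))) = _
    rw [hstar, Set.union_self]
  have h2 : star (Set.centralizer (Set.range (leftReg (G := G)))) =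
      Set.centralizer (Set.range (leftReg (G := G))) := by
    rw [← h1]
    ext z
    rw [Set.mem_star]
    constructor
    · intro h
      have := star_mem h
      rw [star_star] at this
      exact this
    · intro h
      exact star_mem h
  show Set.centralizer
    ((StarSubalgebra.centralizer ℂ (Set.range (leftReg (G := G))) : Set (ell2 G →L[ℂ] ell2 G)) ∪
      star (StarSubalgebra.centralizer ℂ (Set.range (leftReg (G := G))) :
        Set (ell2 G →L[ℂ] ell2 G))) = _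
  rw [h1, h2, Set.union_self]

open Classical in
theorem delta_apply (g h : G) : (delta g : G → ℂ) h = if h = g then 1 else 0 := by
  unfold delta
  rw [lp.single_apply, Pi.single_apply]

theorem rightReg_delta (g : G) : rightReg g⁻¹ (delta (1 : G)) = delta g := by
  ext h
  rw [rightReg_apply, delta_apply, delta_apply]
  by_cases hh : h = g
  · rw [if_pos hh, if_pos (mul_inv_eq_one.2 hh)]
  · rw [if_neg hh, if_neg (fun h' => hh (mul_inv_eq_one.1 h'))]

theorem leftReg_delta (g : G) : leftReg g (delta (1 : G)) = delta g := by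
  ext h
  rw [leftReg_apply, delta_apply, delta_apply]
  by_cases hh : h = g
  · rw [if_pos hh, if_pos (inv_mul_eq_one.2 hh.symm)]
  · rw [if_neg hh, if_neg (fun h' => hh (inv_mul_eq_one.1 h').symm)]

theorem apply_delta {u : ell2 G →L[ℂ] ell2 G} (hu : u ∈ groupVN G) (g k : G) :
    (u (delta g) : G → ℂ) k = (u (delta (1 : G)) : G → ℂ) (k * g⁻¹) := by
  rw [← rightReg_delta g]
  have h := DFunLike.congr_fun (comm_rightReg hu g⁻¹) (delta (1 : G))
  have h' : u (rightReg g⁻¹ (delta (1 : G))) = rightReg g⁻¹ (u (delta (1 : G))) := h.symm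
  rw [h', rightReg_apply]

theorem norm_delta (g : G) : ‖(delta g : ell2 G)‖ = 1 := by
  classical
  unfold delta
  rw [lp.norm_single (by norm_num)]
  simp

theorem norm_sum_delta (N : Finset G) : ‖∑ n ∈ N, (delta n : ell2 G)‖ ^ 2 = N.card := by
  classical
  have h2 : (0 : ℝ) < (2 : ℝ≥0∞).toReal := by norm_num
  have h := lp.norm_sum_single (E := fun _ : G => ℂ) h2 (fun _ => (1 : ℂ)) N
  have e : (2 : ℝ≥0∞).toReal = ((2 : ℕ) : ℝ) := by norm_num
  rw [e, Real.rpow_natCast] at h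
  unfold delta
  rw [h]
  simp

theorem norm2_eq (x : ell2 G →L[ℂ] ell2 G) :
    norm2 x = ‖x (delta (1 : G))‖ := by
  unfold norm2 vecNorm2 vecTrace
  have : ⟪delta (1 : G), (star x * x) (delta (1 : G))⟫_ℂ =
      ⟪x (delta (1 : G)), x (delta (1 : G))⟫_ℂ := by
    rw [ContinuousLinearMap.star_eq_adjoint]
    show ⟪delta (1 : G), ContinuousLinearMap.adjoint x (x (delta (1 : G)))⟫_ℂ = _
    rw [ContinuousLinearMap.adjoint_inner_right]
  have h2 : (⟪x (delta (1 : G)), x (delta (1 : G))⟫_ℂ).re = ‖x (delta (1 : G))‖ ^ 2 :=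
    inner_self_eq_norm_sq (𝕜 := ℂ) _
  rw [this, h2]
  exact Real.sqrt_sq (norm_nonneg _)

theorem trace_eq (x : ell2 G →L[ℂ] ell2 G) :
    trace x = (x (delta (1 : G)) : G → ℂ) 1 := by
  classical
  unfold trace vecTrace
  have h : ∀ η : ell2 G, ⟪delta (1 : G), η⟫_ℂ = ⟪(1 : ℂ), (η : G → ℂ) 1⟫_ℂ := by
    intro η
    unfold delta
    exact lp.inner_single_left _ _ _
  rw [h]
  simp

theorem exists_xi (h : HasPropertyGamma G) (S : Finset G) {ε : ℝ} (hε : 0 < ε) :
    ∃ ξ : G → ℂ, Summable (fun g => ‖ξ g‖ ^ 2) ∧ ∑' g, ‖ξ g‖ ^ 2 = 1 ∧ ξ 1 = 0 ∧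
      (∀ g ∈ S, Summable fun k => ‖ξ (g * k * g⁻¹) - ξ k‖ ^ 2) ∧
      (∀ g ∈ S, ∑' k, ‖ξ (g * k * g⁻¹) - ξ k‖ ^ 2 ≤ ε ^ 2) ∧
      (∀ N s : Finset G, ∑ k ∈ s, ‖∑ n ∈ N, ξ (k * n⁻¹)‖ ^ 2 ≤ N.card) := by
  classical
  obtain ⟨u, huG, hu, htr, hcomm⟩ := h (S.image leftReg) (by
    intro x hx
    obtain ⟨g, -, rfl⟩ := Finset.mem_image.1 hx
    exact leftReg_mem g) ε hε
  have hiso : ∀ η : ell2 G, ‖u η‖ = ‖η‖ := by
    intro η
    have h1 : star u * u = 1 := (Unitary.mem_iff.1 hu).1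
    have h2 : ⟪u η, u η⟫_ℂ = ⟪η, η⟫_ℂ := by
      rw [← ContinuousLinearMap.adjoint_inner_right, ← ContinuousLinearMap.star_eq_adjoint]
      show ⟪η, (star u * u) η⟫_ℂ = _
      rw [h1]
      rfl
    rw [inner_self_eq_norm_sq_to_K, inner_self_eq_norm_sq_to_K] at h2
    have h3 : ‖u η‖ ^ 2 = ‖η‖ ^ 2 := by exact_mod_cast h2
    have := (sq_eq_sq₀ (norm_nonneg _) (norm_nonneg _)).1 h3
    exact this
  set ξ : ell2 G := u (delta (1 : G)) with hξ
  have hnorm : ‖ξ‖ = 1 := by rw [hξ, hiso, norm_delta]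
  -- the commutator vectors
  have hdiff : ∀ g ∈ S, (Summable fun k => ‖(ξ : G → ℂ) (g * k * g⁻¹) - (ξ : G → ℂ) k‖ ^ 2) ∧
      ∑' k, ‖(ξ : G → ℂ) (g * k * g⁻¹) - (ξ : G → ℂ) k‖ ^ 2 ≤ ε ^ 2 := by
    intro g hg
    have h1 : norm2 (u * leftReg g - leftReg g * u) < ε :=
      hcomm (leftReg g) (Finset.mem_image_of_mem _ hg)
    rw [norm2_eq] at h1
    set ζ : ell2 G := (u * leftReg g - leftReg g * u) (delta (1 : G)) with hζ
    have hζ' : ∀ k, (ζ : G → ℂ) k = (ξ : G → ℂ) (k * g⁻¹) - (ξ : G → ℂ) (g⁻¹ * k) := by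
      intro k
      have e1 : ζ = u (delta g) - leftReg g ξ := by
        rw [hζ, hξ, ← leftReg_delta g]
        rfl
      rw [e1, lp.coeFn_sub, Pi.sub_apply, leftReg_apply, apply_delta huG]
    have hs := normSq_ell2 ζ
    have e2 : ∀ k, ‖(ζ : G → ℂ) (Equiv.mulLeft g k)‖ ^ 2 =
        ‖(ξ : G → ℂ) (g * k * g⁻¹) - (ξ : G → ℂ) k‖ ^ 2 := by
      intro k
      rw [hζ', Equiv.coe_mulLeft, inv_mul_cancel_left]
    constructor
    · have := ((Equiv.mulLeft g).summable_iff (f := fun k => ‖(ζ : G → ℂ) k‖ ^ 2)).2 hs.1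
      exact this.congr fun k => e2 k
    · have := (Equiv.mulLeft g).tsum_eq (fun k => ‖(ζ : G → ℂ) k‖ ^ 2)
      simp only [e2] at this
      rw [this, hs.2]
      have h0 := norm_nonneg ζ
      nlinarith
  refine ⟨fun g => (ξ : G → ℂ) g, (normSq_ell2 ξ).1, ?_, ?_, fun g hg => (hdiff g hg).1,
    fun g hg => (hdiff g hg).2, ?_⟩
  · rw [(normSq_ell2 ξ).2, hnorm]; norm_num
  · have h0 : trace u = 0 := htr
    rw [trace_eq] at h0
    exact h0
  · intro N s
    set ζ : ell2 G := u (∑ n ∈ N, delta n) with hζ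
    have hζ' : ∀ k, (ζ : G → ℂ) k = ∑ n ∈ N, (ξ : G → ℂ) (k * n⁻¹) := by
      intro k
      rw [hζ, map_sum, lp.coeFn_sum, Finset.sum_apply]
      refine Finset.sum_congr rfl fun n _ => ?_
      rw [apply_delta huG]
    have hs := normSq_ell2 ζ
    have h1 : ∑ k ∈ s, ‖(ζ : G → ℂ) k‖ ^ 2 ≤ ∑' k, ‖(ζ : G → ℂ) k‖ ^ 2 :=
      hs.1.sum_le_tsum s fun _ _ => by positivity
    rw [hs.2, hζ, hiso, norm_sum_delta] at h1
    simp only [← hζ] at h1
    simp only [hζ'] at h1
    exact h1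

end Pool.Agent.InnerAm
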