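import Mathlib

/-!
# Group von Neumann algebras, property Gamma, inner amenability

Definitions used for the problem MP_a818c9_an.
-/

namespace Pool.Agent.InnerAm

open scoped ENNReal InnerProductSpace

section Abstract

variable {H : Type*} [NormedAddCommGroup H] [InnerProductSpace ℂ H] [CompleteSpace H]

/-- The von Neumann algebra on the Hilbert space `H` generated by a set `s` of bounded operators:
the double commutant of `s` together with the adjoints of its elements. -/
noncomputable def generatedVN (s : Set (H →L[ℂ] H)) : VonNeumannAlgebra H where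
  toStarSubalgebra :=
    StarSubalgebra.centralizer ℂ (StarSubalgebra.centralizer ℂ s : Set (H →L[ℂ] H))
  centralizer_centralizer' := by
    show Set.centralizer (Set.centralizer (Set.centralizer (_ ∪ star _))) =
      Set.centralizer (_ ∪ star _)
    rw [Set.centralizer_centralizer_centralizer]

/-- The vector functional `τ(x) = ⟨x v, v⟩` (inner product linear in the first variable). -/
noncomputable def vecTrace (v : H) (x : H →L[ℂ] H) : ℂ := ⟪v, x v⟫_ℂ

/-- The norm `‖x‖₂ = τ(x* x)^{1/2}` for `τ = vecTrace v`. -/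
noncomputable def vecNorm2 (v : H) (x : H →L[ℂ] H) : ℝ :=
  Real.sqrt (vecTrace v (star x * x)).re

/-- Property Gamma of Murray and von Neumann for the von Neumann algebra `M` with the trace
`τ = vecTrace v`: for every finite subset `F` of `M` and every `ε > 0` there is a unitary `u ∈ M`
with `τ(u) = 0` and `‖u x - x u‖₂ < ε` for all `x ∈ F`. -/
def PropGamma (M : VonNeumannAlgebra H) (v : H) : Prop :=
  ∀ F : Finset (H →L[ℂ] H), (∀ x ∈ F, x ∈ M) → ∀ ε : ℝ, 0 < ε →
    ∃ u ∈ M, u ∈ unitary (H →L[ℂ] H) ∧ vecTrace v u = 0 ∧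
      ∀ x ∈ F, vecNorm2 v (u * x - x * u) < ε

end Abstract

/-- The Hilbert space of square-summable complex functions on `G`. -/
abbrev ell2 (G : Type*) : Type _ := lp (fun _ : G => ℂ) 2

section

variable {G : Type*} [Group G]

theorem memlp_comp_equiv {α β : Type*} (e : α ≃ β) (ξ : ell2 β) :
    Memℓp (fun a => (ξ : β → ℂ) (e a)) 2 := by
  have h := lp.memℓp ξ
  rw [memℓp_gen_iff (by norm_num)] at h ⊢
  exact (e.summable_iff (f := fun b => ‖(ξ : β → ℂ) b‖ ^ (2 : ℝ≥0∞).toReal)).2 h

/-- Composition with a bijection, as a linear isometry of `ell2` spaces. -/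
noncomputable def compEquiv {α β : Type*} (e : α ≃ β) : ell2 β →ₗᵢ[ℂ] ell2 α where
  toFun ξ := ⟨fun a => (ξ : β → ℂ) (e a), memlp_comp_equiv e ξ⟩
  map_add' ξ η := by ext a; rfl
  map_smul' c ξ := by ext a; rfl
  norm_map' ξ := by
    have h2 : (0 : ℝ) < (2 : ℝ≥0∞).toReal := by norm_num
    rw [lp.norm_eq_tsum_rpow h2, lp.norm_eq_tsum_rpow h2]
    congr 1
    exact e.tsum_eq (f := fun b => ‖(ξ : β → ℂ) b‖ ^ (2 : ℝ≥0∞).toReal)

@[simp] theorem compEquiv_apply {α β : Type*} (e : α ≃ β) (ξ : ell2 β) (a : α) :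
    (compEquiv e ξ : α → ℂ) a = (ξ : β → ℂ) (e a) := rfl

/-- The left regular representation on `ell2 G`: `(leftReg g ξ) h = ξ (g⁻¹ * h)`. -/
noncomputable def leftReg (g : G) : ell2 G →L[ℂ] ell2 G :=
  (compEquiv (Equiv.mulLeft g⁻¹)).toContinuousLinearMap

@[simp] theorem leftReg_apply (g : G) (ξ : ell2 G) (h : G) :
    (leftReg g ξ : G → ℂ) h = (ξ : G → ℂ) (g⁻¹ * h) := rfl

/-- The group von Neumann algebra `L(G)`: the von Neumann algebra on `ell2 G` generated by the
left regular representation, i.e. the double commutant of `{leftReg g : g ∈ G}`. -/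
noncomputable def groupVN (G : Type*) [Group G] : VonNeumannAlgebra (ell2 G) :=
  generatedVN (Set.range (leftReg (G := G)))

open Classical in
/-- The unit vector `δ_g` of `ell2 G`. -/
noncomputable def delta (g : G) : ell2 G := lp.single 2 g (1 : ℂ)

/-- Property Gamma of Murray and von Neumann for the group von Neumann algebra `L(G)` with its
canonical trace `τ(x) = ⟨x δ_e, δ_e⟩`. -/
def HasPropertyGamma (G : Type*) [Group G] : Prop :=
  PropGamma (groupVN G) (delta (1 : G))

/-- `G` is ICC: every conjugacy class other than that of the identity is infinite. -/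
def IsICC (G : Type*) [Group G] : Prop :=
  ∀ g : G, g ≠ 1 → {k : G | IsConj g k}.Infinite

/-- Inner amenability (Effros): there is a finitely additive probability measure on all subsets
of `G \ {e}` which is invariant under conjugation. -/
def IsInnerAmenable (G : Type*) [Group G] : Prop :=
  ∃ m : Set G → ℝ,
    (∀ A ⊆ ({1} : Set G)ᶜ, 0 ≤ m A) ∧
    m ({1} : Set G)ᶜ = 1 ∧
    (∀ A ⊆ ({1} : Set G)ᶜ, ∀ B ⊆ ({1} : Set G)ᶜ, Disjoint A B → m (A ∪ B) = m A + m B) ∧
    (∀ g : G, ∀ A ⊆ ({1} : Set G)ᶜ, m ((fun x => g * x * g⁻¹) '' A) = m A)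

end

end Pool.Agent.InnerAm
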