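import Mathlib

/-!
# Paradoxical sets in free groups
-/

set_option linter.unusedSectionVars false

namespace Pool.Agent.InnerAm

open FreeGroup

variable {α : Type*} [DecidableEq α]

/-- Elements of the free group whose reduced word starts with `a` or its inverse. -/
def startsA (a : α) : Set (FreeGroup α) := {g | ∃ c : Bool, g ∈ startsWith (a, c)}

theorem startsWith_unique {w w' : α × Bool} {g : FreeGroup α} (h : g ∈ startsWith w)
    (h' : g ∈ startsWith w') : w = w' := by
  unfold startsWith at h h'
  rw [Set.mem_ofPred_eq] at h h'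
  rw [h] at h'
  exact Option.some.inj h'

theorem one_notMem_startsA (a : α) : (1 : FreeGroup α) ∉ startsA a := by
  rintro ⟨c, h⟩
  exact startsWith.ne_one _ h rfl

theorem inv_of (b : α) : (of b : FreeGroup α)⁻¹ = mk [(b, false)] := rfl

theorem of_eq (b : α) : (of b : FreeGroup α) = mk [(b, true)] := rfl

theorem startsA_cover (a : α) (g : FreeGroup α) : g ∈ startsA a ∨ of a * g ∈ startsA a := by
  by_cases h : g ∈ startsWith (a, false)
  · left; exact ⟨false, h⟩
  · right
    exact ⟨true, startsWith_mk_mul (w := (a, true)) g h⟩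

theorem startsA_ne {a b : α} (hab : a ≠ b) {g : FreeGroup α} {c : Bool}
    (h : g ∈ startsWith (b, c)) : g ∉ startsA a := by
  rintro ⟨d, hd⟩
  have := startsWith_unique h hd
  exact hab (congrArg Prod.fst this).symm

theorem startsA_b {a b : α} (hab : a ≠ b) {g : FreeGroup α} (h : g ∈ startsA a) (c : Bool) :
    mk [(b, c)] * g ∈ startsWith (b, c) := by
  obtain ⟨d, hd⟩ := h
  refine startsWith_mk_mul (w := (b, c)) g (fun h' => ?_)
  have := startsWith_unique hd h'
  exact hab (congrArg Prod.fst this)

theorem startsA_disj {a b : α} (hab : a ≠ b) (g : FreeGroup α) :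
    (g ∈ startsA a → of b * g ∉ startsA a) ∧ (g ∈ startsA a → (of b)⁻¹ * g ∉ startsA a) ∧
    (of b * g ∈ startsA a → (of b)⁻¹ * g ∉ startsA a) := by
  refine ⟨fun h => startsA_ne hab (startsA_b hab h true),
    fun h => startsA_ne hab (startsA_b hab h false), fun h1 h2 => ?_⟩
  have h3 := startsA_b hab h2 true
  rw [← of_eq, mul_inv_cancel_left] at h3
  have h4 : of b * g ∈ startsWith (b, true) := by
    refine startsWith_mk_mul (w := (b, true)) g (fun h' => ?_)
    have := startsWith_unique h3 h'
    simp at this
  exact startsA_ne hab h4 h1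

/-- Right multiplication by a letter does not change the first letter, except for
cancellation of a one-letter word. -/
theorem startsWith_mul_mk {w l : α × Bool} {k : FreeGroup α} (hk : k ∈ startsWith w)
    (hne : k ≠ mk [(l.1, !l.2)]) : k * mk [l] ∈ startsWith w := by
  unfold startsWith at hk ⊢
  rw [Set.mem_ofPred_eq] at hk ⊢
  rw [toWord_mul, toWord_mk, reduce_singleton]
  have hred : IsReduced k.toWord := isReduced_toWord
  rcases List.eq_nil_or_concat k.toWord with h0 | ⟨L', s, hL⟩
  · rw [h0] at hk; simp at hk
  · rw [List.concat_eq_append] at hL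
    by_cases hs : s = (l.1, !l.2)
    · -- cancellation
      have e1 : reduce (k.toWord ++ [l]) = L' := by
        have step : Red.Step (L' ++ (s.1, s.2) :: (s.1, !s.2) :: []) (L' ++ []) := Red.Step.not
        have e2 : k.toWord ++ [l] = L' ++ (s.1, s.2) :: (s.1, !s.2) :: [] := by
          rw [hL, hs]; simp
        rw [e2, reduce.Step.eq step, List.append_nil]
        apply IsReduced.reduce_eq
        rw [hL] at hred
        exact List.IsChain.left_of_append hred
      rw [e1]
      cases L' with
      | nil =>
        exfalso
        apply hne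
        rw [← mk_toWord (x := k), hL, hs]
        rfl
      | cons hd tl =>
        rw [hL] at hk
        simpa using hk
    · have e1 : reduce (k.toWord ++ [l]) = k.toWord ++ [l] := by
        apply IsReduced.reduce_eq
        rw [hL]
        have h1 : IsReduced (L' ++ [s]) := by rw [← hL]; exact hred
        have h2 : IsReduced ([s] ++ [l]) := by
          rw [List.singleton_append, FreeGroup.isReduced_cons_cons]
          refine ⟨fun h => ?_, IsReduced.singleton⟩
          by_contra h3
          apply hs
          ext
          · exact h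
          · cases hh : s.2 <;> cases hh' : l.2 <;> simp_all
        exact IsReduced.append_overlap h1 h2 (by simp)
      rw [e1]
      rw [List.getElem?_append_left]
      · exact hk
      · rw [hL]; simp

theorem conj_cover (a : α) {k : FreeGroup α} (hk : k ≠ 1) :
    k ∈ startsA a ∨ of a * k * (of a)⁻¹ ∈ startsA a := by
  by_cases h : k ∈ startsA a
  · left; exact h
  · right
    have hne : k.toWord ≠ [] := fun h => hk (toWord_eq_nil_iff.1 h)
    obtain ⟨w, t, hw⟩ := List.exists_cons_of_ne_nil hne
    have hkw : k ∈ startsWith w := by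
      unfold startsWith
      rw [Set.mem_ofPred_eq, hw]
      simp
    have hwa : w.1 ≠ a := fun h' => h ⟨w.2, by rw [← h']; exact hkw⟩
    have h1 : k * mk [(a, false)] ∈ startsWith w := by
      refine startsWith_mul_mk hkw (fun h' => ?_)
      rw [h'] at h
      apply h
      refine ⟨true, ?_⟩
      unfold startsWith
      rw [Set.mem_ofPred_eq]
      simp
    rw [mul_assoc, inv_of]
    refine ⟨true, startsWith_mk_mul (w := (a, true)) _ (fun h' => ?_)⟩
    have := startsWith_unique h1 h'
    exact hwa (congrArg Prod.fst this)

theorem conj_b {a b : α} (hab : a ≠ b) {k : FreeGroup α} (h : k ∈ startsA a) (c : Bool) :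
    mk [(b, c)] * k * mk [(b, !c)] ∈ startsWith (b, c) := by
  obtain ⟨d, hd⟩ := h
  rw [mul_assoc]
  have h1 : k * mk [(b, !c)] ∈ startsWith (a, d) := by
    refine startsWith_mul_mk hd (fun h' => ?_)
    have h3 : k ∈ startsWith (b, c) := by
      rw [h']
      unfold startsWith
      rw [Set.mem_ofPred_eq]
      simp
    exact hab (congrArg Prod.fst (startsWith_unique hd h3))
  refine startsWith_mk_mul (w := (b, c)) _ (fun h' => ?_)
  exact hab (congrArg Prod.fst (startsWith_unique h1 h'))

theorem conj_disj {a b : α} (hab : a ≠ b) (k : FreeGroup α) :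
    (k ∈ startsA a → of b * k * (of b)⁻¹ ∉ startsA a) ∧
    (k ∈ startsA a → (of b)⁻¹ * k * of b ∉ startsA a) ∧
    (of b * k * (of b)⁻¹ ∈ startsA a → (of b)⁻¹ * k * of b ∉ startsA a) := by
  refine ⟨fun h => startsA_ne hab (conj_b hab h true),
    fun h => startsA_ne hab (conj_b hab h false), fun h1 h2 => ?_⟩
  have h3 := conj_b hab h2 true
  have e : mk [(b, true)] * ((of b)⁻¹ * k * of b) * mk [(b, !true)] = k := by
    show of b * ((of b)⁻¹ * k * of b) * (of b)⁻¹ = k
    group
  rw [e] at h3
  have h5 : k * mk [(b, false)] ∈ startsWith (b, true) := by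
    refine startsWith_mul_mk h3 (fun h' => ?_)
    have h6 : k = of b := h'
    rw [h6] at h2
    have h7 : (of b)⁻¹ * of b * of b = (of b : FreeGroup α) := by group
    rw [h7] at h2
    obtain ⟨d, hd⟩ := h2
    have h8 : (of b : FreeGroup α) ∈ startsWith (b, true) := by
      unfold startsWith
      rw [Set.mem_ofPred_eq]
      simp
    exact hab (congrArg Prod.fst (startsWith_unique hd h8))
  have h6 : of b * k * (of b)⁻¹ ∈ startsWith (b, true) := by
    rw [mul_assoc, inv_of]
    refine startsWith_mk_mul (w := (b, true)) _ (fun h' => ?_)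
    have := startsWith_unique h5 h'
    simp at this
  exact startsA_ne hab h6 h1

end Pool.Agent.InnerAm
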