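import Pool.Agent.InnerAm.CycBound
import Pool.Agent.InnerAm.FreeGrp
import Pool.Agent.InnerAm.Defs

/-!
# The construction of the group
-/

noncomputable section

namespace Pool.Agent.InnerAm

open Finset

/-- The free group on two letters. -/
abbrev FB : Type := FreeGroup Bool

/-- The eleven free generators. -/
inductive Gen
  | a | b | s | t | r | e12 | e12x | e21 | e21x | e13 | e23
  deriving DecidableEq

namespace Blocks

variable (B : Blocks)

/-- Basis index set of the block part. -/
abbrev XF : Type := Σ j : BIdx, Fin (B.d j.1)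

/-- Basis index set of `V`. -/
abbrev X : Type := B.XF ⊕ FB

/-- The vector space `V` over `F₂`. -/
abbrev V : Type := B.X →₀ ZMod 2

/-- The abelian group `A = V³`. -/
abbrev A : Type := (B.V × B.V) × B.V

/-- The rotation of the blocks. -/
def tF : Equiv.Perm B.XF where
  toFun p := ⟨⟨p.1.1, p.1.2 + 1⟩, p.2⟩
  invFun p := ⟨⟨p.1.1, p.1.2 - 1⟩, p.2⟩
  left_inv p := by
    obtain ⟨⟨n, z⟩, i⟩ := p
    simp
  right_inv p := by
    obtain ⟨⟨n, z⟩, i⟩ := p
    simp

/-- The rotation of the blocks, on `X`. -/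
def tX : Equiv.Perm B.X := Equiv.sumCongr B.tF (Equiv.refl _)

/-- Left multiplication by a letter on the free part, identity on the block part. -/
def aX (c : Bool) : Equiv.Perm B.X := Equiv.sumCongr (Equiv.refl _) (Equiv.mulLeft (FreeGroup.of c))

/-- Index set of the gates. -/
abbrev P : Type := Σ n : ℕ, Fin (B.d n)

/-- The gate positions in the block part. -/
def gateF (p : B.P) : B.XF := ⟨⟨p.1, 0⟩, p.2⟩

/-- The gate positions in the free part. -/
def gateB (p : B.P) : FB := (FreeGroup.of true) ^ (Nat.pair p.1 p.2)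

theorem gateF_injective : Function.Injective B.gateF := by
  rintro ⟨n, i⟩ ⟨m, k⟩ h
  unfold gateF at h
  simp only [Sigma.mk.injEq] at h
  obtain ⟨⟨rfl, -⟩, h2⟩ := h
  rw [eq_of_heq h2]

theorem gateB_injective : Function.Injective B.gateB := by
  rintro ⟨n, i⟩ ⟨m, k⟩ h
  unfold gateB at h
  have h1 := congrArg (fun g => (FreeGroup.toWord g).length) h
  simp only [FreeGroup.toWord_of_pow, List.length_replicate, Nat.pair_eq_pair] at h1
  obtain ⟨rfl, h2⟩ := h1
  have : i = k := Fin.ext h2
  rw [this]

/-- The embedding of the gates. -/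
def gateEmb : B.P ⊕ B.P ↪ B.X :=
  ⟨Sum.map B.gateF B.gateB, Sum.map_injective.2 ⟨B.gateF_injective, B.gateB_injective⟩⟩

/-- The permutation swapping the gates. -/
def sX : Equiv.Perm B.X := Equiv.Perm.viaEmbedding (Equiv.sumComm B.P B.P) B.gateEmb

theorem sX_inl (p : B.P) : B.sX (Sum.inl (B.gateF p)) = Sum.inr (B.gateB p) :=
  Equiv.Perm.viaEmbedding_apply (Equiv.sumComm B.P B.P) B.gateEmb (Sum.inl p)

theorem sX_inr (p : B.P) : B.sX (Sum.inr (B.gateB p)) = Sum.inl (B.gateF p) :=
  Equiv.Perm.viaEmbedding_apply (Equiv.sumComm B.P B.P) B.gateEmb (Sum.inr p)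

theorem sX_of_ne (q : B.XF) (h : q.1.2 ≠ 0) : B.sX (Sum.inl q) = Sum.inl q := by
  refine Equiv.Perm.viaEmbedding_apply_of_notMem (Equiv.sumComm B.P B.P) B.gateEmb _ ?_
  rintro ⟨p, hp⟩
  rcases p with p | p
  · have h1 : B.gateF p = q := Sum.inl.inj hp
    apply h
    rw [← h1]
    rfl
  · cases hp

/-- The linear map `x`. -/
def xV : B.V →+ B.V where
  toFun v := Finsupp.ofSupportFinite
    (Sum.elim (fun q : B.XF => B.m q.1 (fun i => v (Sum.inl ⟨q.1, i⟩)) q.2) (fun _ => 0)) (by
      apply Set.Finite.subset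
        (((v.support.toLeft.image Sigma.fst).sigma
          (fun j => (univ : Finset (Fin (B.d j.1))))).map Function.Embedding.inl).finite_toSet
      intro p hp
      rw [Function.mem_support] at hp
      rcases p with q | g
      · rw [Finset.mem_coe, Finset.mem_map]
        refine ⟨q, ?_, rfl⟩
        rw [Finset.mem_sigma]
        refine ⟨?_, mem_univ _⟩
        rw [Finset.mem_image]
        by_contra hcon
        push Not at hcon
        apply hp
        have : (fun i => v (Sum.inl ⟨q.1, i⟩)) = 0 := by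
          funext i
          by_contra hne
          refine hcon ⟨q.1, i⟩ ?_ rfl
          rw [Finset.mem_toLeft, Finsupp.mem_support_iff]
          exact hne
        rw [Sum.elim_inl, this, map_zero]
        rfl
      · exact absurd rfl hp)
  map_zero' := by
    ext p
    rcases p with q | g
    · show B.m q.1 (fun i => (0 : B.V) (Sum.inl ⟨q.1, i⟩)) q.2 = 0
      have : (fun i => (0 : B.V) (Sum.inl ⟨q.1, i⟩)) = 0 := by funext i; rfl
      rw [this, map_zero]; rfl
    · rfl
  map_add' v w := by
    ext p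
    rcases p with q | g
    · show B.m q.1 (fun i => (v + w) (Sum.inl ⟨q.1, i⟩)) q.2 =
        B.m q.1 (fun i => v (Sum.inl ⟨q.1, i⟩)) q.2 + B.m q.1 (fun i => w (Sum.inl ⟨q.1, i⟩)) q.2
      have : (fun i => (v + w) (Sum.inl ⟨q.1, i⟩)) =
        (fun i => v (Sum.inl ⟨q.1, i⟩)) + (fun i => w (Sum.inl ⟨q.1, i⟩)) := by funext i; rfl
      rw [this, map_add]; rfl
    · show (0 : ZMod 2) = 0 + 0
      simp

theorem xV_inl (v : B.V) (q : B.XF) :
    B.xV v (Sum.inl q) = B.m q.1 (fun i => v (Sum.inl ⟨q.1, i⟩)) q.2 := rfl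

theorem xV_inr (v : B.V) (g : FB) : B.xV v (Sum.inr g) = 0 := rfl

/-- Action of a permutation of the basis on `V`. -/
def pv (π : Equiv.Perm B.X) : B.V ≃+ B.V := Finsupp.domCongr π

theorem pv_apply (π : Equiv.Perm B.X) (v : B.V) (p : B.X) : B.pv π v p = v (π.symm p) := rfl

theorem pv_apply' (π : Equiv.Perm B.X) (v : B.V) (p : B.X) : B.pv π v (π p) = v p := by
  rw [pv_apply, Equiv.symm_apply_apply]

/-- Diagonal action on `A`. -/
def diag (g : B.V ≃+ B.V) : B.A ≃+ B.A := AddEquiv.prodCongr (AddEquiv.prodCongr g g) g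

theorem diag_apply (g : B.V ≃+ B.V) (v : B.A) : B.diag g v = ((g v.1.1, g v.1.2), g v.2) := rfl

end Blocks

/-- Cyclic rotation of the coordinates. -/
def rotA (W : Type*) [AddCommGroup W] : (W × W) × W ≃+ (W × W) × W where
  toFun v := ((v.1.2, v.2), v.1.1)
  invFun v := ((v.2, v.1.1), v.1.2)
  left_inv _ := rfl
  right_inv _ := rfl
  map_add' _ _ := rfl

/-- Translation of the first coordinate by the third one. -/
def tr13 (W : Type*) [AddCommGroup W] : (W × W) × W ≃+ (W × W) × W where
  toFun v := (v.1 + (v.2, 0), v.2)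
  invFun v := (v.1 - (v.2, 0), v.2)
  left_inv v := by simp
  right_inv v := by simp
  map_add' v w := by
    ext
    · simp only [Prod.fst_add, Prod.snd_add]; abel
    · simp only [Prod.fst_add, Prod.snd_add]; abel
    · simp

/-- Translation of the second coordinate by the third one. -/
def tr23 (W : Type*) [AddCommGroup W] : (W × W) × W ≃+ (W × W) × W where
  toFun v := (v.1 + (0, v.2), v.2)
  invFun v := (v.1 - (0, v.2), v.2)
  left_inv v := by simp
  right_inv v := by simp
  map_add' v w := by
    ext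
    · simp only [Prod.fst_add, Prod.snd_add]; abel
    · simp only [Prod.fst_add, Prod.snd_add]; abel
    · simp

/-- Shears of the first two coordinates. -/
def sh {W : Type*} [AddCommGroup W] (T : W × W ≃+ W × W) : (W × W) × W ≃+ (W × W) × W :=
  AddEquiv.prodCongr T (AddEquiv.refl W)

theorem sh_apply {W : Type*} [AddCommGroup W] (T : W × W ≃+ W × W) (v : (W × W) × W) :
    sh T v = (T v.1, v.2) := rfl

namespace Blocks

variable (B : Blocks)

/-- The action of the generators on `A`. -/
def act : Gen → (B.A ≃+ B.A)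
  | Gen.a => B.diag (B.pv (B.aX true))
  | Gen.b => B.diag (B.pv (B.aX false))
  | Gen.s => B.diag (B.pv B.sX)
  | Gen.t => B.diag (B.pv B.tX)
  | Gen.r => rotA B.V
  | Gen.e12 => sh (shear1 (AddMonoidHom.id B.V))
  | Gen.e12x => sh (shear1 B.xV)
  | Gen.e21 => sh (shear2 (AddMonoidHom.id B.V))
  | Gen.e21x => sh (shear2 B.xV)
  | Gen.e13 => tr13 B.V
  | Gen.e23 => tr23 B.V

/-- The action of the free group on the generators. -/
def phi : FreeGroup Gen →* MulAut (Multiplicative B.A) :=
  FreeGroup.lift fun g => AddEquiv.toMultiplicative (B.act g)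

/-- The group of the example. -/
abbrev G : Type := Multiplicative B.A ⋊[B.phi] FreeGroup Gen

/-- The embedding of `A` as a function. -/
def inA (v : B.A) : B.G := SemidirectProduct.inl (Multiplicative.ofAdd v)

/-- The generators. -/
def gen (g : Gen) : B.G := SemidirectProduct.inr (FreeGroup.of g)

theorem phi_of (g : Gen) (v : B.A) :
    B.phi (FreeGroup.of g) (Multiplicative.ofAdd v) = Multiplicative.ofAdd (B.act g v) := by
  unfold phi
  rw [FreeGroup.lift_apply_of]
  rfl

theorem conj_gen_inA (g : Gen) (v : B.A) :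
    B.gen g * B.inA v * (B.gen g)⁻¹ = B.inA (B.act g v) := by
  unfold gen inA
  rw [← B.phi_of]
  rw [← map_inv]
  exact (SemidirectProduct.inl_aut (φ := B.phi) (FreeGroup.of g) (Multiplicative.ofAdd v)).symm

theorem inA_add (v w : B.A) : B.inA (v + w) = B.inA v * B.inA w := by
  unfold inA
  rw [ofAdd_add, map_mul]

theorem inA_neg (v : B.A) : B.inA (-v) = (B.inA v)⁻¹ := by
  unfold inA
  rw [ofAdd_neg, map_inv]

theorem inA_zero : B.inA 0 = 1 := by
  unfold inA
  rw [ofAdd_zero]
  exact map_one (SemidirectProduct.inl (φ := B.phi))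

theorem inA_injective : Function.Injective B.inA := by
  intro v w h
  have := SemidirectProduct.inl_injective h
  exact Multiplicative.ofAdd.injective this

theorem A_two (v : B.V) : v + v = 0 := by
  ext p
  rw [Finsupp.add_apply, Finsupp.zero_apply]
  exact CharTwo.add_self_eq_zero _

end Blocks

end Pool.Agent.InnerAm
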