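import Pool.Agent.InnerAm.RelT2

/-!
# The finite proposition
-/

set_option linter.unusedSectionVars false

namespace Pool.Agent.InnerAm

open Finset

variable {W : Type*} [AddCommGroup W] [Fintype W] (x : W →+ W)

/-- The smallest `x`-invariant subgroup containing `w`. -/
def cyc (w : W) : AddSubgroup W := AddSubgroup.closure (Set.range fun i : ℕ => x^[i] w)

/-- Its square. -/
def cyc2 (w : W) : AddSubgroup (W × W) := (cyc x w).prod (cyc x w)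

theorem iterate_mem_cyc (w : W) (i : ℕ) : x^[i] w ∈ cyc x w :=
  AddSubgroup.subset_closure ⟨i, rfl⟩

theorem RZ_iff (y : AddChar (W × W) ℂ × W) : RZ x y ↔ ∀ m ∈ cyc2 x y.2, y.1 m = 1 := by
  constructor
  · intro h m hm
    obtain ⟨h1, h2⟩ := AddSubgroup.mem_prod.1 hm
    have a1 : ∀ a ∈ cyc x y.2, y.1 (a, 0) = 1 := by
      intro a ha
      refine AddSubgroup.closure_induction (p := fun a _ => y.1 (a, 0) = 1) ?_ ?_ ?_ ?_ ha
      · rintro _ ⟨i, rfl⟩; exact (h i).1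
      · have : ((0 : W), (0 : W)) = 0 := rfl
        rw [this, AddChar.map_zero_eq_one]
      · intro a b _ _ ha hb
        have : ((a + b, 0) : W × W) = (a, 0) + (b, 0) := by simp
        rw [this, AddChar.map_add_eq_mul, ha, hb, one_mul]
      · intro a _ ha
        exact (char_neg_one y.1 a).2 ha
    have a2 : ∀ a ∈ cyc x y.2, y.1 (0, a) = 1 := by
      intro a ha
      refine AddSubgroup.closure_induction (p := fun a _ => y.1 (0, a) = 1) ?_ ?_ ?_ ?_ ha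
      · rintro _ ⟨i, rfl⟩; exact (h i).2
      · have : ((0 : W), (0 : W)) = 0 := rfl
        rw [this, AddChar.map_zero_eq_one]
      · intro a b _ _ ha hb
        have : ((0, a + b) : W × W) = (0, a) + (0, b) := by simp
        rw [this, AddChar.map_add_eq_mul, ha, hb, one_mul]
      · intro a _ ha
        exact (char_neg_two y.1 a).2 ha
    have : m = (m.1, m.2) := rfl
    rw [this, char_split, a1 _ h1, a2 _ h2, one_mul]
  · intro h i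
    constructor
    · exact h _ (AddSubgroup.mem_prod.2 ⟨iterate_mem_cyc x _ i, zero_mem _⟩)
    · exact h _ (AddSubgroup.mem_prod.2 ⟨zero_mem _, iterate_mem_cyc x _ i⟩)

theorem avg_close {f : (W × W) × W → ℂ} {ε : ℝ} (hε : 0 < ε) (h2 : ∀ w : W, w + w = 0)
    (hf : ∑ y, ‖f y‖ ^ 2 ≤ 1)
    (h12 : ∑ y, ‖f (shear1 (AddMonoidHom.id W) y.1, y.2) - f y‖ ^ 2 ≤ ε ^ 2)
    (h21 : ∑ y, ‖f (shear2 (AddMonoidHom.id W) y.1, y.2) - f y‖ ^ 2 ≤ ε ^ 2)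
    (h12x : ∑ y, ‖f (shear1 x y.1, y.2) - f y‖ ^ 2 ≤ ε ^ 2)
    (h21x : ∑ y, ‖f (shear2 x y.1, y.2) - f y‖ ^ 2 ≤ ε ^ 2)
    (h13 : ∑ y : (W × W) × W, ‖f (y.1 + (y.2, 0), y.2) - f y‖ ^ 2 ≤ ε ^ 2)
    (h23 : ∑ y : (W × W) × W, ‖f (y.1 + (0, y.2), y.2) - f y‖ ^ 2 ≤ ε ^ 2) :
    ∑ y, ‖f y - avg (cyc2 x) f y‖ ^ 2 ≤ 3 * ε ^ 2 + 25 / 2 * ε := by
  have hc : (0 : ℝ) < Fintype.card (W × W) := card_pos'
  have h1 := mass_total x hε h2 hf h12 h21 h12x h21x h13 h23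
  have h3 : (Fintype.card (W × W) : ℝ) * ∑ y, ‖f y - avg (cyc2 x) f y‖ ^ 2 =
      ∑ y, ind (fun y => ¬ RZ x y) y * ‖ft f y‖ ^ 2 := by
    rw [← ft_parseval]
    refine Finset.sum_congr rfl fun y _ => ?_
    rw [ft_sub, ft_avg]
    by_cases h : RZ x y
    · rw [if_pos ((RZ_iff x y).1 h), sub_self,
        ind_of_not (P := fun y => ¬ RZ x y) (not_not.2 h)]
      simp
    · rw [if_neg (fun h' => h ((RZ_iff x y).2 h')), sub_zero,
        ind_of (P := fun y => ¬ RZ x y) h, one_mul]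
  rw [← h3] at h1
  rw [mul_comm (3 * ε ^ 2 + 25 / 2 * ε)] at h1
  exact le_of_mul_le_mul_left h1 hc

open Classical in
/-- The set of nonzero cyclic submodules. -/
noncomputable def cycs : Finset (AddSubgroup W) :=
  (univ.filter fun w : W => w ≠ 0).image (cyc x)

theorem mem_cycs {N : AddSubgroup W} (h : N ∈ cycs x) : ∃ w : W, w ≠ 0 ∧ cyc x w = N := by
  classical
  unfold cycs at h
  obtain ⟨w, hw, e⟩ := Finset.mem_image.1 h
  exact ⟨w, (Finset.mem_filter.1 hw).2, e⟩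

open Classical in
theorem avg_small {f : (W × W) × W → ℂ} {η : ℝ}
    (hb : ∀ N : AddSubgroup W,
      ∑ y : (W × W) × W, ‖∑ m : N.prod N, f (y.1 + m, y.2)‖ ^ 2 ≤ (Nat.card N : ℝ) ^ 2)
    (hη : ∑ N ∈ cycs x, ((Nat.card N : ℝ) ^ 2)⁻¹ ≤ η) :
    ∑ y ∈ univ.filter (fun y : (W × W) × W => y.2 ≠ 0), ‖avg (cyc2 x) f y‖ ^ 2 ≤ η := by
  have e0 : ∀ y : (W × W) × W, ‖avg (cyc2 x) f y‖ ^ 2 =
      ((Nat.card (cyc x y.2) : ℝ) ^ 4)⁻¹ *
        ‖∑ m : (cyc x y.2).prod (cyc x y.2), f (y.1 + m, y.2)‖ ^ 2 := by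
    intro y
    have hcard : Nat.card ((cyc x y.2).prod (cyc x y.2)) = Nat.card (cyc x y.2) ^ 2 := by
      rw [Nat.card_congr ((cyc x y.2).prodEquiv (cyc x y.2)).toEquiv, Nat.card_prod, sq]
    unfold avg cyc2
    rw [hcard, norm_mul, mul_pow, norm_inv, Complex.norm_natCast]
    push_cast
    congr 1
    rw [inv_pow, ← pow_mul]
  have hmaps : ∀ y ∈ univ.filter (fun y : (W × W) × W => y.2 ≠ 0), cyc x y.2 ∈ cycs x := by
    intro y hy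
    exact Finset.mem_image.2 ⟨y.2, by simpa using hy, rfl⟩
  rw [← Finset.sum_fiberwise_of_maps_to hmaps]
  refine le_trans (Finset.sum_le_sum fun N hN => ?_) hη
  have hpos : (0 : ℝ) < Nat.card N := by
    have : 0 < Nat.card N := Nat.card_pos
    exact_mod_cast this
  calc ∑ y ∈ (univ.filter (fun y : (W × W) × W => y.2 ≠ 0)).filter (fun y => cyc x y.2 = N),
        ‖avg (cyc2 x) f y‖ ^ 2
      = ∑ y ∈ (univ.filter (fun y : (W × W) × W => y.2 ≠ 0)).filter (fun y => cyc x y.2 = N),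
        ((Nat.card N : ℝ) ^ 4)⁻¹ * ‖∑ m : N.prod N, f (y.1 + m, y.2)‖ ^ 2 := by
        refine Finset.sum_congr rfl fun y hy => ?_
        obtain rfl := (Finset.mem_filter.1 hy).2
        exact e0 y
    _ ≤ ∑ y : (W × W) × W, ((Nat.card N : ℝ) ^ 4)⁻¹ * ‖∑ m : N.prod N, f (y.1 + m, y.2)‖ ^ 2 := by
        refine Finset.sum_le_sum_of_subset_of_nonneg (Finset.subset_univ _) fun y _ _ => ?_
        positivity
    _ = ((Nat.card N : ℝ) ^ 4)⁻¹ * ∑ y : (W × W) × W, ‖∑ m : N.prod N, f (y.1 + m, y.2)‖ ^ 2 := by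
        rw [Finset.mul_sum]
    _ ≤ ((Nat.card N : ℝ) ^ 4)⁻¹ * (Nat.card N : ℝ) ^ 2 :=
        mul_le_mul_of_nonneg_left (hb N) (by positivity)
    _ = ((Nat.card N : ℝ) ^ 2)⁻¹ := by
        field_simp

open Classical in
/-- The main finite estimate. -/
theorem finite_prop {f : (W × W) × W → ℂ} {ε η : ℝ} (hε : 0 < ε) (h2 : ∀ w : W, w + w = 0)
    (hf : ∑ y, ‖f y‖ ^ 2 ≤ 1)
    (h12 : ∑ y, ‖f (shear1 (AddMonoidHom.id W) y.1, y.2) - f y‖ ^ 2 ≤ ε ^ 2)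
    (h21 : ∑ y, ‖f (shear2 (AddMonoidHom.id W) y.1, y.2) - f y‖ ^ 2 ≤ ε ^ 2)
    (h12x : ∑ y, ‖f (shear1 x y.1, y.2) - f y‖ ^ 2 ≤ ε ^ 2)
    (h21x : ∑ y, ‖f (shear2 x y.1, y.2) - f y‖ ^ 2 ≤ ε ^ 2)
    (h13 : ∑ y : (W × W) × W, ‖f (y.1 + (y.2, 0), y.2) - f y‖ ^ 2 ≤ ε ^ 2)
    (h23 : ∑ y : (W × W) × W, ‖f (y.1 + (0, y.2), y.2) - f y‖ ^ 2 ≤ ε ^ 2)
    (hb : ∀ N : AddSubgroup W,
      ∑ y : (W × W) × W, ‖∑ m : N.prod N, f (y.1 + m, y.2)‖ ^ 2 ≤ (Nat.card N : ℝ) ^ 2)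
    (hη : ∑ N ∈ cycs x, ((Nat.card N : ℝ) ^ 2)⁻¹ ≤ η) :
    ∑ y ∈ univ.filter (fun y : (W × W) × W => y.2 ≠ 0), ‖f y‖ ^ 2 ≤
      2 * (3 * ε ^ 2 + 25 / 2 * ε) + 2 * η := by
  have h1 := avg_close x hε h2 hf h12 h21 h12x h21x h13 h23
  have h3 := avg_small x hb hη
  have h4 : ∀ y : (W × W) × W, ‖f y‖ ^ 2 ≤ 2 * ‖f y - avg (cyc2 x) f y‖ ^ 2 +
      2 * ‖avg (cyc2 x) f y‖ ^ 2 := by
    intro y
    have e : f y = (f y - avg (cyc2 x) f y) + avg (cyc2 x) f y := by ring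
    have := norm_add_le (f y - avg (cyc2 x) f y) (avg (cyc2 x) f y)
    rw [← e] at this
    have h0 := norm_nonneg (f y)
    nlinarith [sq_nonneg (‖f y - avg (cyc2 x) f y‖ - ‖avg (cyc2 x) f y‖)]
  calc ∑ y ∈ univ.filter (fun y : (W × W) × W => y.2 ≠ 0), ‖f y‖ ^ 2
      ≤ ∑ y ∈ univ.filter (fun y : (W × W) × W => y.2 ≠ 0),
        (2 * ‖f y - avg (cyc2 x) f y‖ ^ 2 + 2 * ‖avg (cyc2 x) f y‖ ^ 2) :=
        Finset.sum_le_sum fun y _ => h4 y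
    _ = 2 * ∑ y ∈ univ.filter (fun y : (W × W) × W => y.2 ≠ 0), ‖f y - avg (cyc2 x) f y‖ ^ 2 +
        2 * ∑ y ∈ univ.filter (fun y : (W × W) × W => y.2 ≠ 0), ‖avg (cyc2 x) f y‖ ^ 2 := by
        rw [Finset.sum_add_distrib, Finset.mul_sum, Finset.mul_sum]
    _ ≤ 2 * ∑ y, ‖f y - avg (cyc2 x) f y‖ ^ 2 + 2 * η := by
        have : ∑ y ∈ univ.filter (fun y : (W × W) × W => y.2 ≠ 0),
            ‖f y - avg (cyc2 x) f y‖ ^ 2 ≤ ∑ y, ‖f y - avg (cyc2 x) f y‖ ^ 2 :=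
          Finset.sum_le_sum_of_subset_of_nonneg (Finset.subset_univ _) fun y _ _ => by positivity
        linarith
    _ ≤ _ := by linarith

end Pool.Agent.InnerAm
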