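import Pool.Agent.InnerAm.Existence
import Pool.Agent.InnerAm.FiniteProp

/-!
# The finite block modules and their cyclic submodules
-/

namespace Pool.Agent.InnerAm

open Polynomial Finset

namespace Blocks

variable (B : Blocks)

/-- The finite module supported on the finite set `T` of blocks. -/
abbrev WT (T : Finset BIdx) : Type := (j : T) → (Fin (B.d j.1.1) → ZMod 2)

/-- The action of `x` on the finite module. -/
def xT (T : Finset BIdx) : B.WT T →+ B.WT T where
  toFun w j := B.m j (w j)
  map_zero' := by ext j; simp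
  map_add' v w := by ext j; simp

@[simp] theorem xT_apply (T : Finset BIdx) (w : B.WT T) (j : T) : B.xT T w j = B.m j (w j) := rfl

theorem xT_iterate (T : Finset BIdx) (w : B.WT T) (i : ℕ) (j : T) :
    ((B.xT T)^[i] w) j = (B.m j ^ i) (w j) := by
  induction i with
  | zero => simp
  | succ i ih => rw [Function.iterate_succ_apply', xT_apply, ih, pow_succ', Module.End.mul_apply]

theorem poly_mem_cyc (T : Finset BIdx) (w : B.WT T) (r : (ZMod 2)[X]) :
    (fun j : T => aeval (B.m j) r (w j)) ∈ cyc (B.xT T) w := by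
  induction r using Polynomial.induction_on' with
  | add p q hp hq =>
    have : (fun j : T => aeval (B.m j) (p + q) (w j)) =
        (fun j : T => aeval (B.m j) p (w j)) + (fun j : T => aeval (B.m j) q (w j)) := by
      funext j; simp
    rw [this]
    exact add_mem hp hq
  | monomial n c =>
    have hc : c = 0 ∨ c = 1 := by
      fin_cases c
      · left; rfl
      · right; rfl
    rcases hc with rfl | rfl
    · have : (fun j : T => aeval (B.m j) (monomial n (0 : ZMod 2)) (w j)) = 0 := by
        funext j; simp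
      rw [this]; exact zero_mem _
    · have : (fun j : T => aeval (B.m j) (monomial n (1 : ZMod 2)) (w j)) =
          (B.xT T)^[n] w := by
        funext j
        rw [xT_iterate, aeval_monomial, map_one, one_mul]
      rw [this]
      exact iterate_mem_cyc _ _ _

/-- The subgroup of vectors supported in `S`. -/
def NS (T : Finset BIdx) (S : Finset T) : AddSubgroup (B.WT T) where
  carrier := {v | ∀ j, j ∉ S → v j = 0}
  zero_mem' := fun _ _ => rfl
  add_mem' := by
    intro a b ha hb j hj
    rw [Pi.add_apply, ha j hj, hb j hj, add_zero]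
  neg_mem' := by
    intro a ha j hj
    rw [Pi.neg_apply, ha j hj, neg_zero]

open Classical in
/-- The block support of a vector. -/
noncomputable def bsupp (T : Finset BIdx) (w : B.WT T) : Finset T := univ.filter fun j => w j ≠ 0

theorem cyc_eq (T : Finset BIdx) (w : B.WT T) : cyc (B.xT T) w = B.NS T (B.bsupp T w) := by
  classical
  apply le_antisymm
  · unfold cyc
    rw [AddSubgroup.closure_le]
    rintro _ ⟨i, rfl⟩
    intro j hj
    have hw : w j = 0 := by
      by_contra h
      exact hj (by simp [bsupp, h])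
    show ((B.xT T)^[i] w) j = 0
    rw [xT_iterate, hw, map_zero]
  · intro v hv
    -- extend the functions by zero
    let w' : (j : BIdx) → (Fin (B.d j.1) → ZMod 2) := fun j => if h : j ∈ T then w ⟨j, h⟩ else 0
    let v' : (j : BIdx) → (Fin (B.d j.1) → ZMod 2) := fun j => if h : j ∈ T then v ⟨j, h⟩ else 0
    obtain ⟨r, hr⟩ := B.trans ((B.bsupp T w).map (Function.Embedding.subtype _)) w' v' (by
      intro j hj
      rw [Finset.mem_map] at hj
      obtain ⟨⟨k, hk⟩, hk1, rfl⟩ := hj
      simp only [bsupp, mem_filter, mem_univ, true_and] at hk1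
      simp only [w', Function.Embedding.subtype_apply, hk, dite_true]
      exact hk1)
    have key : v = fun j : T => aeval (B.m j) r (w j) := by
      funext j
      by_cases hj : j ∈ B.bsupp T w
      · have := hr j.1 (by
          rw [Finset.mem_map]; exact ⟨j, hj, rfl⟩)
        simp only [w', v', j.2, dite_true] at this
        exact this.symm
      · rw [hv j hj]
        have hw : w j = 0 := by
          by_contra h
          exact hj (by simp [bsupp, h])
        rw [hw, map_zero]
    rw [key]
    exact B.poly_mem_cyc T w r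

theorem card_NS (T : Finset BIdx) (S : Finset T) :
    Nat.card (B.NS T S) = ∏ j ∈ S, 2 ^ (B.d j.1.1) := by
  classical
  have e : (B.NS T S : Set (B.WT T)) =
      (Fintype.piFinset fun j : T =>
        if j ∈ S then (univ : Finset (Fin (B.d j.1.1) → ZMod 2)) else {0} : Finset _) := by
    ext v
    simp only [NS, SetLike.mem_coe, Fintype.mem_piFinset]
    constructor
    · intro h j
      by_cases hj : j ∈ S
      · simp [hj]
      · have := h j hj
        simp [hj, this]
    · intro h j hj
      have := h j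
      simpa [hj] using this
  have h1 : Nat.card (B.NS T S) = (Fintype.piFinset fun j : T =>
        if j ∈ S then (univ : Finset (Fin (B.d j.1.1) → ZMod 2)) else {0}).card := by
    have : Nat.card (B.NS T S) = Nat.card ((B.NS T S : Set (B.WT T)) : Type _) := rfl
    rw [this, e, Nat.card_coe_set_eq, Set.ncard_coe_finset]
  rw [h1, Fintype.card_piFinset, ← Finset.prod_subset (Finset.subset_univ S)]
  · refine Finset.prod_congr rfl fun j hj => ?_
    rw [if_pos hj]
    simp [ZMod.card]
  · intro j _ hj
    rw [if_neg hj, Finset.card_singleton]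

theorem sum_closed (N : ℕ) :
    ∑ n ∈ range N, ((n : ℝ) + 1) * ((4 : ℝ) ^ (n + 4))⁻¹ =
      1 / 144 * (1 - ((4 : ℝ) ^ N)⁻¹ * (1 + 3 * N / 4)) := by
  induction N with
  | zero => simp
  | succ N ih =>
    rw [Finset.sum_range_succ, ih]
    have h4 : (4 : ℝ) ^ N ≠ 0 := by positivity
    rw [pow_add, pow_succ]
    field_simp
    push_cast
    ring

theorem sum_blocks_le (T : Finset BIdx) :
    ∑ j ∈ T, ((4 : ℝ) ^ (B.d j.1))⁻¹ ≤ 1 / 144 := by
  classical
  -- bound T by a large initial piece
  obtain ⟨N, hN⟩ : ∃ N : ℕ, ∀ j ∈ T, j.1 < N := by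
    refine ⟨T.sup (fun j => j.1) + 1, fun j hj => ?_⟩
    have := Finset.le_sup (f := fun j : BIdx => j.1) hj
    exact Nat.lt_succ_of_le this
  have hsub : T ⊆ (range N).sigma (fun n => (univ : Finset (Fin (n + 1)))) := by
    intro j hj
    rw [Finset.mem_sigma]
    exact ⟨Finset.mem_range.2 (hN j hj), mem_univ _⟩
  calc ∑ j ∈ T, ((4 : ℝ) ^ (B.d j.1))⁻¹
      ≤ ∑ j ∈ (range N).sigma (fun n => (univ : Finset (Fin (n + 1)))),
          ((4 : ℝ) ^ (B.d j.1))⁻¹ :=
        Finset.sum_le_sum_of_subset_of_nonneg hsub fun j _ _ => by positivity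
    _ = ∑ n ∈ range N, ((n : ℝ) + 1) * ((4 : ℝ) ^ (B.d n))⁻¹ := by
        rw [Finset.sum_sigma]
        refine Finset.sum_congr rfl fun n _ => ?_
        simp
    _ ≤ ∑ n ∈ range N, ((n : ℝ) + 1) * ((4 : ℝ) ^ (n + 4))⁻¹ := by
        refine Finset.sum_le_sum fun n _ => ?_
        refine mul_le_mul_of_nonneg_left ?_ (by positivity)
        apply inv_anti₀ (by positivity)
        exact pow_le_pow_right₀ (by norm_num) (B.hd n)
    _ = 1 / 144 * (1 - ((4 : ℝ) ^ N)⁻¹ * (1 + 3 * N / 4)) := sum_closed N
    _ ≤ 1 / 144 := by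
        have : 0 ≤ ((4 : ℝ) ^ N)⁻¹ * (1 + 3 * N / 4) := by positivity
        linarith

theorem sum_image_le' {ι κ : Type*} [DecidableEq κ] (s : Finset ι) (f : ι → κ) (g : κ → ℝ)
    (hg : ∀ k, 0 ≤ g k) : ∑ k ∈ s.image f, g k ≤ ∑ i ∈ s, g (f i) := by
  classical
  induction s using Finset.induction_on with
  | empty => simp
  | insert a s ha ih =>
    rw [Finset.image_insert, Finset.sum_insert ha]
    by_cases h : f a ∈ s.image f
    · rw [Finset.insert_eq_of_mem h]; linarith [hg (f a)]
    · rw [Finset.sum_insert h]; linarith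

theorem cycs_sum_le (T : Finset BIdx) :
    ∑ N ∈ cycs (B.xT T), ((Nat.card N : ℝ) ^ 2)⁻¹ ≤ 1 / 10 := by
  classical
  have hsub : cycs (B.xT T) ⊆ ((univ : Finset T).powerset.erase ∅).image (B.NS T) := by
    intro N hN
    obtain ⟨w, hw, rfl⟩ := mem_cycs _ hN
    rw [Finset.mem_image]
    refine ⟨B.bsupp T w, ?_, (B.cyc_eq T w).symm⟩
    rw [Finset.mem_erase]
    refine ⟨fun h => ?_, Finset.mem_powerset.2 (Finset.subset_univ _)⟩
    apply hw
    funext j
    by_contra hj
    have : j ∈ B.bsupp T w := by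
      unfold bsupp
      rw [Finset.mem_filter]
      exact ⟨mem_univ _, hj⟩
    rw [h] at this
    exact absurd this (Finset.notMem_empty _)
  calc ∑ N ∈ cycs (B.xT T), ((Nat.card N : ℝ) ^ 2)⁻¹
      ≤ ∑ N ∈ ((univ : Finset T).powerset.erase ∅).image (B.NS T), ((Nat.card N : ℝ) ^ 2)⁻¹ :=
        Finset.sum_le_sum_of_subset_of_nonneg hsub fun _ _ _ => by positivity
    _ ≤ ∑ S ∈ (univ : Finset T).powerset.erase ∅, ((Nat.card (B.NS T S) : ℝ) ^ 2)⁻¹ :=
        sum_image_le' _ _ (fun N : AddSubgroup (B.WT T) => ((Nat.card N : ℝ) ^ 2)⁻¹)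
          fun _ => by positivity
    _ = ∑ S ∈ (univ : Finset T).powerset.erase ∅, ∏ j ∈ S, ((4 : ℝ) ^ (B.d j.1.1))⁻¹ := by
        refine Finset.sum_congr rfl fun S _ => ?_
        rw [card_NS]
        push_cast
        rw [← Finset.prod_pow, ← Finset.prod_inv_distrib]
        refine Finset.prod_congr rfl fun j _ => ?_
        rw [← pow_mul, mul_comm, pow_mul]
        norm_num
    _ = ∏ j : T, (1 + ((4 : ℝ) ^ (B.d j.1.1))⁻¹) - 1 := by
        rw [Finset.prod_one_add, ← Finset.sum_erase_add _ _ (Finset.empty_mem_powerset _)]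
        simp
    _ ≤ Real.exp (∑ j : T, ((4 : ℝ) ^ (B.d j.1.1))⁻¹) - 1 := by
        have := Real.prod_one_add_le_exp_sum (univ : Finset T)
          (f := fun j : T => ((4 : ℝ) ^ (B.d j.1.1))⁻¹) (fun _ => by positivity)
        linarith
    _ ≤ Real.exp (1 / 144) - 1 := by
        have h1 : ∑ j : T, ((4 : ℝ) ^ (B.d j.1.1))⁻¹ = ∑ j ∈ T, ((4 : ℝ) ^ (B.d j.1))⁻¹ :=
          Finset.sum_coe_sort T (fun j : BIdx => ((4 : ℝ) ^ (B.d j.1))⁻¹)
        have h2 := B.sum_blocks_le T
        have := Real.exp_le_exp.2 (h1.trans_le h2)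
        linarith
    _ ≤ 1 / 10 := by
        have h1 := Real.add_one_le_exp (-(1 / 144) : ℝ)
        rw [Real.exp_neg] at h1
        have h2 := Real.exp_pos (1 / 144)
        have h3 : (143 / 144 : ℝ) ≤ (Real.exp (1 / 144))⁻¹ := by linarith
        have h4 : Real.exp (1 / 144) ≤ 144 / 143 := by
          rw [le_inv_comm₀ (by norm_num) h2] at h3
          linarith [h3, (by norm_num : ((143 / 144 : ℝ))⁻¹ = 144 / 143)]
        linarith

end Blocks

end Pool.Agent.InnerAm
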