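import Mathlib

/-!
# Existence of the blocks: finite fields of characteristic two and the Chinese remainder theorem
-/

namespace Pool.Agent.InnerAm

open Polynomial

theorem many_minpolys (q : ℕ) (hq : q.Prime) (N : ℕ) (hN : q * N + 2 ≤ 2 ^ q) :
    ∃ y : Fin N → GaloisField 2 q, (∀ i, (minpoly (ZMod 2) (y i)).natDegree = q) ∧
      Function.Injective (fun i => minpoly (ZMod 2) (y i)) := by
  classical
  have : Fintype (GaloisField 2 q) := Fintype.ofFinite _
  have hfin : Module.finrank (ZMod 2) (GaloisField 2 q) = q := GaloisField.finrank 2 hq.ne_zero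
  have hcard : Fintype.card (GaloisField 2 q) = 2 ^ q := by
    rw [← Nat.card_eq_fintype_card]; exact GaloisField.card 2 q hq.ne_zero
  set S : Finset (GaloisField 2 q) := Finset.univ \ {0, 1} with hS
  have hScard : 2 ^ q - 2 ≤ S.card := by
    rw [hS]
    have h1 := Finset.le_card_sdiff ({0, 1} : Finset (GaloisField 2 q)) Finset.univ
    have h2 : ({0, 1} : Finset (GaloisField 2 q)).card ≤ 2 := Finset.card_le_two
    rw [Finset.card_univ, hcard] at h1
    omega
  have hint : ∀ x : GaloisField 2 q, IsIntegral (ZMod 2) x := fun x => Algebra.IsIntegral.isIntegral x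
  have hdeg : ∀ x ∈ S, (minpoly (ZMod 2) x).natDegree = q := by
    intro x hx
    have h1 : (minpoly (ZMod 2) x).natDegree ∣ q := by
      have := minpoly.degree_dvd (hint x)
      rwa [hfin] at this
    rcases (Nat.dvd_prime hq).1 h1 with h | h
    · exfalso
      rw [minpoly.natDegree_eq_one_iff] at h
      obtain ⟨c, hc⟩ := h
      rw [hS] at hx
      simp only [Finset.mem_sdiff, Finset.mem_univ, true_and, Finset.mem_insert,
        Finset.mem_singleton, not_or] at hx
      have : c = 0 ∨ c = 1 := by
        revert c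
        intro c _
        fin_cases c
        · left; rfl
        · right; rfl
      rcases this with rfl | rfl
      · exact hx.1 (by rw [← hc, map_zero])
      · exact hx.2 (by rw [← hc, map_one])
    · exact h
  have hfib : ∀ b ∈ S.image (minpoly (ZMod 2)),
      (S.filter fun a => minpoly (ZMod 2) a = b).card ≤ q := by
    intro b hb
    obtain ⟨x, hx, rfl⟩ := Finset.mem_image.1 hb
    set P := minpoly (ZMod 2) x with hP
    have hP0 : P ≠ 0 := minpoly.ne_zero (hint x)
    have hsub : (S.filter fun a => minpoly (ZMod 2) a = P) ⊆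
        (P.map (algebraMap (ZMod 2) (GaloisField 2 q))).roots.toFinset := by
      intro a ha
      rw [Finset.mem_filter] at ha
      rw [Multiset.mem_toFinset, mem_roots (Polynomial.map_ne_zero hP0), IsRoot.def,
        eval_map_algebraMap, ← ha.2]
      exact minpoly.aeval _ _
    calc (S.filter fun a => minpoly (ZMod 2) a = P).card
        ≤ (P.map (algebraMap (ZMod 2) (GaloisField 2 q))).roots.toFinset.card :=
          Finset.card_le_card hsub
      _ ≤ Multiset.card (P.map (algebraMap (ZMod 2) (GaloisField 2 q))).roots :=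
          Multiset.toFinset_card_le _
      _ ≤ (P.map (algebraMap (ZMod 2) (GaloisField 2 q))).natDegree := card_roots' _
      _ = q := by rw [natDegree_map, hdeg x hx]
  have hle := Finset.card_le_mul_card_image S q hfib
  have hN2 : N ≤ (S.image (minpoly (ZMod 2))).card := by
    have h1 : q * N ≤ q * (S.image (minpoly (ZMod 2))).card := by omega
    exact Nat.le_of_mul_le_mul_left h1 hq.pos
  have hemb : Nonempty (Fin N ↪ (S.image (minpoly (ZMod 2)))) := by
    apply Function.Embedding.nonempty_of_card_le
    simpa using hN2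
  obtain ⟨e⟩ := hemb
  have hch : ∀ i : Fin N, ∃ x ∈ S, minpoly (ZMod 2) x = (e i : (ZMod 2)[X]) := by
    intro i
    exact Finset.mem_image.1 (e i).2
  choose y hyS hy using hch
  refine ⟨y, fun i => hdeg _ (hyS i), fun i j hij => ?_⟩
  simp only [hy] at hij
  exact e.injective (Subtype.ext hij)

theorem sq_le_two_pow {q : ℕ} (hq : 4 ≤ q) : q ^ 2 ≤ 2 ^ q := by
  induction q, hq using Nat.le_induction with
  | base => norm_num
  | succ n hn ih =>
    rw [pow_succ 2 n]
    nlinarith

/-- The index set of the blocks. -/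
abbrev BIdx : Type := Σ n : ℕ, Fin (n + 1)

/-- The data of a family of cyclic block modules. -/
structure Blocks where
  d : ℕ → ℕ
  hd : ∀ n, n + 4 ≤ d n
  m : (j : BIdx) → Module.End (ZMod 2) (Fin (d j.1) → ZMod 2)
  trans : ∀ (T : Finset BIdx) (w v : (j : BIdx) → (Fin (d j.1) → ZMod 2)),
    (∀ j ∈ T, w j ≠ 0) → ∃ r : (ZMod 2)[X], ∀ j ∈ T, aeval (m j) r (w j) = v j

/-- In a finite field generated by `y`, any vector is a polynomial multiple of any nonzero one. -/
theorem field_trans (q : ℕ) (hq : q.Prime) (y : GaloisField 2 q)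
    (hy : (minpoly (ZMod 2) y).natDegree = q) (w v : GaloisField 2 q) (hw : w ≠ 0) :
    ∃ r : (ZMod 2)[X], aeval y r * w = v := by
  have hint : IsIntegral (ZMod 2) y := Algebra.IsIntegral.isIntegral y
  have hfin : Module.finrank (ZMod 2) (GaloisField 2 q) = q := GaloisField.finrank 2 hq.ne_zero
  have htop : IntermediateField.adjoin (ZMod 2) {y} = ⊤ := by
    apply IntermediateField.eq_of_le_of_finrank_le le_top
    rw [IntermediateField.finrank_top', hfin, IntermediateField.adjoin.finrank hint, hy]
  have hmem : v / w ∈ (IntermediateField.adjoin (ZMod 2) {y}).toSubalgebra := by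
    rw [htop]; trivial
  rw [IntermediateField.adjoin_simple_toSubalgebra_of_isAlgebraic hint.isAlgebraic,
    Algebra.adjoin_singleton_eq_range_aeval] at hmem
  obtain ⟨r, hr⟩ := hmem
  refine ⟨r, ?_⟩
  have : aeval y r = v / w := hr
  rw [this, div_mul_cancel₀ _ hw]

theorem aeval_intertwine {A B : Type*} [AddCommGroup A] [Module (ZMod 2) A] [AddCommGroup B]
    [Module (ZMod 2) B] (e : A →ₗ[ZMod 2] B) (f : Module.End (ZMod 2) A)
    (g : Module.End (ZMod 2) B) (h : ∀ a, e (f a) = g (e a)) (r : (ZMod 2)[X]) (a : A) :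
    e (aeval f r a) = aeval g r (e a) := by
  induction r using Polynomial.induction_on' with
  | add p q hp hq => simp only [map_add, LinearMap.add_apply, hp, hq]
  | monomial n c =>
    simp only [aeval_monomial, Module.algebraMap_end_eq_smul_id, Module.End.mul_apply,
      LinearMap.smul_apply, LinearMap.id_apply, map_smul]
    congr 1
    induction n with
    | zero => simp
    | succ n ih => rw [pow_succ', Module.End.mul_apply, h, ih, pow_succ' g, Module.End.mul_apply]

theorem aeval_mulLeft {K : Type*} [Field K] [Algebra (ZMod 2) K] (y : K) (r : (ZMod 2)[X])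
    (u : K) : aeval (LinearMap.mulLeft (ZMod 2) y) r u = aeval y r * u := by
  induction r using Polynomial.induction_on' with
  | add p q hp hq => simp only [map_add, LinearMap.add_apply, hp, hq, add_mul]
  | monomial n c =>
    simp only [aeval_monomial, Module.algebraMap_end_eq_smul_id, Module.End.mul_apply,
      LinearMap.smul_apply, LinearMap.id_apply, LinearMap.pow_mulLeft, LinearMap.mulLeft_apply]
    rw [Algebra.smul_def, mul_assoc]

theorem exists_blocks : Nonempty Blocks := by
  classical
  -- primes
  let q : ℕ → ℕ := fun n => Nat.nth Nat.Prime (n + 3)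
  have hq : ∀ n, (q n).Prime := fun n => Nat.prime_nth_prime _
  have hq5 : ∀ n, n + 5 ≤ q n := fun n => by
    have := Nat.add_two_le_nth_prime (n + 3)
    show n + 5 ≤ Nat.nth Nat.Prime (n + 3)
    omega
  have hqinj : Function.Injective q := by
    intro a b hab
    have := Nat.nth_injective Nat.infinite_setOfPred_prime hab
    omega
  have hcount : ∀ n, q n * (n + 1) + 2 ≤ 2 ^ (q n) := by
    intro n
    have h1 := hq5 n
    have h2 := sq_le_two_pow (q := q n) (by omega)
    nlinarith
  have hy := fun n => many_minpolys (q n) (hq n) (n + 1) (hcount n)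
  choose y hydeg hyinj using hy
  have hfin : ∀ n, Module.finrank (ZMod 2) (GaloisField 2 (q n)) = q n :=
    fun n => GaloisField.finrank 2 (hq n).ne_zero
  let e : (n : ℕ) → GaloisField 2 (q n) ≃ₗ[ZMod 2] (Fin (q n) → ZMod 2) :=
    fun n => (Module.finBasisOfFinrankEq (ZMod 2) (GaloisField 2 (q n)) (hfin n)).equivFun
  let m : (j : BIdx) → Module.End (ZMod 2) (Fin (q j.1) → ZMod 2) := fun j =>
    (e j.1).toLinearMap ∘ₗ (LinearMap.mulLeft (ZMod 2) (y j.1 j.2)) ∘ₗ (e j.1).symm.toLinearMap
  have hm : ∀ (j : BIdx) (r : (ZMod 2)[X]) (u : GaloisField 2 (q j.1)),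
      aeval (m j) r (e j.1 u) = e j.1 (aeval (y j.1 j.2) r * u) := by
    intro j r u
    have := aeval_intertwine (e j.1).toLinearMap (LinearMap.mulLeft (ZMod 2) (y j.1 j.2)) (m j)
      (fun a => by simp [m]) r u
    rw [aeval_mulLeft] at this
    exact this.symm
  refine ⟨⟨q, fun n => by have := hq5 n; omega, m, ?_⟩⟩
  intro T w v hw
  -- the polynomials for the individual blocks
  have h1 : ∀ j : BIdx, ∃ r : (ZMod 2)[X], w j ≠ 0 → aeval (m j) r (w j) = v j := by
    intro j
    by_cases hj : w j = 0
    · exact ⟨0, fun h => absurd hj h⟩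
    · have hw' : (e j.1).symm (w j) ≠ 0 := by
        intro h
        apply hj
        have := congrArg (e j.1) h
        simpa using this
      obtain ⟨r, hr⟩ := field_trans (q j.1) (hq j.1) (y j.1 j.2) (hydeg j.1 j.2)
        ((e j.1).symm (w j)) ((e j.1).symm (v j)) hw'
      refine ⟨r, fun _ => ?_⟩
      have h2 := hm j r ((e j.1).symm (w j))
      rw [hr, LinearEquiv.apply_symm_apply, LinearEquiv.apply_symm_apply] at h2
      exact h2
  choose r0 hr0 using h1
  -- Chinese remainder theorem
  let P : BIdx → (ZMod 2)[X] := fun j => minpoly (ZMod 2) (y j.1 j.2)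
  have hPinj : Function.Injective P := by
    rintro ⟨a, i⟩ ⟨b, k⟩ h
    have hd : q a = q b := by
      have h1 := hydeg a i
      have h2 := hydeg b k
      have h3 : minpoly (ZMod 2) (y a i) = minpoly (ZMod 2) (y b k) := h
      rw [← h1, ← h2, h3]
    obtain rfl := hqinj hd
    have h5 : i = k := hyinj a h
    rw [h5]
  have hPirr : ∀ j, Irreducible (P j) := fun j =>
    minpoly.irreducible (Algebra.IsIntegral.isIntegral _)
  have hPmonic : ∀ j, (P j).Monic := fun j => minpoly.monic (Algebra.IsIntegral.isIntegral _)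
  have hcop : ∀ i j, i ≠ j → IsCoprime (P i) (P j) := by
    intro i j hij
    rcases (hPirr i).isCoprime_or_dvd (P j) with h | h
    · exact h
    · exfalso
      have hass : Associated (P i) (P j) := (hPirr i).associated_of_dvd (hPirr j) h
      have := eq_of_monic_of_associated (hPmonic i) (hPmonic j) hass
      exact hij (hPinj this)
  obtain ⟨r, hr⟩ := Ideal.exists_forall_sub_mem_ideal
    (I := fun j : T => Ideal.span {P (j : BIdx)})
    (fun i j hij => by
      show IsCoprime (Ideal.span {P (i : BIdx)}) (Ideal.span {P (j : BIdx)})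
      rw [Ideal.isCoprime_span_singleton_iff]
      exact hcop _ _ (fun h => hij (Subtype.ext h)))
    (fun j => r0 (j : BIdx))
  refine ⟨r, fun j hj => ?_⟩
  have h3 := hr ⟨j, hj⟩
  rw [Ideal.mem_span_singleton] at h3
  obtain ⟨s, hs⟩ := h3
  have hs' : r = r0 j + P j * s := by
    have : r - r0 j = P j * s := hs
    rw [← this]; ring
  have h4 : aeval (m j) (P j * s) (w j) = 0 := by
    have h5 := hm j (P j * s) ((e j.1).symm (w j))
    rw [LinearEquiv.apply_symm_apply] at h5
    have h6 : aeval (y j.1 j.2) (P j) = 0 := minpoly.aeval _ _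
    rw [h5, map_mul (aeval (y j.1 j.2)), h6, zero_mul, zero_mul, map_zero]
  rw [hs', map_add, LinearMap.add_apply, h4, add_zero]
  exact hr0 j (hw j hj)

end Pool.Agent.InnerAm
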