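import Pool.Agent.InnerAm.Defs

/-!
# A criterion for inner amenability
-/

noncomputable section

namespace Pool.Agent.InnerAm

open Filter Topology

set_option linter.unusedSectionVars false

variable {G : Type*} [Group G]

open Classical in
/-- Proportion of elements of the finite set `Φ` lying in `A`. -/
def prop (Φ : Finset G) (A : Set G) : ℝ := ((Φ.filter fun x => x ∈ A).card : ℝ) / Φ.card

theorem prop_mem (Φ : Finset G) (A : Set G) : prop Φ A ∈ Set.Icc (0 : ℝ) 1 := by
  classical
  constructor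
  · unfold prop; positivity
  · unfold prop
    apply div_le_one_of_le₀
    · exact_mod_cast Finset.card_filter_le _ _
    · positivity

open Classical in
theorem prop_eq_one (Φ : Finset G) (A : Set G) (hne : Φ.Nonempty) (h : ∀ x ∈ Φ, x ∈ A) :
    prop Φ A = 1 := by
  unfold prop
  rw [Finset.filter_true_of_mem h]
  apply div_self
  have := hne.card_pos
  exact_mod_cast this.ne'

theorem exists_lim (Φ : ℕ → Finset G) (A : Set G) :
    ∃ x : ℝ, Tendsto (fun n => prop (Φ n) A) (hyperfilter ℕ : Filter ℕ) (𝓝 x) := by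
  have h := isCompact_Icc.ultrafilter_le_nhds
    ((hyperfilter ℕ).map (fun n => prop (Φ n) A)) (s := Set.Icc (0 : ℝ) 1) (by
      rw [le_principal_iff, Ultrafilter.mem_coe, Ultrafilter.mem_map]
      exact Filter.univ_mem' fun n => prop_mem _ _)
  obtain ⟨x, -, hx⟩ := h
  exact ⟨x, hx⟩

/-- The limit of the proportions along an ultrafilter. -/
def mlim (Φ : ℕ → Finset G) (A : Set G) : ℝ := Classical.choose (exists_lim Φ A)

theorem tendsto_mlim (Φ : ℕ → Finset G) (A : Set G) :
    Tendsto (fun n => prop (Φ n) A) (hyperfilter ℕ : Filter ℕ) (𝓝 (mlim Φ A)) :=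
  Classical.choose_spec (exists_lim Φ A)

open Classical in
theorem prop_diff (Φ : Finset G) (A : Set G) (g : G) :
    |prop Φ ((fun x => g * x * g⁻¹) '' A) - prop Φ A| ≤
      ((Φ.filter fun x => g * x * g⁻¹ ∉ Φ).card : ℝ) / Φ.card := by
  -- number of elements of Φ in gAg⁻¹ = number of x ∈ A with gxg⁻¹ ∈ Φ
  let c : G ≃ G := (MulAut.conj g).toEquiv
  have hc : ∀ x, c x = g * x * g⁻¹ := fun x => rfl
  let Ψ : Finset G := Φ.map c.symm.toEmbedding
  have hΨ : ∀ x, x ∈ Ψ ↔ c x ∈ Φ := by
    intro x
    simp only [Ψ, Finset.mem_map_equiv, Equiv.symm_symm]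
  have hcardΨ : Ψ.card = Φ.card := Finset.card_map _
  have e1 : (Φ.filter fun x => x ∈ (fun x => g * x * g⁻¹) '' A).card =
      (Ψ.filter fun x => x ∈ A).card := by
    symm
    apply Finset.card_bij (fun x _ => c x)
    · intro x hx
      rw [Finset.mem_filter] at hx ⊢
      exact ⟨(hΨ x).1 hx.1, ⟨x, hx.2, rfl⟩⟩
    · intro x _ y _ h
      exact c.injective h
    · intro y hy
      rw [Finset.mem_filter] at hy
      obtain ⟨hy1, x, hx, hxy⟩ := hy
      refine ⟨x, ?_, hxy⟩
      rw [Finset.mem_filter, hΨ]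
      refine ⟨?_, hx⟩
      rw [hc]
      have : g * x * g⁻¹ = y := hxy
      rw [this]; exact hy1
  have hbad : (Φ.filter fun x => g * x * g⁻¹ ∉ Φ) = Φ \ Ψ := by
    ext x
    rw [Finset.mem_filter, Finset.mem_sdiff, hΨ, hc]
  have hcard2 : (Ψ \ Φ).card = (Φ \ Ψ).card := Finset.card_sdiff_comm hcardΨ
  have l1 : (Ψ.filter fun x => x ∈ A).card ≤ (Φ.filter fun x => x ∈ A).card + (Ψ \ Φ).card := by
    calc (Ψ.filter fun x => x ∈ A).card
        ≤ ((Φ.filter fun x => x ∈ A) ∪ (Ψ \ Φ)).card := by
          apply Finset.card_le_card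
          intro x hx
          rw [Finset.mem_filter] at hx
          rw [Finset.mem_union, Finset.mem_filter, Finset.mem_sdiff]
          by_cases h : x ∈ Φ
          · left; exact ⟨h, hx.2⟩
          · right; exact ⟨hx.1, h⟩
      _ ≤ _ := Finset.card_union_le _ _
  have l2 : (Φ.filter fun x => x ∈ A).card ≤ (Ψ.filter fun x => x ∈ A).card + (Φ \ Ψ).card := by
    calc (Φ.filter fun x => x ∈ A).card
        ≤ ((Ψ.filter fun x => x ∈ A) ∪ (Φ \ Ψ)).card := by
          apply Finset.card_le_card
          intro x hx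
          rw [Finset.mem_filter] at hx
          rw [Finset.mem_union, Finset.mem_filter, Finset.mem_sdiff]
          by_cases h : x ∈ Ψ
          · left; exact ⟨h, hx.2⟩
          · right; exact ⟨hx.1, h⟩
      _ ≤ _ := Finset.card_union_le _ _
  unfold prop
  rw [e1, hbad, ← sub_div, abs_div, abs_of_nonneg (by positivity : (0 : ℝ) ≤ (Φ.card : ℝ))]
  apply div_le_div_of_nonneg_right _ (by positivity)
  rw [hcard2] at l1
  rw [abs_le]
  constructor
  · have : ((Φ.filter fun x => x ∈ A).card : ℝ) ≤
      (Ψ.filter fun x => x ∈ A).card + (Φ \ Ψ).card := by exact_mod_cast l2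
    linarith
  · have : ((Ψ.filter fun x => x ∈ A).card : ℝ) ≤
      (Φ.filter fun x => x ∈ A).card + (Φ \ Ψ).card := by exact_mod_cast l1
    linarith

open Classical in
/-- Criterion for inner amenability by asymptotically conjugation invariant finite sets. -/
theorem innerAmenable_of_folner (Φ : ℕ → Finset G) (hne : ∀ n, (Φ n).Nonempty)
    (h1 : ∀ n, (1 : G) ∉ Φ n) (S : Set G) (hS : Subgroup.closure S = ⊤)
    (hinv : ∀ g ∈ S, Tendsto
      (fun n => (((Φ n).filter fun x => g * x * g⁻¹ ∉ Φ n).card : ℝ) / (Φ n).card)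
      atTop (𝓝 0)) : IsInnerAmenable G := by
  -- invariance
  have hgen : ∀ g ∈ S, ∀ A : Set G, mlim Φ ((fun x => g * x * g⁻¹) '' A) = mlim Φ A := by
    intro g hg A
    have t1 := tendsto_mlim Φ ((fun x => g * x * g⁻¹) '' A)
    have t2 := tendsto_mlim Φ A
    have t3 := t1.sub t2
    have t4 : Tendsto (fun n => prop (Φ n) ((fun x => g * x * g⁻¹) '' A) - prop (Φ n) A)
        (hyperfilter ℕ : Filter ℕ) (𝓝 0) := by
      have t5 : Tendsto
        (fun n => (((Φ n).filter fun x => g * x * g⁻¹ ∉ Φ n).card : ℝ) / (Φ n).card)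
        (hyperfilter ℕ : Filter ℕ) (𝓝 0) :=
        (hinv g hg).mono_left (Nat.hyperfilter_le_atTop)
      exact squeeze_zero_norm (fun n => by
        rw [Real.norm_eq_abs]; exact prop_diff (Φ n) A g) t5
    have := tendsto_nhds_unique t3 t4
    linarith
  have himg : ∀ (g h : G) (A : Set G), (fun x => (g * h) * x * (g * h)⁻¹) '' A =
      (fun x => g * x * g⁻¹) '' ((fun x => h * x * h⁻¹) '' A) := by
    intro g h A
    rw [Set.image_image]
    congr 1
    funext x
    group
  have hone : ∀ (A : Set G), (fun x => (1 : G) * x * (1 : G)⁻¹) '' A = A := by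
    intro A
    have : (fun x : G => (1 : G) * x * (1 : G)⁻¹) = id := by
      funext x; simp
    rw [this, Set.image_id]
  have hall : ∀ g : G, ∀ A : Set G, mlim Φ ((fun x => g * x * g⁻¹) '' A) = mlim Φ A := by
    intro g
    have hg : g ∈ Subgroup.closure S := by rw [hS]; trivial
    refine Subgroup.closure_induction
      (p := fun g _ => ∀ A : Set G, mlim Φ ((fun x => g * x * g⁻¹) '' A) = mlim Φ A)
      ?_ ?_ ?_ ?_ hg
    · intro x hx A
      exact hgen x hx A
    · intro A
      rw [hone]
    · intro x y _ _ hx hy A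
      rw [himg, hx, hy]
    · intro x _ hx A
      have e : (fun y => x * y * x⁻¹) '' ((fun y => x⁻¹ * y * (x⁻¹)⁻¹) '' A) = A := by
        rw [← himg, mul_inv_cancel]
        exact hone A
      rw [← hx, e]
  refine ⟨mlim Φ, ?_, ?_, ?_, fun g A _ => hall g A⟩
  · intro A _
    exact ge_of_tendsto' (tendsto_mlim Φ A) fun n => (prop_mem _ _).1
  · have e : ∀ n, prop (Φ n) ({1} : Set G)ᶜ = 1 := by
      intro n
      have hcount : ∀ x ∈ Φ n, x ∈ ({1} : Set G)ᶜ := by
        intro x hx hx1
        have hx2 : x = 1 := hx1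
        rw [hx2] at hx
        exact h1 n hx
      exact prop_eq_one _ _ (hne n) hcount
    have t := tendsto_mlim Φ ({1} : Set G)ᶜ
    simp only [e] at t
    exact tendsto_nhds_unique t tendsto_const_nhds
  · intro A _ C _ hAC
    have t1 := (tendsto_mlim Φ A).add (tendsto_mlim Φ C)
    have t2 := tendsto_mlim Φ (A ∪ C)
    have e : ∀ n, prop (Φ n) (A ∪ C) = prop (Φ n) A + prop (Φ n) C := by
      intro n
      unfold prop
      rw [← add_div]
      congr 1
      rw [Finset.card_filter, Finset.card_filter, Finset.card_filter]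
      push_cast
      rw [← Finset.sum_add_distrib]
      refine Finset.sum_congr rfl fun x _ => ?_
      by_cases hA : x ∈ A
      · have hC : x ∉ C := fun h => Set.disjoint_left.1 hAC hA h
        rw [if_pos (Set.mem_union_left C hA), if_pos hA, if_neg hC, add_zero]
      · by_cases hC : x ∈ C
        · rw [if_pos (Set.mem_union_right A hC), if_neg hA, if_pos hC, zero_add]
        · rw [if_neg (fun h => h.elim hA hC), if_neg hA, if_neg hC, zero_add]
    simp only [e] at t2
    exact tendsto_nhds_unique t2 t1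

end Pool.Agent.InnerAm
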