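import Pool.Agent.InnerAm.Paradox

/-!
# Finite Fourier analysis: the relative property (T) type estimate in characteristic two
-/

set_option linter.unusedSectionVars false

namespace Pool.Agent.InnerAm

open Finset

section parseval

variable {U : Type*} [AddCommGroup U] [Fintype U]

theorem parseval (g : U → ℂ) :
    ∑ χ : AddChar U ℂ, ‖∑ u, g u * χ u‖ ^ 2 = (Fintype.card U : ℝ) * ∑ u, ‖g u‖ ^ 2 := by
  classical
  have h : ((∑ χ : AddChar U ℂ, ‖∑ u, g u * χ u‖ ^ 2 : ℝ) : ℂ) =
      ((Fintype.card U : ℝ) * ∑ u, ‖g u‖ ^ 2 : ℝ) := by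
    push_cast
    have e1 : ∀ χ : AddChar U ℂ, ((‖∑ u, g u * χ u‖ : ℝ) : ℂ) ^ 2 =
        ∑ u, ∑ v, g u * (starRingEnd ℂ) (g v) * χ (u - v) := by
      intro χ
      rw [← Complex.mul_conj', map_sum, Finset.sum_mul_sum]
      refine Finset.sum_congr rfl fun u _ => Finset.sum_congr rfl fun v _ => ?_
      rw [map_mul, ← AddChar.map_neg_eq_conj, sub_eq_add_neg, AddChar.map_add_eq_mul]
      ring
    simp only [e1]
    rw [Finset.sum_comm]
    rw [Finset.mul_sum]
    refine Finset.sum_congr rfl fun u _ => ?_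
    rw [Finset.sum_comm]
    rw [Finset.sum_eq_single u]
    · rw [← Finset.mul_sum, AddChar.sum_apply_eq_ite, sub_self, if_pos rfl, ← Complex.mul_conj']
      ring
    · intro v _ hv
      rw [← Finset.mul_sum, AddChar.sum_apply_eq_ite, if_neg, mul_zero]
      rw [sub_eq_zero]
      exact fun h => hv h.symm
    · intro h
      exact absurd (Finset.mem_univ _) h
  exact_mod_cast h

end parseval

section transform

variable {U W : Type*} [AddCommGroup U] [Fintype U] [Fintype W]

/-- Partial Fourier transform (in the variable `u`). -/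
noncomputable def ft (f : U × W → ℂ) (x : AddChar U ℂ × W) : ℂ :=
  ∑ u, f (u, x.2) * x.1 u

theorem ft_sub (f g : U × W → ℂ) (x : AddChar U ℂ × W) :
    ft (fun y => f y - g y) x = ft f x - ft g x := by
  simp only [ft, sub_mul, Finset.sum_sub_distrib]

theorem ft_parseval (f : U × W → ℂ) :
    ∑ x, ‖ft f x‖ ^ 2 = (Fintype.card U : ℝ) * ∑ y, ‖f y‖ ^ 2 := by
  rw [Fintype.sum_prod_type_right, Fintype.sum_prod_type_right, Finset.mul_sum]
  refine Finset.sum_congr rfl fun w _ => ?_
  exact parseval (fun u => f (u, w))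

theorem card_pos' : (0 : ℝ) < Fintype.card U := by
  have : 0 < Fintype.card U := Fintype.card_pos
  exact_mod_cast this

/-- The permutation of the dual side induced by an automorphism `T` of `U`. -/
def dualPerm (W : Type*) (T : U ≃+ U) : (AddChar U ℂ × W) ≃ (AddChar U ℂ × W) where
  toFun x := (x.1.compAddMonoidHom T.symm.toAddMonoidHom, x.2)
  invFun x := (x.1.compAddMonoidHom T.toAddMonoidHom, x.2)
  left_inv x := by
    ext u <;> simp
  right_inv x := by
    ext u <;> simp

@[simp] theorem dualPerm_fst (T : U ≃+ U) (x : AddChar U ℂ × W) (u : U) :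
    (dualPerm W T x).1 u = x.1 (T.symm u) := rfl

@[simp] theorem dualPerm_snd (T : U ≃+ U) (x : AddChar U ℂ × W) :
    (dualPerm W T x).2 = x.2 := rfl

theorem ft_comp (T : U ≃+ U) (f : U × W → ℂ) (x : AddChar U ℂ × W) :
    ft (fun y => f (T y.1, y.2)) x = ft f (dualPerm W T x) := by
  simp only [ft, dualPerm_snd, dualPerm_fst]
  exact Fintype.sum_equiv T.toEquiv _ _ (fun u => by simp)

theorem ft_translate (τ : W → U) (f : U × W → ℂ) (x : AddChar U ℂ × W) :
    ft (fun y => f (y.1 + τ y.2, y.2)) x = x.1 (-τ x.2) * ft f x := by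
  simp only [ft, Finset.mul_sum]
  refine Fintype.sum_equiv (Equiv.addRight (τ x.2)) _ _ (fun u => ?_)
  simp only [Equiv.coe_addRight]
  rw [AddChar.map_add_eq_mul]
  have : x.1 (-τ x.2) * x.1 (τ x.2) = 1 := by
    rw [← AddChar.map_add_eq_mul, neg_add_cancel, AddChar.map_zero_eq_one]
  calc f (u + τ x.2, x.2) * x.1 u
      = (x.1 (-τ x.2) * x.1 (τ x.2)) * (f (u + τ x.2, x.2) * x.1 u) := by rw [this, one_mul]
    _ = _ := by ring

open Classical in
/-- Averaging over a subgroup depending on the second variable. -/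
noncomputable def avg (M : W → AddSubgroup U) (f : U × W → ℂ) (y : U × W) : ℂ :=
  (Nat.card (M y.2) : ℂ)⁻¹ * ∑ m : M y.2, f (y.1 + m, y.2)

theorem card_sub_ne (M : AddSubgroup U) : (Nat.card M : ℂ) ≠ 0 := by
  have : 0 < Nat.card M := Nat.card_pos
  exact_mod_cast this.ne'

open Classical in
theorem ft_avg (M : W → AddSubgroup U) (f : U × W → ℂ) (x : AddChar U ℂ × W) :
    ft (avg M f) x = if (∀ m ∈ M x.2, x.1 m = 1) then ft f x else 0 := by
  have e1 : ft (avg M f) x =
      (Nat.card (M x.2) : ℂ)⁻¹ * ∑ m : M x.2, ft (fun y => f (y.1 + m, y.2)) x := by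
    simp only [ft, avg]
    rw [Finset.sum_comm, Finset.mul_sum]
    refine Finset.sum_congr rfl fun u _ => ?_
    rw [mul_assoc, Finset.sum_mul]
  have e2 : ∀ m : M x.2, ft (fun y : U × W => f (y.1 + m, y.2)) x = x.1 (-(m : U)) * ft f x :=
    fun m => ft_translate (fun _ => (m : U)) f x
  rw [e1]
  simp only [e2]
  rw [← Finset.sum_mul, ← mul_assoc]
  split_ifs with h
  · have : ∀ m : M x.2, x.1 (-(m : U)) = 1 := fun m => h _ (neg_mem m.2)
    simp only [this, Finset.sum_const, Finset.card_univ, nsmul_eq_mul, mul_one]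
    rw [← Nat.card_eq_fintype_card, inv_mul_cancel₀ (card_sub_ne _), one_mul]
  · push Not at h
    obtain ⟨m0, hm0, hne⟩ := h
    have key : ∑ m : M x.2, x.1 (-(m : U)) = 0 := by
      have s : x.1 m0 * ∑ m : M x.2, x.1 (-(m : U)) = ∑ m : M x.2, x.1 (-(m : U)) := by
        rw [Finset.mul_sum]
        refine Fintype.sum_equiv (Equiv.addRight (-(⟨m0, hm0⟩ : M x.2))) _ _ (fun m => ?_)
        simp only [Equiv.coe_addRight]
        rw [← AddChar.map_add_eq_mul]
        congr 1
        push_cast
        abel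
      have : (x.1 m0 - 1) * ∑ m : M x.2, x.1 (-(m : U)) = 0 := by
        rw [sub_mul, s, one_mul, sub_self]
      rcases mul_eq_zero.1 this with h | h
      · exact absurd (sub_eq_zero.1 h) hne
      · exact h
    rw [key, mul_zero, zero_mul]

end transform

end Pool.Agent.InnerAm
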