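import Pool.Agent.InnerAm.Local

/-!
# Finite generation and the ICC property
-/

noncomputable section

namespace Pool.Agent.InnerAm

open Finset

theorem fin_nsmul_val (n m : ℕ) : ((m • (1 : Fin (n + 1))) : Fin (n + 1)).val = m % (n + 1) := by
  induction m with
  | zero => simp
  | succ m ih =>
    rw [succ_nsmul, Fin.val_add, ih, Fin.val_one', Nat.add_mod, Nat.mod_mod, Nat.mod_mod,
      ← Nat.add_mod]

theorem fin_val_nsmul (n : ℕ) (z : Fin (n + 1)) : z.val • (1 : Fin (n + 1)) = z := by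
  apply Fin.ext
  rw [fin_nsmul_val, Nat.mod_eq_of_lt z.isLt]

namespace Blocks

variable (B : Blocks)

/-- Some coordinate is nonzero at the basis element `p`. -/
def nz (v : B.A) (p : B.X) : Prop := (v.1.1 p ≠ 0 ∨ v.1.2 p ≠ 0) ∨ v.2 p ≠ 0

theorem nz_diag (π : Equiv.Perm B.X) (v : B.A) (p : B.X) :
    B.nz (B.diag (B.pv π) v) (π p) ↔ B.nz v p := by
  unfold nz
  rw [diag_apply]
  simp only [pv_apply']

theorem nz_iterate (π : Equiv.Perm B.X) (v : B.A) (p : B.X) (m : ℕ) :
    B.nz ((B.diag (B.pv π))^[m] v) (π^[m] p) ↔ B.nz v p := by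
  induction m with
  | zero => rfl
  | succ m ih => rw [Function.iterate_succ_apply', Function.iterate_succ_apply', nz_diag, ih]

theorem tX_iterate (n : ℕ) (z : Fin (n + 1)) (i : Fin (B.d n)) (m : ℕ) :
    B.tX^[m] (Sum.inl ⟨⟨n, z⟩, i⟩) = Sum.inl ⟨⟨n, z + m • 1⟩, i⟩ := by
  induction m with
  | zero => simp
  | succ m ih =>
    rw [Function.iterate_succ_apply', ih]
    show Sum.inl (B.tF ⟨⟨n, z + m • 1⟩, i⟩) = _
    have : B.tF ⟨⟨n, z + m • 1⟩, i⟩ = ⟨⟨n, z + m • 1 + 1⟩, i⟩ := rfl
    rw [this, succ_nsmul, add_assoc]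

theorem exists_move {v : B.A} (hv : v ≠ 0) (hS : B.S2 v = ∅) :
    ∃ m : ℕ, (B.S2 (B.act Gen.s ((B.act Gen.t)^[m] v))).Nonempty := by
  -- find a nonzero coordinate
  have h1 : ∃ p : B.X, B.nz v p := by
    by_contra hcon
    push Not at hcon
    apply hv
    have h2 : ∀ p, v.1.1 p = 0 ∧ v.1.2 p = 0 ∧ v.2 p = 0 := by
      intro p
      have := hcon p
      unfold nz at this
      push Not at this
      exact ⟨this.1.1, this.1.2, this.2⟩
    refine Prod.ext (Prod.ext ?_ ?_) ?_
    · ext p; exact (h2 p).1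
    · ext p; exact (h2 p).2.1
    · ext p; exact (h2 p).2.2
  obtain ⟨p, hp⟩ := h1
  rcases p with ⟨⟨n, z⟩, i⟩ | g
  · refine ⟨(-z).val, ?_⟩
    have h3 := (B.nz_iterate B.tX v (Sum.inl ⟨⟨n, z⟩, i⟩) (-z).val).2 hp
    rw [tX_iterate] at h3
    have h4 : z + (-z).val • (1 : Fin (n + 1)) = 0 := by
      rw [fin_val_nsmul]
      exact add_neg_cancel z
    rw [h4] at h3
    have h5 : B.nz (B.diag (B.pv B.sX) ((B.diag (B.pv B.tX))^[(-z).val] v))
        (B.sX (Sum.inl ⟨⟨n, 0⟩, i⟩)) := (B.nz_diag B.sX _ _).2 h3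
    have h6 : B.sX (Sum.inl ⟨⟨n, 0⟩, i⟩) = Sum.inr (B.gateB ⟨n, i⟩) := B.sX_inl ⟨n, i⟩
    rw [h6] at h5
    exact ⟨B.gateB ⟨n, i⟩, (B.mem_S2 _ _).2 h5⟩
  · exfalso
    have : g ∈ B.S2 v := (B.mem_S2 v g).2 hp
    rw [hS] at this
    exact absurd this (Finset.notMem_empty _)

theorem icc : IsICC B.G := by
  classical
  intro g hg hfin
  set C : Finset B.G := hfin.toFinset with hC
  have hmemC : ∀ k, k ∈ C ↔ IsConj g k := fun k => by
    rw [hC, Set.Finite.mem_toFinset]
    rfl
  have hgC : g ∈ C := (hmemC g).2 (IsConj.refl g)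
  have hcl : ∀ x k, B.cg x k ∈ C ↔ k ∈ C := by
    intro x k
    rw [hmemC, hmemC]
    have : IsConj k (B.cg x k) := isConj_iff.2 ⟨B.gen x, rfl⟩
    exact ⟨fun h => h.trans this.symm, fun h => h.trans this⟩
  -- the indicator function
  let f : B.G → ℂ := fun k => if k ∈ C then 1 else 0
  have hf : Summable fun k => ‖f k‖ ^ 2 := by
    apply summable_of_ne_finset_zero (s := C)
    intro k hk
    simp [f, hk]
  have hfQ : ∑' k, ‖f k‖ ^ 2 ≤ (C.card : ℝ) := by
    rw [tsum_eq_sum (s := C) (by intro k hk; simp [f, hk])]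
    calc ∑ k ∈ C, ‖f k‖ ^ 2 = ∑ k ∈ C, (1 : ℝ) := by
          refine Finset.sum_congr rfl fun k hk => ?_
          simp [f, hk]
      _ = C.card := by simp
      _ ≤ C.card := le_refl _
  have hz : ∀ x : Gen, (fun k => ‖f (B.cg x k) - f k‖ ^ 2) = fun _ => (0 : ℝ) := by
    intro x
    funext k
    have : f (B.cg x k) = f k := by
      simp only [f, hcl]
    rw [this, sub_self, norm_zero]
    norm_num
  have hzs : ∀ x : Gen, Summable fun k => ‖f (B.cg x k) - f k‖ ^ 2 := by
    intro x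
    rw [hz]
    exact summable_zero
  have hall : ∀ ε : ℝ, 0 < ε → ∑' k, B.io k * ‖f k‖ ^ 2 ≤ 35 / 2 * ε * C.card := by
    intro ε hε
    have hb : ∀ x : Gen, ∑' k, ‖f (B.cg x k) - f k‖ ^ 2 ≤ ε ^ 2 * C.card := by
      intro x
      rw [hz, tsum_zero]
      positivity
    exact paradox hε hf hfQ (B.cg Gen.a) (B.cg Gen.b) (hzs _) (hb _) (hzs _) (hb _)
      B.wt_nonneg B.wt_le_one B.io_nonneg B.io_le_one B.wt_cover B.wt_disj
  have s1 := summable_weight hf B.io_nonneg B.io_le_one
  have hio : ∀ k ∈ C, B.io k = 0 := by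
    intro k hk
    by_contra hne
    have hpos : 0 < B.io k := lt_of_le_of_ne (B.io_nonneg k) (Ne.symm hne)
    have h1 : B.io k ≤ ∑' k, B.io k * ‖f k‖ ^ 2 := by
      have := s1.le_tsum k (fun j _ => mul_nonneg (B.io_nonneg j) (by positivity))
      have e : B.io k * ‖f k‖ ^ 2 = B.io k := by simp [f, hk]
      rw [e] at this
      exact this
    have hcard : (0 : ℝ) < C.card := by
      have : 0 < C.card := Finset.card_pos.2 ⟨k, hk⟩
      exact_mod_cast this
    have h2 := hall (B.io k / (35 * C.card)) (by positivity)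
    have h3 : 35 / 2 * (B.io k / (35 * C.card)) * C.card = B.io k / 2 := by
      field_simp
    rw [h3] at h2
    linarith
  -- structure of elements with io = 0
  have hst : ∀ k ∈ C, k.right = 1 ∧ B.S2 (Multiplicative.toAdd k.left) = ∅ := by
    intro k hk
    have h0 := hio k hk
    by_cases hr : k.right = 1
    · refine ⟨hr, ?_⟩
      by_contra hS
      rw [B.eq_inA hr, io_inA, if_pos (Finset.nonempty_iff_ne_empty.2 hS)] at h0
      exact one_ne_zero h0
    · rw [B.io_of_right hr] at h0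
      exact absurd h0 one_ne_zero
  obtain ⟨hr, hS⟩ := hst g hgC
  set v : B.A := Multiplicative.toAdd g.left with hv
  have hgv : g = B.inA v := B.eq_inA hr
  have hv0 : v ≠ 0 := by
    intro h
    apply hg
    rw [hgv, h, inA_zero]
  obtain ⟨m, hm⟩ := B.exists_move hv0 hS
  have h5 : ∀ m : ℕ, B.inA ((B.act Gen.t)^[m] v) ∈ C := by
    intro m
    induction m with
    | zero => rw [Function.iterate_zero_apply, ← hgv]; exact hgC
    | succ m ih =>
      rw [Function.iterate_succ_apply', ← cg_inA, hcl]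
      exact ih
  have h6 : B.inA (B.act Gen.s ((B.act Gen.t)^[m] v)) ∈ C := by
    rw [← cg_inA, hcl]
    exact h5 m
  have h7 := (hst _ h6).2
  have h8 : B.S2 (B.act Gen.s ((B.act Gen.t)^[m] v)) = ∅ := h7
  rw [h8] at hm
  exact Finset.not_nonempty_empty hm

/-! ### Finite generation -/

/-- The generating set. -/
def genSet : Set B.G := Set.range B.gen ∪ {B.inA ((Finsupp.single (Sum.inr 1) 1, 0), 0)}

theorem genSet_finite : B.genSet.Finite := by
  have : Finite Gen := by
    refine Finite.of_injective (β := Fin 11) (fun g => match g with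
      | Gen.a => 0 | Gen.b => 1 | Gen.s => 2 | Gen.t => 3 | Gen.r => 4 | Gen.e12 => 5
      | Gen.e12x => 6 | Gen.e21 => 7 | Gen.e21x => 8 | Gen.e13 => 9 | Gen.e23 => 10) ?_
    intro x y h
    cases x <;> cases y <;> first | rfl | (exfalso; revert h; decide)
  exact (Set.finite_range _).union (Set.finite_singleton _)

/-- The elements of `A` lying in the generated subgroup. -/
def KA : AddSubgroup B.A where
  carrier := {v | B.inA v ∈ Subgroup.closure B.genSet}
  zero_mem' := by
    show B.inA 0 ∈ Subgroup.closure B.genSet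
    rw [inA_zero]
    exact one_mem _
  add_mem' := by
    intro v w hv hw
    show B.inA (v + w) ∈ Subgroup.closure B.genSet
    rw [inA_add]
    exact mul_mem hv hw
  neg_mem' := by
    intro v hv
    show B.inA (-v) ∈ Subgroup.closure B.genSet
    rw [inA_neg]
    exact inv_mem hv

theorem gen_mem (x : Gen) : B.gen x ∈ Subgroup.closure B.genSet :=
  Subgroup.subset_closure (Or.inl ⟨x, rfl⟩)

theorem act_mem (x : Gen) {v : B.A} (hv : v ∈ B.KA) : B.act x v ∈ B.KA := by
  show B.inA (B.act x v) ∈ Subgroup.closure B.genSet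
  rw [← conj_gen_inA]
  exact mul_mem (mul_mem (B.gen_mem x) hv) (inv_mem (B.gen_mem x))

theorem act_symm_mem (x : Gen) {v : B.A} (hv : v ∈ B.KA) : (B.act x).symm v ∈ B.KA := by
  show B.inA ((B.act x).symm v) ∈ Subgroup.closure B.genSet
  rw [← cg_symm_inA, cg_symm_apply]
  exact mul_mem (mul_mem (inv_mem (B.gen_mem x)) hv) (B.gen_mem x)

/-- Basis vectors in the first coordinate. -/
def bv (p : B.X) : B.A := ((Finsupp.single p 1, 0), 0)

theorem diag_bv (π : Equiv.Perm B.X) (p : B.X) : B.diag (B.pv π) (B.bv p) = B.bv (π p) := by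
  rw [diag_apply]
  unfold bv
  have h : B.pv π (Finsupp.single p 1) = Finsupp.single (π p) 1 := by
    ext q
    rw [pv_apply]
    classical
    rw [Finsupp.single_apply, Finsupp.single_apply]
    congr 1
    rw [Equiv.eq_symm_apply]
  rw [h, map_zero]

theorem bv_one : B.bv (Sum.inr 1) ∈ B.KA :=
  Subgroup.subset_closure (Or.inr rfl)

theorem bv_letter (c : Bool) {g : FB} (h : B.bv (Sum.inr g) ∈ B.KA) :
    B.bv (Sum.inr (FreeGroup.of c * g)) ∈ B.KA := by
  have h1 : B.bv (Sum.inr (FreeGroup.of c * g)) =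
      B.diag (B.pv (B.aX c)) (B.bv (Sum.inr g)) := by
    rw [diag_bv]; rfl
  rw [h1]
  cases c
  · exact B.act_mem Gen.b h
  · exact B.act_mem Gen.a h

theorem bv_letter_inv (c : Bool) {g : FB} (h : B.bv (Sum.inr g) ∈ B.KA) :
    B.bv (Sum.inr ((FreeGroup.of c)⁻¹ * g)) ∈ B.KA := by
  have h1 : B.bv (Sum.inr ((FreeGroup.of c)⁻¹ * g)) =
      (B.diag (B.pv (B.aX c))).symm (B.bv (Sum.inr g)) := by
    rw [AddEquiv.eq_symm_apply, diag_bv]
    congr 1
    show Sum.inr (FreeGroup.of c * ((FreeGroup.of c)⁻¹ * g)) = Sum.inr g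
    rw [mul_inv_cancel_left]
  rw [h1]
  cases c
  · exact B.act_symm_mem Gen.b h
  · exact B.act_symm_mem Gen.a h

theorem bv_inr (g : FB) : B.bv (Sum.inr g) ∈ B.KA := by
  have key : ∀ g h : FB, B.bv (Sum.inr h) ∈ B.KA → B.bv (Sum.inr (g * h)) ∈ B.KA := by
    intro g
    induction g using FreeGroup.induction_on with
    | C1 => intro h hh; rwa [one_mul]
    | of c => intro h hh; exact B.bv_letter c hh
    | inv_of c _ => intro h hh; exact B.bv_letter_inv c hh
    | mul x y hx hy => intro h hh; rw [mul_assoc]; exact hx _ (hy _ hh)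
  have := key g 1 B.bv_one
  rwa [mul_one] at this

theorem bv_inl (q : B.XF) : B.bv (Sum.inl q) ∈ B.KA := by
  obtain ⟨⟨n, z⟩, i⟩ := q
  have h0 : B.bv (Sum.inl (B.gateF ⟨n, i⟩)) ∈ B.KA := by
    rw [← B.sX_inr, ← diag_bv]
    exact B.act_mem Gen.s (B.bv_inr _)
  have h1 : ∀ m : ℕ, B.bv (Sum.inl ⟨⟨n, m • 1⟩, i⟩) ∈ B.KA := by
    intro m
    induction m with
    | zero =>
      rw [zero_nsmul]
      exact h0
    | succ m ih =>
      have e : (Sum.inl ⟨⟨n, (m + 1) • 1⟩, i⟩ : B.X) = B.tX (Sum.inl ⟨⟨n, m • 1⟩, i⟩) := by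
        rw [succ_nsmul]
        rfl
      rw [e, ← diag_bv]
      exact B.act_mem Gen.t ih
  have := h1 z.val
  rwa [fin_val_nsmul] at this

theorem first_mem (v : B.V) : ((v, 0), 0) ∈ B.KA := by
  induction v using Finsupp.induction_linear with
  | zero => exact zero_mem _
  | add f g hf hg =>
    have : (((f + g, 0), 0) : B.A) = ((f, 0), 0) + ((g, 0), 0) := by
      simp
    rw [this]
    exact add_mem hf hg
  | single p c =>
    have hc : c = 0 ∨ c = 1 := by
      fin_cases c
      · left; rfl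
      · right; rfl
    rcases hc with rfl | rfl
    · rw [Finsupp.single_zero]
      exact zero_mem _
    · rcases p with q | g
      · exact B.bv_inl q
      · exact B.bv_inr g

theorem KA_top (v : B.A) : v ∈ B.KA := by
  have h1 := B.first_mem v.1.1
  have h2 : ((0, v.1.2), 0) ∈ B.KA := B.act_mem Gen.r (B.act_mem Gen.r (B.first_mem v.1.2))
  have h3 : ((0, 0), v.2) ∈ B.KA := B.act_mem Gen.r (B.first_mem v.2)
  have e : v = ((v.1.1, 0), 0) + ((0, v.1.2), 0) + ((0, 0), v.2) := by
    refine Prod.ext (Prod.ext ?_ ?_) ?_ <;> simp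
  rw [e]
  exact add_mem (add_mem h1 h2) h3

theorem inr_mem (w : FreeGroup Gen) :
    (SemidirectProduct.inr w : B.G) ∈ Subgroup.closure B.genSet := by
  induction w using FreeGroup.induction_on with
  | C1 => rw [map_one]; exact one_mem _
  | of x => exact B.gen_mem x
  | inv_of x _ => rw [map_inv]; exact inv_mem (B.gen_mem x)
  | mul x y hx hy => rw [map_mul]; exact mul_mem hx hy

theorem closure_genSet : Subgroup.closure B.genSet = ⊤ := by
  rw [eq_top_iff]
  intro g _
  have h1 : g = B.inA (Multiplicative.toAdd g.left) * SemidirectProduct.inr g.right := by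
    apply SemidirectProduct.ext
    · simp [inA]
    · simp [inA]
  rw [h1]
  exact mul_mem (B.KA_top _) (B.inr_mem _)

theorem fg : Group.FG B.G := by
  rw [Group.fg_iff]
  exact ⟨B.genSet, B.closure_genSet, B.genSet_finite⟩

end Blocks

end Pool.Agent.InnerAm
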