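import Pool.Agent.InnerAm.Generation
import Pool.Agent.InnerAm.Folner

/-!
# Inner amenability of the group
-/

noncomputable section

namespace Pool.Agent.InnerAm

open Finset

namespace Blocks

variable (B : Blocks)

/-- The coefficient space of the blocks of level `n`. -/
abbrev K (n : ℕ) : Type := Fin (B.d n) →₀ ZMod 2

/-- Position of the basis of the block `(n, z)`. -/
def pos (n : ℕ) (z : Fin (n + 1)) (i : Fin (B.d n)) : B.X := Sum.inl ⟨⟨n, z⟩, i⟩

theorem pos_injective (n : ℕ) (z : Fin (n + 1)) : Function.Injective (B.pos n z) := by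
  intro i k h
  unfold pos at h
  have := Sum.inl.inj h
  simp only [Sigma.mk.injEq, heq_eq_eq, true_and] at this
  exact this

/-- The embedding of the block `(n, z)`. -/
def blk (n : ℕ) (z : Fin (n + 1)) (w : B.K n) : B.V := Finsupp.mapDomain (B.pos n z) w

theorem blk_zero (n : ℕ) (z : Fin (n + 1)) : B.blk n z 0 = 0 := Finsupp.mapDomain_zero

theorem blk_add (n : ℕ) (z : Fin (n + 1)) (v w : B.K n) :
    B.blk n z (v + w) = B.blk n z v + B.blk n z w := Finsupp.mapDomain_add

theorem blk_injective (n : ℕ) (z : Fin (n + 1)) : Function.Injective (B.blk n z) :=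
  Finsupp.mapDomain_injective (B.pos_injective n z)

theorem blk_apply (n : ℕ) (z : Fin (n + 1)) (w : B.K n) (i : Fin (B.d n)) :
    B.blk n z w (Sum.inl ⟨⟨n, z⟩, i⟩) = w i :=
  Finsupp.mapDomain_apply (B.pos_injective n z) w i

theorem blk_apply_ne (n : ℕ) (z : Fin (n + 1)) (w : B.K n) (p : B.X)
    (hp : ∀ i, p ≠ B.pos n z i) : B.blk n z w p = 0 := by
  apply Finsupp.mapDomain_notin_range
  rintro ⟨i, hi⟩
  exact hp i hi.symm

theorem pv_blk (π : Equiv.Perm B.X) (n : ℕ) (z z' : Fin (n + 1)) (w : B.K n)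
    (h : ∀ i, π (B.pos n z i) = B.pos n z' i) : B.pv π (B.blk n z w) = B.blk n z' w := by
  have h1 : B.pv π (B.blk n z w) = Finsupp.mapDomain π (B.blk n z w) := by
    show Finsupp.equivMapDomain π (B.blk n z w) = _
    rw [Finsupp.equivMapDomain_eq_mapDomain]
  rw [h1]
  unfold blk
  rw [← Finsupp.mapDomain_comp]
  congr 1
  funext i
  exact h i

/-- The action of `x` on the block `(n, z)`. -/
def xK (n : ℕ) (z : Fin (n + 1)) : B.K n →+ B.K n where
  toFun w := Finsupp.equivFunOnFinite.symm (B.m ⟨n, z⟩ w)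
  map_zero' := by
    ext i
    simp
  map_add' v w := by
    ext i
    simp

theorem xV_blk (n : ℕ) (z : Fin (n + 1)) (w : B.K n) :
    B.xV (B.blk n z w) = B.blk n z (B.xK n z w) := by
  ext p
  rcases p with ⟨j, i⟩ | g
  · rw [xV_inl]
    by_cases hj : j = ⟨n, z⟩
    · subst hj
      rw [blk_apply]
      have e : (fun i => B.blk n z w (Sum.inl ⟨⟨n, z⟩, i⟩)) = (w : Fin (B.d n) → ZMod 2) := by
        funext i
        exact B.blk_apply n z w i
      show B.m ⟨n, z⟩ (fun i => B.blk n z w (Sum.inl ⟨⟨n, z⟩, i⟩)) i = _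
      rw [e]
      rfl
    · have hne : ∀ i' k, (Sum.inl ⟨j, i'⟩ : B.X) ≠ B.pos n z k := by
        intro i' k h
        apply hj
        have h1 : (⟨j, i'⟩ : B.XF) = ⟨⟨n, z⟩, k⟩ := Sum.inl.inj h
        exact congrArg Sigma.fst h1
      rw [B.blk_apply_ne n z _ _ (hne i)]
      have e : (fun i' => B.blk n z w (Sum.inl ⟨j, i'⟩)) = 0 := by
        funext i'
        exact B.blk_apply_ne n z _ _ (hne i')
      show B.m j (fun i' => B.blk n z w (Sum.inl ⟨j, i'⟩)) i = 0
      rw [e, map_zero]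
      rfl
  · rw [xV_inr]
    symm
    apply B.blk_apply_ne
    intro i h
    cases h

/-- Triples supported in the block `(n, z)`. -/
def blk3 (n : ℕ) (z : Fin (n + 1)) (y : (B.K n × B.K n) × B.K n) : B.A :=
  ((B.blk n z y.1.1, B.blk n z y.1.2), B.blk n z y.2)

theorem blk3_injective (n : ℕ) (z : Fin (n + 1)) : Function.Injective (B.blk3 n z) := by
  intro v w h
  have h1 := B.blk_injective n z (congrArg (fun y => y.1.1) h)
  have h2 := B.blk_injective n z (congrArg (fun y => y.1.2) h)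
  have h3 := B.blk_injective n z (congrArg (fun y => y.2) h)
  exact Prod.ext (Prod.ext h1 h2) h3

theorem blk3_zero (n : ℕ) (z : Fin (n + 1)) : B.blk3 n z 0 = 0 := by
  show ((B.blk n z 0, B.blk n z 0), B.blk n z 0) = _
  rw [blk_zero]
  rfl

theorem diag_blk3 (π : Equiv.Perm B.X) (n : ℕ) (z z' : Fin (n + 1))
    (y : (B.K n × B.K n) × B.K n) (h : ∀ i, π (B.pos n z i) = B.pos n z' i) :
    B.diag (B.pv π) (B.blk3 n z y) = B.blk3 n z' y := by
  rw [diag_apply]
  unfold blk3
  simp only [B.pv_blk π n z z' _ h]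

theorem blk3_ne (n : ℕ) {z z' : Fin (n + 1)} {y y' : (B.K n × B.K n) × B.K n}
    (h : B.blk3 n z y = B.blk3 n z' y') (hy : y ≠ 0) : z = z' := by
  by_contra hz
  apply hy
  have key : ∀ v w : B.K n, B.blk n z v = B.blk n z' w → v = 0 := by
    intro v w hvw
    ext i
    have h1 := DFunLike.congr_fun hvw (Sum.inl ⟨⟨n, z⟩, i⟩)
    rw [blk_apply] at h1
    rw [h1]
    apply B.blk_apply_ne
    intro k hk
    apply hz
    have h2 : (⟨⟨n, z⟩, i⟩ : B.XF) = ⟨⟨n, z'⟩, k⟩ := Sum.inl.inj hk
    have h3 := congrArg Sigma.fst h2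
    simp only [Sigma.mk.injEq, heq_eq_eq, true_and] at h3
    exact h3
  have h1 := key _ _ (congrArg (fun y => y.1.1) h)
  have h2 := key _ _ (congrArg (fun y => y.1.2) h)
  have h3 := key _ _ (congrArg (fun y => y.2) h)
  exact Prod.ext (Prod.ext h1 h2) h3

/-- Every generator except the gate permutation maps block triples to block triples. -/
theorem act_blk3 (x : Gen) (n : ℕ) (z : Fin (n + 1)) (y : (B.K n × B.K n) × B.K n)
    (hx : x ≠ Gen.s ∨ z ≠ 0) : ∃ z' y', B.act x (B.blk3 n z y) = B.blk3 n z' y' := by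
  cases x
  · exact ⟨z, y, B.diag_blk3 _ n z z y fun i => rfl⟩
  · exact ⟨z, y, B.diag_blk3 _ n z z y fun i => rfl⟩
  · refine ⟨z, y, B.diag_blk3 _ n z z y fun i => ?_⟩
    have hz : z ≠ 0 := by
      rcases hx with h | h
      · exact absurd rfl h
      · exact h
    exact B.sX_of_ne ⟨⟨n, z⟩, i⟩ hz
  · exact ⟨z + 1, y, B.diag_blk3 _ n z (z + 1) y fun i => rfl⟩
  · exact ⟨z, rotA _ y, rfl⟩
  · refine ⟨z, sh (shear1 (AddMonoidHom.id _)) y, ?_⟩
    show ((B.blk n z y.1.1 + B.blk n z y.1.2, B.blk n z y.1.2), B.blk n z y.2) = _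
    rw [← blk_add]
    rfl
  · refine ⟨z, sh (shear1 (B.xK n z)) y, ?_⟩
    show ((B.blk n z y.1.1 + B.xV (B.blk n z y.1.2), B.blk n z y.1.2), B.blk n z y.2) = _
    rw [xV_blk, ← blk_add]
    rfl
  · refine ⟨z, sh (shear2 (AddMonoidHom.id _)) y, ?_⟩
    show ((B.blk n z y.1.1, B.blk n z y.1.2 + B.blk n z y.1.1), B.blk n z y.2) = _
    rw [← blk_add]
    rfl
  · refine ⟨z, sh (shear2 (B.xK n z)) y, ?_⟩
    show ((B.blk n z y.1.1, B.blk n z y.1.2 + B.xV (B.blk n z y.1.1)), B.blk n z y.2) = _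
    rw [xV_blk, ← blk_add]
    rfl
  · refine ⟨z, tr13 _ y, ?_⟩
    show ((B.blk n z y.1.1 + B.blk n z y.2, B.blk n z y.1.2 + 0), B.blk n z y.2) = _
    rw [← blk_add, ← B.blk_zero n z, ← blk_add]
    rfl
  · refine ⟨z, tr23 _ y, ?_⟩
    show ((B.blk n z y.1.1 + 0, B.blk n z y.1.2 + B.blk n z y.2), B.blk n z y.2) = _
    rw [← blk_add, ← B.blk_zero n z, ← blk_add]
    rfl

open Classical in
/-- The asymptotically invariant sets. -/
def Phi (n : ℕ) : Finset B.G :=
  ((univ : Finset (Fin (n + 1))) ×ˢ (univ : Finset ((B.K n × B.K n) × B.K n)).erase 0).image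
    fun p => B.inA (B.blk3 n p.1 p.2)

theorem mem_Phi (n : ℕ) (g : B.G) :
    g ∈ B.Phi n ↔ ∃ z y, y ≠ 0 ∧ B.inA (B.blk3 n z y) = g := by
  classical
  unfold Phi
  rw [Finset.mem_image]
  constructor
  · rintro ⟨⟨z, y⟩, hp, rfl⟩
    rw [Finset.mem_product, Finset.mem_erase] at hp
    exact ⟨z, y, hp.2.1, rfl⟩
  · rintro ⟨z, y, hy, rfl⟩
    refine ⟨⟨z, y⟩, ?_, rfl⟩
    rw [Finset.mem_product, Finset.mem_erase]
    exact ⟨mem_univ _, hy, mem_univ _⟩

theorem card_Phi (n : ℕ) : (B.Phi n).card =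
    (n + 1) * ((univ : Finset ((B.K n × B.K n) × B.K n)).erase 0).card := by
  classical
  unfold Phi
  rw [Finset.card_image_of_injOn, Finset.card_product, Finset.card_univ, Fintype.card_fin]
  rintro ⟨z, y⟩ hp ⟨z', y'⟩ hp' h
  rw [Finset.mem_coe, Finset.mem_product, Finset.mem_erase] at hp
  have h1 : B.blk3 n z y = B.blk3 n z' y' := B.inA_injective h
  obtain rfl := B.blk3_ne n h1 hp.2.1
  obtain rfl := B.blk3_injective n z h1
  rfl

theorem K_pos (n : ℕ) : 0 < ((univ : Finset ((B.K n × B.K n) × B.K n)).erase 0).card := by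
  classical
  apply Finset.card_pos.2
  have hd := B.hd n
  refine ⟨((0, 0), Finsupp.single ⟨0, by omega⟩ 1), ?_⟩
  rw [Finset.mem_erase]
  refine ⟨fun h => ?_, mem_univ _⟩
  have h1 := congrArg Prod.snd h
  have h2 : (Finsupp.single (⟨0, by omega⟩ : Fin (B.d n)) (1 : ZMod 2)) = 0 := h1
  rw [Finsupp.single_eq_zero] at h2
  exact one_ne_zero h2

open Classical in
theorem bad_card (g : B.G) (hg : g ∈ B.genSet) (n : ℕ) :
    (((B.Phi n).filter fun x => g * x * g⁻¹ ∉ B.Phi n).card : ℝ) / (B.Phi n).card ≤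
      1 / ((n : ℝ) + 1) := by
  have hKpos := B.K_pos n
  have hcardΦ := B.card_Phi n
  set N := ((univ : Finset ((B.K n × B.K n) × B.K n)).erase 0).card with hN
  have hbad : ((B.Phi n).filter fun x => g * x * g⁻¹ ∉ B.Phi n).card ≤ N := by
    rcases hg with ⟨x, rfl⟩ | hg
    · calc ((B.Phi n).filter fun y => B.gen x * y * (B.gen x)⁻¹ ∉ B.Phi n).card
          ≤ (((univ : Finset ((B.K n × B.K n) × B.K n)).erase 0).image
              fun y => B.inA (B.blk3 n 0 y)).card := by
            apply Finset.card_le_card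
            intro g hg
            rw [Finset.mem_filter, mem_Phi] at hg
            obtain ⟨⟨z, y, hy, rfl⟩, hout⟩ := hg
            by_cases hz : z = 0
            · rw [Finset.mem_image]
              refine ⟨y, ?_, by rw [hz]⟩
              rw [Finset.mem_erase]
              exact ⟨hy, mem_univ _⟩
            · exfalso
              apply hout
              obtain ⟨z', y', h⟩ := B.act_blk3 x n z y (Or.inr hz)
              rw [conj_gen_inA, h, mem_Phi]
              refine ⟨z', y', fun h0 => hy ?_, rfl⟩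
              rw [h0, blk3_zero] at h
              have h2 := (AddEquiv.map_eq_zero_iff (B.act x)).1 h
              rw [← B.blk3_zero n z] at h2
              exact B.blk3_injective n z h2
        _ ≤ N := Finset.card_image_le
    · have hg' : g = B.inA ((Finsupp.single (Sum.inr 1) 1, 0), 0) := hg
      have : ((B.Phi n).filter fun x => g * x * g⁻¹ ∉ B.Phi n) = ∅ := by
        apply Finset.filter_eq_empty_iff.2
        intro x hx hx'
        apply hx'
        obtain ⟨z, y, hy, rfl⟩ := (B.mem_Phi n x).1 hx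
        have e : g * B.inA (B.blk3 n z y) * g⁻¹ = B.inA (B.blk3 n z y) := by
          rw [hg', ← inA_add, ← inA_neg, ← inA_add]
          congr 1
          abel
        rw [e]
        exact hx
      rw [this]
      simp
  rw [hcardΦ]
  push_cast
  have hNpos : (0 : ℝ) < N := by exact_mod_cast hKpos
  rw [div_le_div_iff₀ (by positivity) (by positivity), one_mul]
  have hb : (((B.Phi n).filter fun x => g * x * g⁻¹ ∉ B.Phi n).card : ℝ) ≤ N := by
    exact_mod_cast hbad
  calc _ ≤ (N : ℝ) * ((n : ℝ) + 1) := mul_le_mul_of_nonneg_right hb (by positivity)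
    _ = _ := by ring

theorem innerAmenable : IsInnerAmenable B.G := by
  classical
  apply innerAmenable_of_folner B.Phi
  · intro n
    rw [← Finset.card_pos, card_Phi]
    exact Nat.mul_pos (Nat.succ_pos n) (B.K_pos n)
  · intro n h
    obtain ⟨z, y, hy, h1⟩ := (B.mem_Phi n 1).1 h
    apply hy
    rw [← inA_zero] at h1
    have h2 := B.inA_injective h1
    rw [← B.blk3_zero n z] at h2
    exact B.blk3_injective n z h2
  · exact B.closure_genSet
  · intro g hg
    refine squeeze_zero (fun n => by positivity) (fun n => ?_)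
      tendsto_one_div_add_atTop_nhds_zero_nat
    have := B.bad_card g hg n
    refine le_of_eq_of_le ?_ this
    congr

end Blocks

end Pool.Agent.InnerAm
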