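import Pool.Agent.InnerAm.Weights

/-!
# Finite pieces of the block part
-/

noncomputable section

namespace Pool.Agent.InnerAm

open Finset

namespace Blocks

variable (B : Blocks)

open Classical in
/-- The embedding of the finite module supported on `T` into `V`. -/
def iT (T : Finset BIdx) : B.WT T →+ B.V where
  toFun w := Finsupp.ofSupportFinite
    (Sum.elim (fun q : B.XF => if h : q.1 ∈ T then w ⟨q.1, h⟩ q.2 else 0) (fun _ => 0)) (by
      apply Set.Finite.subset
        ((T.sigma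
          (fun j => (univ : Finset (Fin (B.d j.1))))).map Function.Embedding.inl).finite_toSet
      intro p hp
      rw [Function.mem_support] at hp
      rcases p with q | g
      · rw [Finset.mem_coe, Finset.mem_map]
        refine ⟨q, ?_, rfl⟩
        rw [Finset.mem_sigma]
        refine ⟨?_, mem_univ _⟩
        by_contra hcon
        apply hp
        rw [Sum.elim_inl, dif_neg hcon]
      · exact absurd rfl hp)
  map_zero' := by
    ext p
    rcases p with q | g
    · show (if h : q.1 ∈ T then (0 : B.WT T) ⟨q.1, h⟩ q.2 else 0) = 0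
      split_ifs <;> rfl
    · rfl
  map_add' v w := by
    ext p
    rcases p with q | g
    · show (if h : q.1 ∈ T then (v + w) ⟨q.1, h⟩ q.2 else 0) =
        (if h : q.1 ∈ T then v ⟨q.1, h⟩ q.2 else 0) + (if h : q.1 ∈ T then w ⟨q.1, h⟩ q.2 else 0)
      split_ifs
      · rfl
      · simp
    · show (0 : ZMod 2) = 0 + 0
      simp

theorem iT_inl (T : Finset BIdx) (w : B.WT T) (q : B.XF) (h : q.1 ∈ T) :
    B.iT T w (Sum.inl q) = w ⟨q.1, h⟩ q.2 := by
  classical
  show (if h : q.1 ∈ T then w ⟨q.1, h⟩ q.2 else 0) = _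
  rw [dif_pos h]

theorem iT_inl_not (T : Finset BIdx) (w : B.WT T) (q : B.XF) (h : q.1 ∉ T) :
    B.iT T w (Sum.inl q) = 0 := by
  classical
  show (if h : q.1 ∈ T then w ⟨q.1, h⟩ q.2 else 0) = _
  rw [dif_neg h]

theorem iT_inr (T : Finset BIdx) (w : B.WT T) (g : FB) : B.iT T w (Sum.inr g) = 0 := rfl

theorem iT_injective (T : Finset BIdx) : Function.Injective (B.iT T) := by
  intro v w h
  funext j
  funext i
  have := DFunLike.congr_fun h (Sum.inl ⟨j.1, i⟩)
  rw [B.iT_inl T v ⟨j.1, i⟩ j.2, B.iT_inl T w ⟨j.1, i⟩ j.2] at this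
  exact this

theorem xV_iT (T : Finset BIdx) (w : B.WT T) : B.xV (B.iT T w) = B.iT T (B.xT T w) := by
  ext p
  rcases p with q | g
  · rw [xV_inl]
    by_cases h : q.1 ∈ T
    · rw [B.iT_inl T _ q h, xT_apply]
      have e : (fun i => B.iT T w (Sum.inl ⟨q.1, i⟩)) = w ⟨q.1, h⟩ := by
        funext i
        exact B.iT_inl T w ⟨q.1, i⟩ h
      rw [e]
    · rw [B.iT_inl_not T _ q h]
      have : (fun i => B.iT T w (Sum.inl ⟨q.1, i⟩)) = 0 := by
        funext i
        exact B.iT_inl_not T w ⟨q.1, i⟩ h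
      rw [this, map_zero]
      rfl
  · rfl

theorem exists_iT (T : Finset BIdx) (v : B.V) (h1 : ∀ g : FB, v (Sum.inr g) = 0)
    (h2 : ∀ q : B.XF, v (Sum.inl q) ≠ 0 → q.1 ∈ T) : ∃ w, B.iT T w = v := by
  refine ⟨fun j i => v (Sum.inl ⟨j.1, i⟩), ?_⟩
  ext p
  rcases p with q | g
  · by_cases h : q.1 ∈ T
    · rw [B.iT_inl T _ q h]
    · rw [B.iT_inl_not T _ q h]
      by_contra hne
      exact h (h2 q (fun h => hne h.symm))
  · rw [iT_inr, h1]

/-- The embedding of triples. -/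
def iT3 (T : Finset BIdx) (y : (B.WT T × B.WT T) × B.WT T) : B.A :=
  ((B.iT T y.1.1, B.iT T y.1.2), B.iT T y.2)

theorem iT3_injective (T : Finset BIdx) : Function.Injective (B.iT3 T) := by
  intro v w h
  have h1 := B.iT_injective T (congrArg (fun z => z.1.1) h)
  have h2 := B.iT_injective T (congrArg (fun z => z.1.2) h)
  have h3 := B.iT_injective T (congrArg (fun z => z.2) h)
  exact Prod.ext (Prod.ext h1 h2) h3

theorem act_e12 (T : Finset BIdx) (y : (B.WT T × B.WT T) × B.WT T) :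
    B.act Gen.e12 (B.iT3 T y) = B.iT3 T (shear1 (AddMonoidHom.id _) y.1, y.2) := by
  show ((B.iT T y.1.1 + B.iT T y.1.2, B.iT T y.1.2), B.iT T y.2) = _
  rw [← map_add]
  rfl

theorem act_e21 (T : Finset BIdx) (y : (B.WT T × B.WT T) × B.WT T) :
    B.act Gen.e21 (B.iT3 T y) = B.iT3 T (shear2 (AddMonoidHom.id _) y.1, y.2) := by
  show ((B.iT T y.1.1, B.iT T y.1.2 + B.iT T y.1.1), B.iT T y.2) = _
  rw [← map_add]
  rfl

theorem act_e12x (T : Finset BIdx) (y : (B.WT T × B.WT T) × B.WT T) :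
    B.act Gen.e12x (B.iT3 T y) = B.iT3 T (shear1 (B.xT T) y.1, y.2) := by
  show ((B.iT T y.1.1 + B.xV (B.iT T y.1.2), B.iT T y.1.2), B.iT T y.2) = _
  rw [xV_iT, ← map_add]
  rfl

theorem act_e21x (T : Finset BIdx) (y : (B.WT T × B.WT T) × B.WT T) :
    B.act Gen.e21x (B.iT3 T y) = B.iT3 T (shear2 (B.xT T) y.1, y.2) := by
  show ((B.iT T y.1.1, B.iT T y.1.2 + B.xV (B.iT T y.1.1)), B.iT T y.2) = _
  rw [xV_iT, ← map_add]
  rfl

theorem act_e13 (T : Finset BIdx) (y : (B.WT T × B.WT T) × B.WT T) :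
    B.act Gen.e13 (B.iT3 T y) = B.iT3 T (y.1 + (y.2, 0), y.2) := by
  show ((B.iT T y.1.1 + B.iT T y.2, B.iT T y.1.2 + 0), B.iT T y.2) = _
  rw [← map_add, ← map_zero (B.iT T), ← map_add]
  rfl

theorem act_e23 (T : Finset BIdx) (y : (B.WT T × B.WT T) × B.WT T) :
    B.act Gen.e23 (B.iT3 T y) = B.iT3 T (y.1 + (0, y.2), y.2) := by
  show ((B.iT T y.1.1 + 0, B.iT T y.1.2 + B.iT T y.2), B.iT T y.2) = _
  rw [← map_add, ← map_zero (B.iT T), ← map_add]
  rfl

theorem act_r (T : Finset BIdx) (y : (B.WT T × B.WT T) × B.WT T) :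
    B.act Gen.r (B.iT3 T y) = B.iT3 T (rotA (B.WT T) y) := rfl

theorem WT_two (T : Finset BIdx) (w : B.WT T) : w + w = 0 := by
  funext j
  funext i
  exact CharTwo.add_self_eq_zero _

end Blocks

end Pool.Agent.InnerAm
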