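import Pool.Agent.InnerAm.Local

/-!
# The square-summable function attached to an almost central unitary leads to a contradiction
-/

noncomputable section

namespace Pool.Agent.InnerAm

open Finset

namespace Blocks

variable (B : Blocks)

/-- The pulled back function on a finite piece. -/
def pull (ξ : B.G → ℂ) (T : Finset BIdx) (y : (B.WT T × B.WT T) × B.WT T) : ℂ :=
  ξ (B.inA (B.iT3 T y))

theorem jT_injective (T : Finset BIdx) : Function.Injective (fun y => B.inA (B.iT3 T y)) :=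
  fun _ _ h => B.iT3_injective T (B.inA_injective h)

theorem pull_move {ξ : B.G → ℂ} {C : ℝ} (T : Finset BIdx) (x : Gen)
    (E : (B.WT T × B.WT T) × B.WT T → (B.WT T × B.WT T) × B.WT T)
    (hE : ∀ y, B.act x (B.iT3 T y) = B.iT3 T (E y))
    (hs : Summable fun g => ‖ξ (B.cg x g) - ξ g‖ ^ 2)
    (hC : ∑' g, ‖ξ (B.cg x g) - ξ g‖ ^ 2 ≤ C) :
    ∑ y, ‖B.pull ξ T (E y) - B.pull ξ T y‖ ^ 2 ≤ C := by
  have h := tsum_comp_le_tsum_of_inj hs (fun g => by positivity) (B.jT_injective T)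
  rw [tsum_fintype] at h
  refine le_trans (le_of_eq ?_) (h.trans hC)
  refine Finset.sum_congr rfl fun y _ => ?_
  simp only [Function.comp]
  rw [cg_inA, hE]
  rfl

open Classical in
theorem pull_bound {ξ : B.G → ℂ} (T : Finset BIdx)
    (h4 : ∀ N s : Finset B.G, ∑ k ∈ s, ‖∑ n ∈ N, ξ (k * n⁻¹)‖ ^ 2 ≤ N.card)
    (N : AddSubgroup (B.WT T)) :
    ∑ y : (B.WT T × B.WT T) × B.WT T, ‖∑ m : N.prod N, B.pull ξ T (y.1 + m, y.2)‖ ^ 2 ≤
      (Nat.card N : ℝ) ^ 2 := by
  have hcard : Nat.card (N.prod N) = Nat.card N ^ 2 := by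
    rw [Nat.card_congr (N.prodEquiv N).toEquiv, Nat.card_prod, sq]
  let e : N.prod N ↪ B.G := ⟨fun m => (B.inA (B.iT3 T ((m : B.WT T × B.WT T), 0)))⁻¹, by
    intro m m' h
    have h1 := B.jT_injective T (inv_injective h)
    exact Subtype.ext (congrArg Prod.fst h1)⟩
  let N' : Finset B.G := univ.map e
  let s : Finset B.G := univ.map ⟨_, B.jT_injective T⟩
  have h := h4 N' s
  have hN' : (N'.card : ℝ) = (Nat.card N : ℝ) ^ 2 := by
    rw [Finset.card_map, Finset.card_univ, ← Nat.card_eq_fintype_card, hcard]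
    push_cast
    rfl
  rw [hN'] at h
  refine le_trans (le_of_eq ?_) h
  rw [Finset.sum_map]
  refine Finset.sum_congr rfl fun y _ => ?_
  rw [Finset.sum_map]
  congr 2
  refine Finset.sum_congr rfl fun m _ => ?_
  simp only [Function.Embedding.coeFn_mk, e, inv_inv]
  rw [← inA_add]
  unfold pull
  congr 2
  unfold iT3
  ext1
  · ext1
    · show B.iT T (y.1.1 + (m : B.WT T × B.WT T).1) = B.iT T y.1.1 + B.iT T (m : B.WT T × B.WT T).1
      rw [map_add]
    · show B.iT T (y.1.2 + (m : B.WT T × B.WT T).2) = B.iT T y.1.2 + B.iT T (m : B.WT T × B.WT T).2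
      rw [map_add]
  · show B.iT T y.2 = B.iT T y.2 + B.iT T 0
    rw [map_zero, add_zero]

theorem local_estimate {ξ : B.G → ℂ} {ε : ℝ} (hε : 0 < ε)
    (h1 : Summable fun g => ‖ξ g‖ ^ 2) (h1' : ∑' g, ‖ξ g‖ ^ 2 ≤ 1)
    (h3 : ∀ x : Gen, Summable fun g => ‖ξ (B.cg x g) - ξ g‖ ^ 2)
    (h3' : ∀ x : Gen, ∑' g, ‖ξ (B.cg x g) - ξ g‖ ^ 2 ≤ ε ^ 2)
    (h4 : ∀ N s : Finset B.G, ∑ k ∈ s, ‖∑ n ∈ N, ξ (k * n⁻¹)‖ ^ 2 ≤ N.card)
    (T : Finset BIdx) :
    ∑ y ∈ (univ : Finset ((B.WT T × B.WT T) × B.WT T)).erase 0, ‖B.pull ξ T y‖ ^ 2 ≤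
      3 * (2 * (3 * ε ^ 2 + 25 / 2 * ε) + 2 * (1 / 10)) + 15 / 2 * ε := by
  classical
  have hf : ∑ y, ‖B.pull ξ T y‖ ^ 2 ≤ 1 := by
    have h := tsum_comp_le_tsum_of_inj h1 (fun g => by positivity) (B.jT_injective T)
    rw [tsum_fintype] at h
    exact h.trans h1'
  have key := finite_prop (f := B.pull ξ T) (B.xT T) hε (B.WT_two T) hf
    (B.pull_move T Gen.e12 _ (B.act_e12 T) (h3 _) (h3' _))
    (B.pull_move T Gen.e21 _ (B.act_e21 T) (h3 _) (h3' _))
    (B.pull_move T Gen.e12x _ (B.act_e12x T) (h3 _) (h3' _))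
    (B.pull_move T Gen.e21x _ (B.act_e21x T) (h3 _) (h3' _))
    (B.pull_move T Gen.e13 _ (B.act_e13 T) (h3 _) (h3' _))
    (B.pull_move T Gen.e23 _ (B.act_e23 T) (h3 _) (h3' _))
    (B.pull_bound T h4) (B.cycs_sum_le T)
  -- masses
  set f := B.pull ξ T with hfdef
  let φ : (B.WT T × B.WT T) × B.WT T → ℝ := ind (fun y => y.2 ≠ 0)
  have hφ : ∑ y, φ y * ‖f y‖ ^ 2 ≤ 2 * (3 * ε ^ 2 + 25 / 2 * ε) + 2 * (1 / 10) := by
    refine le_trans (le_of_eq ?_) key
    rw [Finset.sum_filter]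
    refine Finset.sum_congr rfl fun y _ => ?_
    by_cases h : y.2 ≠ 0
    · have : φ y = 1 := ind_of (P := fun y : (B.WT T × B.WT T) × B.WT T => y.2 ≠ 0) h
      rw [this, if_pos h, one_mul]
    · have : φ y = 0 := ind_of_not (P := fun y : (B.WT T × B.WT T) × B.WT T => y.2 ≠ 0) h
      rw [this, if_neg h, zero_mul]
  have hrot : ∑ y, ‖f (rotA (B.WT T) y) - f y‖ ^ 2 ≤ ε ^ 2 :=
    B.pull_move T Gen.r _ (B.act_r T) (h3 _) (h3' _)
  have pert : ∀ ψ : (B.WT T × B.WT T) × B.WT T → ℝ, (∀ y, 0 ≤ ψ y) → (∀ y, ψ y ≤ 1) →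
      ∑ y, ψ (rotA (B.WT T) y) * ‖f y‖ ^ 2 ≤ ∑ y, ψ y * ‖f y‖ ^ 2 + 5 / 2 * ε := by
    intro ψ h0 h1
    have := perturb_equiv (f := f) (Q := 1) hε
      (Summable.of_finite (f := fun y => ‖f y‖ ^ 2))
      (by rw [tsum_fintype]; exact hf)
      (rotA (B.WT T)).toEquiv
      (Summable.of_finite (f := fun y => ‖f ((rotA (B.WT T)).toEquiv y) - f y‖ ^ 2))
      (by rw [tsum_fintype, mul_one]; exact hrot)
      h0 h1
    rw [tsum_fintype, tsum_fintype, abs_le] at this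
    have h2 : ∑ y, ψ ((rotA (B.WT T)).toEquiv y) * ‖f y‖ ^ 2 =
      ∑ y, ψ (rotA (B.WT T) y) * ‖f y‖ ^ 2 := rfl
    linarith [this.2]
  have p1 := pert φ (fun y => ind_nonneg _ _) (fun y => ind_le_one _ _)
  have p2 := pert (fun y => φ (rotA (B.WT T) y)) (fun y => ind_nonneg _ _)
    (fun y => ind_le_one _ _)
  have hsum : ∑ y ∈ (univ : Finset ((B.WT T × B.WT T) × B.WT T)).erase 0, ‖f y‖ ^ 2 ≤
      ∑ y, (φ y + φ (rotA (B.WT T) y) + φ (rotA (B.WT T) (rotA (B.WT T) y))) * ‖f y‖ ^ 2 := by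
    calc ∑ y ∈ (univ : Finset ((B.WT T × B.WT T) × B.WT T)).erase 0, ‖f y‖ ^ 2
        ≤ ∑ y ∈ (univ : Finset ((B.WT T × B.WT T) × B.WT T)).erase 0,
          (φ y + φ (rotA (B.WT T) y) + φ (rotA (B.WT T) (rotA (B.WT T) y))) * ‖f y‖ ^ 2 := by
          refine Finset.sum_le_sum fun y hy => ?_
          have hy0 : y ≠ 0 := (Finset.mem_erase.1 hy).1
          have hge : 1 ≤ φ y + φ (rotA (B.WT T) y) + φ (rotA (B.WT T) (rotA (B.WT T) y)) := by
            have n1 : 0 ≤ φ y := ind_nonneg _ _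
            have n2 : 0 ≤ φ (rotA (B.WT T) y) := ind_nonneg _ _
            have n3 : 0 ≤ φ (rotA (B.WT T) (rotA (B.WT T) y)) := ind_nonneg _ _
            by_cases c3 : y.2 ≠ 0
            · have : φ y = 1 := ind_of (P := fun y : (B.WT T × B.WT T) × B.WT T => y.2 ≠ 0) c3
              linarith
            · by_cases c1 : y.1.1 ≠ 0
              · have : φ (rotA (B.WT T) y) = 1 :=
                  ind_of (P := fun y : (B.WT T × B.WT T) × B.WT T => y.2 ≠ 0) c1
                linarith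
              · by_cases c2 : y.1.2 ≠ 0
                · have : φ (rotA (B.WT T) (rotA (B.WT T) y)) = 1 :=
                    ind_of (P := fun y : (B.WT T × B.WT T) × B.WT T => y.2 ≠ 0) c2
                  linarith
                · exfalso
                  push Not at c1 c2 c3
                  exact hy0 (Prod.ext (Prod.ext c1 c2) c3)
          calc ‖f y‖ ^ 2 = 1 * ‖f y‖ ^ 2 := (one_mul _).symm
            _ ≤ _ := mul_le_mul_of_nonneg_right hge (by positivity)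
      _ ≤ _ := by
          refine Finset.sum_le_sum_of_subset_of_nonneg (Finset.erase_subset _ _) fun y _ _ => ?_
          have n1 : 0 ≤ φ y := ind_nonneg _ _
          have n2 : 0 ≤ φ (rotA (B.WT T) y) := ind_nonneg _ _
          have n3 : 0 ≤ φ (rotA (B.WT T) (rotA (B.WT T) y)) := ind_nonneg _ _
          positivity
  have hsplit : ∑ y, (φ y + φ (rotA (B.WT T) y) + φ (rotA (B.WT T) (rotA (B.WT T) y))) *
      ‖f y‖ ^ 2 = ∑ y, φ y * ‖f y‖ ^ 2 + ∑ y, φ (rotA (B.WT T) y) * ‖f y‖ ^ 2 +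
        ∑ y, φ (rotA (B.WT T) (rotA (B.WT T) y)) * ‖f y‖ ^ 2 := by
    rw [← Finset.sum_add_distrib, ← Finset.sum_add_distrib]
    refine Finset.sum_congr rfl fun y _ => ?_
    ring
  linarith

open Classical in
/-- Main analytic statement. -/
theorem no_xi {ξ : B.G → ℂ}
    (h1 : Summable fun g => ‖ξ g‖ ^ 2) (h1' : ∑' g, ‖ξ g‖ ^ 2 = 1) (h2 : ξ 1 = 0)
    (h3 : ∀ x : Gen, Summable fun g => ‖ξ (B.cg x g) - ξ g‖ ^ 2)
    (h3' : ∀ x : Gen, ∑' g, ‖ξ (B.cg x g) - ξ g‖ ^ 2 ≤ (1 / 1000) ^ 2)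
    (h4 : ∀ N s : Finset B.G, ∑ k ∈ s, ‖∑ n ∈ N, ξ (k * n⁻¹)‖ ^ 2 ≤ N.card) : False := by
  have hε : (0 : ℝ) < 1 / 1000 := by norm_num
  have hp := paradox (Q := 1) hε h1 h1'.le (B.cg Gen.a) (B.cg Gen.b) (h3 _)
    (by rw [mul_one]; exact h3' _) (h3 _) (by rw [mul_one]; exact h3' _)
    B.wt_nonneg B.wt_le_one B.io_nonneg B.io_le_one B.wt_cover B.wt_disj
  have s1 := summable_weight h1 B.io_nonneg B.io_le_one
  have s2 := summable_weight h1 (φ := fun g => 1 - B.io g)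
    (fun g => by linarith [B.io_le_one g]) (fun g => by linarith [B.io_nonneg g])
  have hsum : ∑' g, B.io g * ‖ξ g‖ ^ 2 + ∑' g, (1 - B.io g) * ‖ξ g‖ ^ 2 = 1 := by
    rw [← Summable.tsum_add s1 s2]
    refine Eq.trans ?_ h1'
    congr 1
    ext g
    ring
  have hle : ∑' g, (1 - B.io g) * ‖ξ g‖ ^ 2 ≤ 3 / 4 := by
    apply Real.tsum_le_of_sum_le
    · intro g
      exact mul_nonneg (by linarith [B.io_le_one g]) (by positivity)
    intro E
    -- reduce to elements of the block part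
    let E' := E.filter fun g => g.right = 1 ∧ B.S2 (Multiplicative.toAdd g.left) = ∅ ∧ g ≠ 1
    have hEE : ∑ g ∈ E, (1 - B.io g) * ‖ξ g‖ ^ 2 ≤ ∑ g ∈ E', ‖ξ g‖ ^ 2 := by
      rw [Finset.sum_filter]
      refine Finset.sum_le_sum fun g _ => ?_
      split_ifs with h
      · have := B.io_nonneg g
        nlinarith [sq_nonneg ‖ξ g‖]
      · by_cases hr : g.right = 1
        · by_cases hS : B.S2 (Multiplicative.toAdd g.left) = ∅
          · have hg1 : g = 1 := by
              by_contra hne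
              exact h ⟨hr, hS, hne⟩
            rw [hg1, h2]
            simp
          · have : B.io g = 1 := by
              rw [B.eq_inA hr, io_inA, if_pos]
              exact Finset.nonempty_iff_ne_empty.2 hS
            rw [this]; simp
        · rw [B.io_of_right hr]; simp
    -- the blocks involved
    let T : Finset BIdx := E'.biUnion fun g =>
      ((Multiplicative.toAdd g.left).1.1.support ∪ (Multiplicative.toAdd g.left).1.2.support ∪
        (Multiplicative.toAdd g.left).2.support).toLeft.image Sigma.fst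
    have hcov : ∀ g ∈ E', ∃ y ∈ (univ : Finset ((B.WT T × B.WT T) × B.WT T)).erase 0,
        B.inA (B.iT3 T y) = g := by
      intro g hg
      have hg' := (Finset.mem_filter.1 hg).2
      obtain ⟨hr, hS, hne⟩ := hg'
      set v : B.A := Multiplicative.toAdd g.left with hv
      have hmemT : ∀ q : B.XF, (v.1.1 (Sum.inl q) ≠ 0 ∨ v.1.2 (Sum.inl q) ≠ 0) ∨
          v.2 (Sum.inl q) ≠ 0 → q.1 ∈ T := by
        intro q hq
        rw [Finset.mem_biUnion]
        refine ⟨g, hg, ?_⟩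
        rw [Finset.mem_image]
        refine ⟨q, ?_, rfl⟩
        rw [mem_toLeft, mem_union, mem_union, Finsupp.mem_support_iff, Finsupp.mem_support_iff,
          Finsupp.mem_support_iff]
        exact hq
      have hfree : ∀ x : FB, ¬ ((v.1.1 (Sum.inr x) ≠ 0 ∨ v.1.2 (Sum.inr x) ≠ 0) ∨
          v.2 (Sum.inr x) ≠ 0) := by
        intro x hx
        have := (B.mem_S2 v x).2 hx
        rw [hS] at this
        exact absurd this (Finset.notMem_empty _)
      obtain ⟨w1, hw1⟩ := B.exists_iT T v.1.1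
        (fun x => by by_contra h; exact hfree x (Or.inl (Or.inl h)))
        (fun q h => hmemT q (Or.inl (Or.inl h)))
      obtain ⟨w2, hw2⟩ := B.exists_iT T v.1.2
        (fun x => by by_contra h; exact hfree x (Or.inl (Or.inr h)))
        (fun q h => hmemT q (Or.inl (Or.inr h)))
      obtain ⟨w3, hw3⟩ := B.exists_iT T v.2
        (fun x => by by_contra h; exact hfree x (Or.inr h))
        (fun q h => hmemT q (Or.inr h))
      have hy : B.iT3 T ((w1, w2), w3) = v := by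
        unfold iT3
        rw [hw1, hw2, hw3]
      refine ⟨((w1, w2), w3), ?_, ?_⟩
      · rw [Finset.mem_erase]
        refine ⟨fun h0 => ?_, mem_univ _⟩
        apply hne
        rw [B.eq_inA hr, ← hv, ← hy, h0]
        have : B.iT3 T 0 = 0 := by
          show ((B.iT T 0, B.iT T 0), B.iT T 0) = _
          rw [map_zero]
          rfl
        rw [this, inA_zero]
      · rw [hy]
        exact (B.eq_inA hr).symm
    have hsub : E' ⊆ ((univ : Finset ((B.WT T × B.WT T) × B.WT T)).erase 0).map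
        ⟨_, B.jT_injective T⟩ := by
      intro g hg
      obtain ⟨y, hy, hyg⟩ := hcov g hg
      rw [Finset.mem_map]
      exact ⟨y, hy, hyg⟩
    have hloc := B.local_estimate hε h1 h1'.le h3 h3' h4 T
    calc ∑ g ∈ E, (1 - B.io g) * ‖ξ g‖ ^ 2 ≤ ∑ g ∈ E', ‖ξ g‖ ^ 2 := hEE
      _ ≤ ∑ g ∈ ((univ : Finset ((B.WT T × B.WT T) × B.WT T)).erase 0).map
          ⟨_, B.jT_injective T⟩, ‖ξ g‖ ^ 2 :=
          Finset.sum_le_sum_of_subset_of_nonneg hsub fun _ _ _ => by positivity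
      _ = ∑ y ∈ (univ : Finset ((B.WT T × B.WT T) × B.WT T)).erase 0, ‖B.pull ξ T y‖ ^ 2 := by
          rw [Finset.sum_map]
          rfl
      _ ≤ _ := hloc
      _ ≤ 3 / 4 := by norm_num
  linarith

end Blocks

end Pool.Agent.InnerAm
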