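import Mathlib

/-!
# Perturbation and the Murray-von Neumann type paradoxical estimate, with weights
-/

namespace Pool.Agent.InnerAm

/-- Termwise estimate. -/
theorem perturb_term (a b : ℂ) {φ ε : ℝ} (h0 : 0 ≤ φ) (h1 : φ ≤ 1) (hε : 0 < ε) :
    |φ * ‖a‖ ^ 2 - φ * ‖b‖ ^ 2| ≤ 1 / (2 * ε) * ‖a - b‖ ^ 2 + ε * (‖a‖ ^ 2 + ‖b‖ ^ 2) := by
  have hab : |‖a‖ - ‖b‖| ≤ ‖a - b‖ := abs_norm_sub_norm_le a b
  have key : |‖a‖ ^ 2 - ‖b‖ ^ 2| ≤ 1 / (2 * ε) * ‖a - b‖ ^ 2 + ε * (‖a‖ ^ 2 + ‖b‖ ^ 2) := by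
    have e1 : |‖a‖ ^ 2 - ‖b‖ ^ 2| = |‖a‖ - ‖b‖| * (‖a‖ + ‖b‖) := by
      rw [show ‖a‖ ^ 2 - ‖b‖ ^ 2 = (‖a‖ - ‖b‖) * (‖a‖ + ‖b‖) by ring, abs_mul,
        abs_of_nonneg (by positivity : (0 : ℝ) ≤ ‖a‖ + ‖b‖)]
    rw [e1]
    have hs : 0 ≤ ‖a‖ + ‖b‖ := by positivity
    have e2 : |‖a‖ - ‖b‖| * (‖a‖ + ‖b‖) ≤ ‖a - b‖ * (‖a‖ + ‖b‖) :=
      mul_le_mul_of_nonneg_right hab hs
    refine e2.trans ?_
    have e3 : ‖a - b‖ * (‖a‖ + ‖b‖) ≤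
        1 / (2 * ε) * ‖a - b‖ ^ 2 + ε / 2 * (‖a‖ + ‖b‖) ^ 2 := by
      have : 0 ≤ (1 / (2 * ε)) * (‖a - b‖ - ε * (‖a‖ + ‖b‖)) ^ 2 := by positivity
      have e4 : (1 / (2 * ε)) * (‖a - b‖ - ε * (‖a‖ + ‖b‖)) ^ 2 =
        1 / (2 * ε) * ‖a - b‖ ^ 2 + ε / 2 * (‖a‖ + ‖b‖) ^ 2 - ‖a - b‖ * (‖a‖ + ‖b‖) := by
        field_simp
        ring
      linarith
    have e5 : ε / 2 * (‖a‖ + ‖b‖) ^ 2 ≤ ε * (‖a‖ ^ 2 + ‖b‖ ^ 2) := by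
      nlinarith [sq_nonneg (‖a‖ - ‖b‖)]
    linarith
  calc |φ * ‖a‖ ^ 2 - φ * ‖b‖ ^ 2| = φ * |‖a‖ ^ 2 - ‖b‖ ^ 2| := by
        rw [← mul_sub, abs_mul, abs_of_nonneg h0]
    _ ≤ 1 * |‖a‖ ^ 2 - ‖b‖ ^ 2| := mul_le_mul_of_nonneg_right h1 (abs_nonneg _)
    _ ≤ _ := by rw [one_mul]; exact key

variable {Y : Type*}

theorem summable_weight {f : Y → ℂ} (hf : Summable fun y => ‖f y‖ ^ 2) {φ : Y → ℝ}
    (h0 : ∀ y, 0 ≤ φ y) (h1 : ∀ y, φ y ≤ 1) : Summable fun y => φ y * ‖f y‖ ^ 2 := by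
  refine Summable.of_nonneg_of_le (fun y => mul_nonneg (h0 y) (by positivity)) (fun y => ?_) hf
  calc φ y * ‖f y‖ ^ 2 ≤ 1 * ‖f y‖ ^ 2 := mul_le_mul_of_nonneg_right (h1 y) (by positivity)
    _ = _ := one_mul _

theorem perturb {f h : Y → ℂ} {Q ε : ℝ} (hε : 0 < ε)
    (hf : Summable fun y => ‖f y‖ ^ 2) (hh : Summable fun y => ‖h y‖ ^ 2)
    (hfQ : ∑' y, ‖f y‖ ^ 2 ≤ Q) (hhQ : ∑' y, ‖h y‖ ^ 2 ≤ Q)
    (hfh : Summable fun y => ‖h y - f y‖ ^ 2)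
    (hfhQ : ∑' y, ‖h y - f y‖ ^ 2 ≤ ε ^ 2 * Q)
    {φ : Y → ℝ} (h0 : ∀ y, 0 ≤ φ y) (h1 : ∀ y, φ y ≤ 1) :
    |∑' y, φ y * ‖h y‖ ^ 2 - ∑' y, φ y * ‖f y‖ ^ 2| ≤ 5 / 2 * ε * Q := by
  have s1 := summable_weight hf h0 h1
  have s2 := summable_weight hh h0 h1
  rw [← Summable.tsum_sub s2 s1]
  have s3 : Summable fun y => 1 / (2 * ε) * ‖h y - f y‖ ^ 2 + ε * (‖h y‖ ^ 2 + ‖f y‖ ^ 2) :=
    (hfh.mul_left _).add ((hh.add hf).mul_left _)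
  have s4 : Summable fun y => |φ y * ‖h y‖ ^ 2 - φ y * ‖f y‖ ^ 2| :=
    Summable.of_nonneg_of_le (fun y => abs_nonneg _)
      (fun y => perturb_term (h y) (f y) (h0 y) (h1 y) hε) s3
  calc |∑' y, (φ y * ‖h y‖ ^ 2 - φ y * ‖f y‖ ^ 2)|
      ≤ ∑' y, |φ y * ‖h y‖ ^ 2 - φ y * ‖f y‖ ^ 2| := by
        have := norm_tsum_le_tsum_norm (f := fun y => φ y * ‖h y‖ ^ 2 - φ y * ‖f y‖ ^ 2)
          (by simpa [Real.norm_eq_abs] using s4)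
        simpa [Real.norm_eq_abs] using this
    _ ≤ ∑' y, (1 / (2 * ε) * ‖h y - f y‖ ^ 2 + ε * (‖h y‖ ^ 2 + ‖f y‖ ^ 2)) :=
        Summable.tsum_le_tsum (fun y => perturb_term (h y) (f y) (h0 y) (h1 y) hε) s4 s3
    _ = 1 / (2 * ε) * ∑' y, ‖h y - f y‖ ^ 2 + ε * (∑' y, ‖h y‖ ^ 2 + ∑' y, ‖f y‖ ^ 2) := by
        rw [Summable.tsum_add (hfh.mul_left _) ((hh.add hf).mul_left _), tsum_mul_left,
          tsum_mul_left, Summable.tsum_add hh hf]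
    _ ≤ 1 / (2 * ε) * (ε ^ 2 * Q) + ε * (Q + Q) := by
        gcongr
    _ = 5 / 2 * ε * Q := by
        field_simp
        ring

/-- Version for a bijection of `Y`: if `f ∘ π` is close to `f`, the weighted masses for `φ` and
`φ ∘ π` are close. -/
theorem perturb_equiv {f : Y → ℂ} {Q ε : ℝ} (hε : 0 < ε)
    (hf : Summable fun y => ‖f y‖ ^ 2) (hfQ : ∑' y, ‖f y‖ ^ 2 ≤ Q)
    (π : Y ≃ Y)
    (hfh : Summable fun y => ‖f (π y) - f y‖ ^ 2)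
    (hfhQ : ∑' y, ‖f (π y) - f y‖ ^ 2 ≤ ε ^ 2 * Q)
    {φ : Y → ℝ} (h0 : ∀ y, 0 ≤ φ y) (h1 : ∀ y, φ y ≤ 1) :
    |∑' y, φ (π y) * ‖f y‖ ^ 2 - ∑' y, φ y * ‖f y‖ ^ 2| ≤ 5 / 2 * ε * Q := by
  have hh : Summable fun y => ‖f (π y)‖ ^ 2 := (π.summable_iff (f := fun y => ‖f y‖ ^ 2)).2 hf
  have e1 : ∑' y, ‖f (π y)‖ ^ 2 = ∑' y, ‖f y‖ ^ 2 := π.tsum_eq (fun y => ‖f y‖ ^ 2)
  have := perturb (f := f) (h := fun y => f (π y)) hε hf hh hfQ (by rw [e1]; exact hfQ) hfh hfhQ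
    (φ := fun y => φ (π y)) (fun y => h0 _) (fun y => h1 _)
  have e2 : ∑' y, φ (π y) * ‖f (π y)‖ ^ 2 = ∑' y, φ y * ‖f y‖ ^ 2 :=
    π.tsum_eq (fun y => φ y * ‖f y‖ ^ 2)
  simp only [e2] at this
  rw [abs_sub_comm] at this
  exact this

/-- Weighted version of the Murray-von Neumann `14 ε` lemma. -/
theorem paradox {f : Y → ℂ} {Q ε : ℝ} (hε : 0 < ε)
    (hf : Summable fun y => ‖f y‖ ^ 2) (hfQ : ∑' y, ‖f y‖ ^ 2 ≤ Q)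
    (α β : Y ≃ Y)
    (hα : Summable fun y => ‖f (α y) - f y‖ ^ 2)
    (hαQ : ∑' y, ‖f (α y) - f y‖ ^ 2 ≤ ε ^ 2 * Q)
    (hβ : Summable fun y => ‖f (β y) - f y‖ ^ 2)
    (hβQ : ∑' y, ‖f (β y) - f y‖ ^ 2 ≤ ε ^ 2 * Q)
    {φ ι : Y → ℝ} (h0 : ∀ y, 0 ≤ φ y) (h1 : ∀ y, φ y ≤ 1)
    (i0 : ∀ y, 0 ≤ ι y) (i1 : ∀ y, ι y ≤ 1)
    (hcov : ∀ y, ι y ≤ φ y + φ (α y))
    (hdis : ∀ y, φ y + φ (β y) + φ (β.symm y) ≤ ι y) :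
    ∑' y, ι y * ‖f y‖ ^ 2 ≤ 35 / 2 * ε * Q := by
  have pa := perturb_equiv hε hf hfQ α hα hαQ h0 h1
  have pb := perturb_equiv hε hf hfQ β hβ hβQ h0 h1
  have hβ' : Summable fun y => ‖f (β.symm y) - f y‖ ^ 2 := by
    rw [← β.summable_iff]
    refine hβ.congr (fun y => ?_)
    simp only [Function.comp, Equiv.symm_apply_apply]
    rw [norm_sub_rev]
  have hβQ' : ∑' y, ‖f (β.symm y) - f y‖ ^ 2 ≤ ε ^ 2 * Q := by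
    rw [← β.tsum_eq (fun y => ‖f (β.symm y) - f y‖ ^ 2)]
    simp only [Equiv.symm_apply_apply]
    calc ∑' y, ‖f y - f (β y)‖ ^ 2 = ∑' y, ‖f (β y) - f y‖ ^ 2 := by
          congr 1; ext y; rw [norm_sub_rev]
      _ ≤ _ := hβQ
  have pc := perturb_equiv hε hf hfQ β.symm hβ' hβQ' h0 h1
  have sφ := summable_weight hf h0 h1
  have sι := summable_weight hf i0 i1
  have sα := summable_weight hf (φ := fun y => φ (α y)) (fun y => h0 _) (fun y => h1 _)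
  have sβ := summable_weight hf (φ := fun y => φ (β y)) (fun y => h0 _) (fun y => h1 _)
  have sγ := summable_weight hf (φ := fun y => φ (β.symm y)) (fun y => h0 _) (fun y => h1 _)
  have c1 : ∑' y, ι y * ‖f y‖ ^ 2 ≤ ∑' y, φ y * ‖f y‖ ^ 2 + ∑' y, φ (α y) * ‖f y‖ ^ 2 := by
    rw [← Summable.tsum_add sφ sα]
    refine Summable.tsum_le_tsum (fun y => ?_) sι (sφ.add sα)
    rw [← add_mul]
    exact mul_le_mul_of_nonneg_right (hcov y) (by positivity)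
  have c2 : ∑' y, φ y * ‖f y‖ ^ 2 + ∑' y, φ (β y) * ‖f y‖ ^ 2 + ∑' y, φ (β.symm y) * ‖f y‖ ^ 2
      ≤ ∑' y, ι y * ‖f y‖ ^ 2 := by
    rw [← Summable.tsum_add sφ sβ, ← Summable.tsum_add (sφ.add sβ) sγ]
    refine Summable.tsum_le_tsum (fun y => ?_) ((sφ.add sβ).add sγ) sι
    rw [← add_mul, ← add_mul]
    exact mul_le_mul_of_nonneg_right (hdis y) (by positivity)
  rw [abs_le] at pa pb pc
  linarith [pa.1, pa.2, pb.1, pb.2, pc.1, pc.2]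

end Pool.Agent.InnerAm
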