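import Pool.Agent.InnerAm.Fourier

/-!
# The three-region argument
-/

set_option linter.unusedSectionVars false

namespace Pool.Agent.InnerAm

open Finset

variable {W : Type*} [AddCommGroup W] [Fintype W]

/-- The shear `(v₁, v₂) ↦ (v₁ + c v₂, v₂)`. -/
def shear1 (c : W →+ W) : W × W ≃+ W × W where
  toFun v := (v.1 + c v.2, v.2)
  invFun v := (v.1 - c v.2, v.2)
  left_inv v := by ext <;> simp
  right_inv v := by ext <;> simp
  map_add' v w := by
    ext
    · simp only [Prod.fst_add, Prod.snd_add, map_add]; abel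
    · simp

/-- The shear `(v₁, v₂) ↦ (v₁, v₂ + c v₁)`. -/
def shear2 (c : W →+ W) : W × W ≃+ W × W where
  toFun v := (v.1, v.2 + c v.1)
  invFun v := (v.1, v.2 - c v.1)
  left_inv v := by ext <;> simp
  right_inv v := by ext <;> simp
  map_add' v w := by
    ext
    · simp
    · simp only [Prod.fst_add, Prod.snd_add, map_add]; abel

variable (x : W →+ W)

/-- Triviality of the first component of the character on `x^i w`. -/
def TA (y : AddChar (W × W) ℂ × W) (i : ℕ) : Prop := y.1 ((x^[i] y.2), 0) = 1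

/-- Triviality of the second component of the character on `x^i w`. -/
def TB (y : AddChar (W × W) ℂ × W) (i : ℕ) : Prop := y.1 (0, (x^[i] y.2)) = 1

/-- `i` is the first place where one of the components is nontrivial. -/
def IsFirst (y : AddChar (W × W) ℂ × W) (K : ℕ) : Prop :=
  (∀ i < K, TA x y i ∧ TB x y i) ∧ ¬ (TA x y K ∧ TB x y K)

theorem isFirst_unique {y : AddChar (W × W) ℂ × W} {K L : ℕ} (h : IsFirst x y K)
    (h' : IsFirst x y L) : K = L := by
  rcases lt_trichotomy K L with hl | hl | hl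
  · exact absurd (h'.1 K hl) h.2
  · exact hl
  · exact absurd (h.1 L hl) h'.2

def RA (y : AddChar (W × W) ℂ × W) : Prop := ∃ K, IsFirst x y K ∧ TA x y K ∧ ¬ TB x y K
def RB (y : AddChar (W × W) ℂ × W) : Prop := ∃ K, IsFirst x y K ∧ ¬ TA x y K ∧ TB x y K
def RC (y : AddChar (W × W) ℂ × W) : Prop := ∃ K, IsFirst x y K ∧ ¬ TA x y K ∧ ¬ TB x y K
def RZ (y : AddChar (W × W) ℂ × W) : Prop := ∀ i, TA x y i ∧ TB x y i

theorem not_RA_RB {y : AddChar (W × W) ℂ × W} (h : RA x y) : ¬ RB x y := by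
  rintro ⟨L, h1, h2, h3⟩
  obtain ⟨K, g1, g2, g3⟩ := h
  obtain rfl := isFirst_unique x g1 h1
  exact h2 g2

theorem not_RA_RC {y : AddChar (W × W) ℂ × W} (h : RA x y) : ¬ RC x y := by
  rintro ⟨L, h1, h2, h3⟩
  obtain ⟨K, g1, g2, g3⟩ := h
  obtain rfl := isFirst_unique x g1 h1
  exact h2 g2

theorem not_RB_RC {y : AddChar (W × W) ℂ × W} (h : RB x y) : ¬ RC x y := by
  rintro ⟨L, h1, h2, h3⟩
  obtain ⟨K, g1, g2, g3⟩ := h
  obtain rfl := isFirst_unique x g1 h1
  exact h3 g3

theorem region_cases (y : AddChar (W × W) ℂ × W) : RA x y ∨ RB x y ∨ RC x y ∨ RZ x y := by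
  classical
  by_cases h : ∃ K, ¬ (TA x y K ∧ TB x y K)
  · have hK := Nat.find_spec h
    have hm := fun i (hi : i < Nat.find h) => not_not.1 (Nat.find_min h hi)
    have hf : IsFirst x y (Nat.find h) := ⟨hm, hK⟩
    by_cases hA : TA x y (Nat.find h)
    · left; exact ⟨_, hf, hA, fun hB => hK ⟨hA, hB⟩⟩
    · by_cases hB : TB x y (Nat.find h)
      · right; left; exact ⟨_, hf, hA, hB⟩
      · right; right; left; exact ⟨_, hf, hA, hB⟩
  · push Not at h
    right; right; right; exact h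

theorem char_split (χ : AddChar (W × W) ℂ) (a b : W) : χ (a, b) = χ (a, 0) * χ (0, b) := by
  rw [← AddChar.map_add_eq_mul]
  congr 1
  simp

theorem char_neg_one (χ : AddChar (W × W) ℂ) (a : W) : χ (-a, 0) = 1 ↔ χ (a, 0) = 1 := by
  have h : χ (-a, 0) * χ (a, 0) = 1 := by
    rw [← AddChar.map_add_eq_mul]
    have : ((-a, 0) + (a, 0) : W × W) = 0 := by simp
    rw [this, AddChar.map_zero_eq_one]
  constructor
  · intro h1; rw [h1, one_mul] at h; exact h
  · intro h1; rw [h1, mul_one] at h; exact h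

theorem char_neg_two (χ : AddChar (W × W) ℂ) (a : W) : χ (0, -a) = 1 ↔ χ (0, a) = 1 := by
  have h : χ (0, -a) * χ (0, a) = 1 := by
    rw [← AddChar.map_add_eq_mul]
    have : ((0, -a) + (0, a) : W × W) = 0 := by simp
    rw [this, AddChar.map_zero_eq_one]
  constructor
  · intro h1; rw [h1, one_mul] at h; exact h
  · intro h1; rw [h1, mul_one] at h; exact h

theorem shear1_TA (c : W →+ W) (y : AddChar (W × W) ℂ × W) (i : ℕ) :
    TA x (dualPerm W (shear1 c) y) i ↔ TA x y i := by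
  unfold TA
  have : (shear1 c).symm ((x^[i] y.2), 0) = ((x^[i] y.2), 0) := by
    show ((x^[i] y.2) - c 0, (0 : W)) = _
    simp
  rw [dualPerm_fst, dualPerm_snd, this]

theorem shear1_TB (c : W →+ W) (y : AddChar (W × W) ℂ × W) (i : ℕ) :
    TB x (dualPerm W (shear1 c) y) i ↔ y.1 (-(c (x^[i] y.2)), 0) * y.1 (0, (x^[i] y.2)) = 1 := by
  unfold TB
  have : (shear1 c).symm (0, (x^[i] y.2)) = (-(c (x^[i] y.2)), (x^[i] y.2)) := by
    show ((0 : W) - c (x^[i] y.2), (x^[i] y.2)) = _
    simp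
  rw [dualPerm_fst, dualPerm_snd, this, char_split]

theorem shear2_TB (c : W →+ W) (y : AddChar (W × W) ℂ × W) (i : ℕ) :
    TB x (dualPerm W (shear2 c) y) i ↔ TB x y i := by
  unfold TB
  have : (shear2 c).symm (0, (x^[i] y.2)) = (0, (x^[i] y.2)) := by
    show ((0 : W), (x^[i] y.2) - c 0) = _
    simp
  rw [dualPerm_fst, dualPerm_snd, this]

theorem shear2_TA (c : W →+ W) (y : AddChar (W × W) ℂ × W) (i : ℕ) :
    TA x (dualPerm W (shear2 c) y) i ↔ y.1 ((x^[i] y.2), 0) * y.1 (0, -(c (x^[i] y.2))) = 1 := by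
  unfold TA
  have : (shear2 c).symm ((x^[i] y.2), 0) = ((x^[i] y.2), -(c (x^[i] y.2))) := by
    show ((x^[i] y.2), (0 : W) - c (x^[i] y.2)) = _
    simp
  rw [dualPerm_fst, dualPerm_snd, this, char_split]

/-- `E₁₂(1)` maps region `B` into region `C`. -/
theorem map_B_C {y : AddChar (W × W) ℂ × W} (h : RB x y) :
    RC x (dualPerm W (shear1 (AddMonoidHom.id W)) y) := by
  obtain ⟨K, ⟨h1, h2⟩, h3, h4⟩ := h
  have hB : ¬ TB x (dualPerm W (shear1 (AddMonoidHom.id W)) y) K := by
    rw [shear1_TB]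
    intro h
    unfold TB at h4
    rw [h4, mul_one, AddMonoidHom.id_apply, char_neg_one] at h
    exact h3 h
  have hA : ¬ TA x (dualPerm W (shear1 (AddMonoidHom.id W)) y) K := by
    rwa [shear1_TA]
  refine ⟨K, ⟨fun i hi => ⟨?_, ?_⟩, fun h => hA h.1⟩, hA, hB⟩
  · rw [shear1_TA]; exact (h1 i hi).1
  · rw [shear1_TB]
    have a := (h1 i hi).1
    have b := (h1 i hi).2
    unfold TA at a
    unfold TB at b
    rw [b, mul_one, AddMonoidHom.id_apply, char_neg_one]
    exact a

/-- `E₂₁(1)` maps region `A` into region `C`. -/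
theorem map_A_C {y : AddChar (W × W) ℂ × W} (h : RA x y) :
    RC x (dualPerm W (shear2 (AddMonoidHom.id W)) y) := by
  obtain ⟨K, ⟨h1, h2⟩, h3, h4⟩ := h
  have hA : ¬ TA x (dualPerm W (shear2 (AddMonoidHom.id W)) y) K := by
    rw [shear2_TA]
    intro h
    unfold TA at h3
    rw [h3, one_mul, AddMonoidHom.id_apply, char_neg_two] at h
    exact h4 h
  have hB : ¬ TB x (dualPerm W (shear2 (AddMonoidHom.id W)) y) K := by
    rwa [shear2_TB]
  refine ⟨K, ⟨fun i hi => ⟨?_, ?_⟩, fun h => hA h.1⟩, hA, hB⟩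
  · rw [shear2_TA]
    have a := (h1 i hi).1
    have b := (h1 i hi).2
    unfold TA at a
    unfold TB at b
    rw [a, one_mul, AddMonoidHom.id_apply, char_neg_two]
    exact b
  · rw [shear2_TB]; exact (h1 i hi).2

/-- `E₁₂(x)` maps `B ∪ C` into `A`, up to the places where the first component is nontrivial at
level zero. -/
theorem map_BC_A {y : AddChar (W × W) ℂ × W} (h : RB x y ∨ RC x y) :
    ¬ TA x y 0 ∨ RA x (dualPerm W (shear1 x) y) := by
  have h' : ∃ K, (∀ i < K, TA x y i ∧ TB x y i) ∧ ¬ TA x y K := by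
    rcases h with h | h
    · obtain ⟨K, ⟨h1, h2⟩, h3, h4⟩ := h
      exact ⟨K, h1, h3⟩
    · obtain ⟨K, ⟨h1, h2⟩, h3, h4⟩ := h
      exact ⟨K, h1, h3⟩
  obtain ⟨K, h1, h3⟩ := h'
  cases K with
  | zero => left; exact h3
  | succ k =>
    right
    have hA : TA x (dualPerm W (shear1 x) y) k := by
      rw [shear1_TA]; exact (h1 k (Nat.lt_succ_self k)).1
    have hB : ¬ TB x (dualPerm W (shear1 x) y) k := by
      rw [shear1_TB]
      intro h
      have b := (h1 k (Nat.lt_succ_self k)).2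
      unfold TB at b
      rw [b, mul_one, char_neg_one, ← Function.iterate_succ_apply' x] at h
      exact h3 h
    refine ⟨k, ⟨fun i hi => ⟨?_, ?_⟩, fun h => hB h.2⟩, hA, hB⟩
    · rw [shear1_TA]; exact (h1 i (by omega)).1
    · rw [shear1_TB]
      have a := (h1 (i + 1) (by omega)).1
      have b := (h1 i (by omega)).2
      unfold TA at a
      unfold TB at b
      rw [b, mul_one, char_neg_one, ← Function.iterate_succ_apply' x]
      exact a

/-- `E₂₁(x)` maps `A ∪ C` into `B`, up to the places where the second component is nontrivial at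
level zero. -/
theorem map_AC_B {y : AddChar (W × W) ℂ × W} (h : RA x y ∨ RC x y) :
    ¬ TB x y 0 ∨ RB x (dualPerm W (shear2 x) y) := by
  have h' : ∃ K, (∀ i < K, TA x y i ∧ TB x y i) ∧ ¬ TB x y K := by
    rcases h with h | h
    · obtain ⟨K, ⟨h1, h2⟩, h3, h4⟩ := h
      exact ⟨K, h1, h4⟩
    · obtain ⟨K, ⟨h1, h2⟩, h3, h4⟩ := h
      exact ⟨K, h1, h4⟩
  obtain ⟨K, h1, h3⟩ := h'
  cases K with
  | zero => left; exact h3
  | succ k =>
    right
    have hB : TB x (dualPerm W (shear2 x) y) k := by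
      rw [shear2_TB]; exact (h1 k (Nat.lt_succ_self k)).2
    have hA : ¬ TA x (dualPerm W (shear2 x) y) k := by
      rw [shear2_TA]
      intro h
      have b := (h1 k (Nat.lt_succ_self k)).1
      unfold TA at b
      rw [b, one_mul, char_neg_two, ← Function.iterate_succ_apply' x] at h
      exact h3 h
    refine ⟨k, ⟨fun i hi => ⟨?_, ?_⟩, fun h => hA h.1⟩, hA, hB⟩
    · rw [shear2_TA]
      have a := (h1 (i + 1) (by omega)).2
      have b := (h1 i (by omega)).1
      unfold TB at a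
      unfold TA at b
      rw [b, one_mul, char_neg_two, ← Function.iterate_succ_apply' x]
      exact a
    · rw [shear2_TB]; exact (h1 i (by omega)).2

end Pool.Agent.InnerAm
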