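import Pool.Agent.InnerAm.RelT

/-!
# The mass estimate
-/

set_option linter.unusedSectionVars false

namespace Pool.Agent.InnerAm

open Finset

variable {W : Type*} [AddCommGroup W] [Fintype W] (x : W →+ W)

theorem mass_perm {f : (W × W) × W → ℂ} {ε : ℝ} (hε : 0 < ε) (hf : ∑ y, ‖f y‖ ^ 2 ≤ 1)
    (T : W × W ≃+ W × W) (hT : ∑ y, ‖f (T y.1, y.2) - f y‖ ^ 2 ≤ ε ^ 2)
    {φ : AddChar (W × W) ℂ × W → ℝ} (h0 : ∀ y, 0 ≤ φ y) (h1 : ∀ y, φ y ≤ 1) :
    |∑ y, φ (dualPerm W T y) * ‖ft f y‖ ^ 2 - ∑ y, φ y * ‖ft f y‖ ^ 2| ≤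
      5 / 2 * ε * (Fintype.card (W × W) : ℝ) := by
  have hc : (0 : ℝ) < Fintype.card (W × W) := card_pos'
  have key := perturb_equiv (f := ft f) (Q := (Fintype.card (W × W) : ℝ)) hε
    (Summable.of_finite (f := fun y => ‖ft f y‖ ^ 2))
    (by
      rw [tsum_fintype, ft_parseval]
      nlinarith)
    (dualPerm W T)
    (Summable.of_finite (f := fun y => ‖ft f (dualPerm W T y) - ft f y‖ ^ 2))
    (by
      rw [tsum_fintype]
      have : ∀ y, ft f (dualPerm W T y) - ft f y =
          ft (fun y => f (T y.1, y.2) - f y) y := by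
        intro y
        rw [ft_sub (fun y => f (T y.1, y.2)) f, ft_comp]
      simp only [this]
      rw [ft_parseval]
      nlinarith)
    h0 h1
  simpa only [tsum_fintype] using key

open Classical in
/-- Indicator function of a predicate. -/
noncomputable def ind {Y : Type*} (P : Y → Prop) (y : Y) : ℝ := if P y then 1 else 0

theorem ind_nonneg {Y : Type*} (P : Y → Prop) (y : Y) : 0 ≤ ind P y := by
  unfold ind; split_ifs <;> norm_num

theorem ind_le_one {Y : Type*} (P : Y → Prop) (y : Y) : ind P y ≤ 1 := by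
  unfold ind; split_ifs <;> norm_num

theorem ind_of {Y : Type*} {P : Y → Prop} {y : Y} (h : P y) : ind P y = 1 := by
  unfold ind; rw [if_pos h]

theorem ind_of_not {Y : Type*} {P : Y → Prop} {y : Y} (h : ¬ P y) : ind P y = 0 := by
  unfold ind; rw [if_neg h]

/-- In a group of exponent two, nontrivial values of characters are far from `1`. -/
theorem char_far (h2 : ∀ w : W, w + w = 0) (χ : AddChar (W × W) ℂ) (u : W × W) (hu : χ u ≠ 1) :
    1 ≤ ‖χ (-u) - 1‖ ^ 2 := by
  have hu2 : χ u * χ u = 1 := by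
    rw [← AddChar.map_add_eq_mul]
    have : u + u = 0 := by
      ext
      · exact h2 u.1
      · exact h2 u.2
    rw [this, AddChar.map_zero_eq_one]
  have hneg : -u = u := by
    have : u + u = 0 := by
      ext
      · exact h2 u.1
      · exact h2 u.2
    exact neg_eq_of_add_eq_zero_left this
  have : χ u = -1 := by
    rcases mul_self_eq_one_iff.1 hu2 with h | h
    · exact absurd h hu
    · exact h
  rw [hneg, this]
  norm_num

theorem mass_translate {f : (W × W) × W → ℂ} {ε : ℝ} (h2 : ∀ w : W, w + w = 0)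
    (τ : W → W × W) (hT : ∑ y, ‖f (y.1 + τ y.2, y.2) - f y‖ ^ 2 ≤ ε ^ 2) :
    ∑ y, ind (fun y : AddChar (W × W) ℂ × W => y.1 (τ y.2) ≠ 1) y * ‖ft f y‖ ^ 2 ≤
      ε ^ 2 * (Fintype.card (W × W) : ℝ) := by
  have hc : (0 : ℝ) < Fintype.card (W × W) := card_pos'
  calc ∑ y, ind (fun y : AddChar (W × W) ℂ × W => y.1 (τ y.2) ≠ 1) y * ‖ft f y‖ ^ 2
      ≤ ∑ y, ‖ft (fun y => f (y.1 + τ y.2, y.2) - f y) y‖ ^ 2 := by
        refine Finset.sum_le_sum fun y _ => ?_
        rw [ft_sub (fun y => f (y.1 + τ y.2, y.2)) f, ft_translate]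
        by_cases h : y.1 (τ y.2) ≠ 1
        · rw [ind_of (P := fun y : AddChar (W × W) ℂ × W => y.1 (τ y.2) ≠ 1) h, one_mul]
          have e : y.1 (-τ y.2) * ft f y - ft f y = (y.1 (-τ y.2) - 1) * ft f y := by ring
          rw [e, norm_mul, mul_pow]
          have := char_far h2 y.1 (τ y.2) h
          nlinarith [sq_nonneg ‖ft f y‖]
        · rw [ind_of_not (P := fun y : AddChar (W × W) ℂ × W => y.1 (τ y.2) ≠ 1) h, zero_mul]
          positivity
    _ = (Fintype.card (W × W) : ℝ) * ∑ y, ‖f (y.1 + τ y.2, y.2) - f y‖ ^ 2 := ft_parseval _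
    _ ≤ _ := by nlinarith

theorem mass_total {f : (W × W) × W → ℂ} {ε : ℝ} (hε : 0 < ε) (h2 : ∀ w : W, w + w = 0)
    (hf : ∑ y, ‖f y‖ ^ 2 ≤ 1)
    (h12 : ∑ y, ‖f (shear1 (AddMonoidHom.id W) y.1, y.2) - f y‖ ^ 2 ≤ ε ^ 2)
    (h21 : ∑ y, ‖f (shear2 (AddMonoidHom.id W) y.1, y.2) - f y‖ ^ 2 ≤ ε ^ 2)
    (h12x : ∑ y, ‖f (shear1 x y.1, y.2) - f y‖ ^ 2 ≤ ε ^ 2)
    (h21x : ∑ y, ‖f (shear2 x y.1, y.2) - f y‖ ^ 2 ≤ ε ^ 2)
    (h13 : ∑ y : (W × W) × W, ‖f (y.1 + (y.2, 0), y.2) - f y‖ ^ 2 ≤ ε ^ 2)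
    (h23 : ∑ y : (W × W) × W, ‖f (y.1 + (0, y.2), y.2) - f y‖ ^ 2 ≤ ε ^ 2) :
    ∑ y, ind (fun y => ¬ RZ x y) y * ‖ft f y‖ ^ 2 ≤
      (3 * ε ^ 2 + 25 / 2 * ε) * (Fintype.card (W × W) : ℝ) := by
  set N : ℝ := (Fintype.card (W × W) : ℝ) with hN
  have hc : (0 : ℝ) < N := card_pos'
  set a := ∑ y, ind (RA x) y * ‖ft f y‖ ^ 2 with ha
  set b := ∑ y, ind (RB x) y * ‖ft f y‖ ^ 2 with hb
  set c := ∑ y, ind (RC x) y * ‖ft f y‖ ^ 2 with hcc
  -- B to C
  have e1 : b ≤ c + 5 / 2 * ε * N := by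
    have := mass_perm hε hf _ h12 (φ := ind (RC x)) (ind_nonneg _) (ind_le_one _)
    rw [abs_le] at this
    have h3 : b ≤ ∑ y, ind (RC x) (dualPerm W (shear1 (AddMonoidHom.id W)) y) * ‖ft f y‖ ^ 2 := by
      refine Finset.sum_le_sum fun y _ => ?_
      refine mul_le_mul_of_nonneg_right ?_ (by positivity)
      by_cases h : RB x y
      · rw [ind_of (map_B_C x h)]; exact ind_le_one _ _
      · rw [ind_of_not h]; exact ind_nonneg _ _
    linarith [this.2]
  have e2 : a ≤ c + 5 / 2 * ε * N := by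
    have := mass_perm hε hf _ h21 (φ := ind (RC x)) (ind_nonneg _) (ind_le_one _)
    rw [abs_le] at this
    have h3 : a ≤ ∑ y, ind (RC x) (dualPerm W (shear2 (AddMonoidHom.id W)) y) * ‖ft f y‖ ^ 2 := by
      refine Finset.sum_le_sum fun y _ => ?_
      refine mul_le_mul_of_nonneg_right ?_ (by positivity)
      by_cases h : RA x y
      · rw [ind_of (map_A_C x h)]; exact ind_le_one _ _
      · rw [ind_of_not h]; exact ind_nonneg _ _
    linarith [this.2]
  have e3 : b + c ≤ a + 5 / 2 * ε * N + ε ^ 2 * N := by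
    have := mass_perm hε hf _ h12x (φ := ind (RA x)) (ind_nonneg _) (ind_le_one _)
    rw [abs_le] at this
    have ht := mass_translate (ε := ε) h2 (fun w => (w, 0)) h13
    have h3 : b + c ≤ ∑ y, ind (RA x) (dualPerm W (shear1 x) y) * ‖ft f y‖ ^ 2 +
        ∑ y, ind (fun y : AddChar (W × W) ℂ × W => y.1 ((fun w => (w, 0)) y.2) ≠ 1) y *
          ‖ft f y‖ ^ 2 := by
      rw [← Finset.sum_add_distrib, ← Finset.sum_add_distrib]
      refine Finset.sum_le_sum fun y _ => ?_
      rw [← add_mul, ← add_mul]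
      refine mul_le_mul_of_nonneg_right ?_ (by positivity)
      by_cases h : RB x y ∨ RC x y
      · have hle : ind (RB x) y + ind (RC x) y ≤ 1 := by
          by_cases hB : RB x y
          · rw [ind_of_not (not_RB_RC x hB), add_zero]; exact ind_le_one _ _
          · rw [ind_of_not hB, zero_add]; exact ind_le_one _ _
        rcases map_BC_A x h with h' | h'
        · have : y.1 ((fun w => ((w, 0) : W × W)) y.2) ≠ 1 := h'
          rw [ind_of (P := fun y : AddChar (W × W) ℂ × W => y.1 ((fun w => (w, 0)) y.2) ≠ 1) this]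
          linarith [ind_nonneg (RA x) (dualPerm W (shear1 x) y)]
        · rw [ind_of h']
          linarith [ind_nonneg (fun y : AddChar (W × W) ℂ × W =>
            y.1 ((fun w => ((w, 0) : W × W)) y.2) ≠ 1) y]
      · push Not at h
        rw [ind_of_not h.1, ind_of_not h.2]
        linarith [ind_nonneg (RA x) (dualPerm W (shear1 x) y),
          ind_nonneg (fun y : AddChar (W × W) ℂ × W => y.1 ((fun w => (w, 0)) y.2) ≠ 1) y]
    linarith [this.2]
  have e4 : a + c ≤ b + 5 / 2 * ε * N + ε ^ 2 * N := by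
    have := mass_perm hε hf _ h21x (φ := ind (RB x)) (ind_nonneg _) (ind_le_one _)
    rw [abs_le] at this
    have ht := mass_translate (ε := ε) h2 (fun w => (0, w)) h23
    have h3 : a + c ≤ ∑ y, ind (RB x) (dualPerm W (shear2 x) y) * ‖ft f y‖ ^ 2 +
        ∑ y, ind (fun y : AddChar (W × W) ℂ × W => y.1 ((fun w => (0, w)) y.2) ≠ 1) y *
          ‖ft f y‖ ^ 2 := by
      rw [← Finset.sum_add_distrib, ← Finset.sum_add_distrib]
      refine Finset.sum_le_sum fun y _ => ?_
      rw [← add_mul, ← add_mul]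
      refine mul_le_mul_of_nonneg_right ?_ (by positivity)
      by_cases h : RA x y ∨ RC x y
      · have hle : ind (RA x) y + ind (RC x) y ≤ 1 := by
          by_cases hB : RA x y
          · rw [ind_of_not (not_RA_RC x hB), add_zero]; exact ind_le_one _ _
          · rw [ind_of_not hB, zero_add]; exact ind_le_one _ _
        rcases map_AC_B x h with h' | h'
        · have : y.1 ((fun w => ((0, w) : W × W)) y.2) ≠ 1 := h'
          rw [ind_of (P := fun y : AddChar (W × W) ℂ × W => y.1 ((fun w => (0, w)) y.2) ≠ 1) this]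
          linarith [ind_nonneg (RB x) (dualPerm W (shear2 x) y)]
        · rw [ind_of h']
          linarith [ind_nonneg (fun y : AddChar (W × W) ℂ × W =>
            y.1 ((fun w => ((0, w) : W × W)) y.2) ≠ 1) y]
      · push Not at h
        rw [ind_of_not h.1, ind_of_not h.2]
        linarith [ind_nonneg (RB x) (dualPerm W (shear2 x) y),
          ind_nonneg (fun y : AddChar (W × W) ℂ × W => y.1 ((fun w => (0, w)) y.2) ≠ 1) y]
    linarith [this.2]
  have e5 : ∑ y, ind (fun y => ¬ RZ x y) y * ‖ft f y‖ ^ 2 ≤ a + b + c := by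
    rw [ha, hb, hcc, ← Finset.sum_add_distrib, ← Finset.sum_add_distrib]
    refine Finset.sum_le_sum fun y _ => ?_
    rw [← add_mul, ← add_mul]
    refine mul_le_mul_of_nonneg_right ?_ (by positivity)
    have hA := ind_nonneg (RA x) y
    have hB := ind_nonneg (RB x) y
    have hC := ind_nonneg (RC x) y
    have hle := ind_le_one (fun y => ¬ RZ x y) y
    rcases region_cases x y with h | h | h | h
    · rw [ind_of h]; linarith
    · rw [ind_of h]; linarith
    · rw [ind_of h]; linarith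
    · rw [ind_of_not (P := fun y => ¬ RZ x y) (not_not.2 h)]; linarith
  nlinarith

end Pool.Agent.InnerAm
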