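import Pool.Agent.InnerAm.Construction

/-!
# Weights for the paradoxical estimate
-/

noncomputable section

namespace Pool.Agent.InnerAm

open Finset

namespace Blocks

variable (B : Blocks)

open Classical in
/-- The support of a triple in the free part. -/
def S2 (v : B.A) : Finset FB := (v.1.1.support ∪ v.1.2.support ∪ v.2.support).toRight

theorem mem_S2 (v : B.A) (g : FB) : g ∈ B.S2 v ↔
    (v.1.1 (Sum.inr g) ≠ 0 ∨ v.1.2 (Sum.inr g) ≠ 0) ∨ v.2 (Sum.inr g) ≠ 0 := by
  unfold S2
  rw [mem_toRight, mem_union, mem_union, Finsupp.mem_support_iff, Finsupp.mem_support_iff,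
    Finsupp.mem_support_iff]

/-- The letter action on `A`. -/
def lact (c : Bool) : B.A ≃+ B.A := B.diag (B.pv (B.aX c))

theorem mem_S2_lact (c : Bool) (v : B.A) (g : FB) :
    g ∈ B.S2 (B.lact c v) ↔ (FreeGroup.of c)⁻¹ * g ∈ B.S2 v := by
  rw [mem_S2, mem_S2]
  rfl

theorem mem_S2_lact_mul (c : Bool) (v : B.A) (g : FB) :
    FreeGroup.of c * g ∈ B.S2 (B.lact c v) ↔ g ∈ B.S2 v := by
  rw [mem_S2_lact, inv_mul_cancel_left]

theorem mem_S2_lact_symm (c : Bool) (v : B.A) (g : FB) :
    g ∈ B.S2 ((B.lact c).symm v) ↔ FreeGroup.of c * g ∈ B.S2 v := by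
  have := B.mem_S2_lact_mul c ((B.lact c).symm v) g
  rw [AddEquiv.apply_symm_apply] at this
  exact this.symm

open Classical in
/-- Number of elements of the support lying in `startsA true`. -/
def cnt (v : B.A) : ℕ := ((B.S2 v).filter (fun g => g ∈ startsA true)).card

open Classical in
theorem cnt_lact (c : Bool) (v : B.A) :
    B.cnt (B.lact c v) = ((B.S2 v).filter (fun g => FreeGroup.of c * g ∈ startsA true)).card := by
  unfold cnt
  symm
  apply Finset.card_bij (fun g _ => FreeGroup.of c * g)
  · intro g hg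
    rw [mem_filter] at hg ⊢
    exact ⟨(B.mem_S2_lact_mul c v g).2 hg.1, hg.2⟩
  · intro g _ h _ e
    exact mul_left_cancel e
  · intro g hg
    rw [mem_filter] at hg
    refine ⟨(FreeGroup.of c)⁻¹ * g, ?_, by group⟩
    rw [mem_filter]
    refine ⟨(B.mem_S2_lact c v g).1 hg.1, ?_⟩
    rw [mul_inv_cancel_left]
    exact hg.2

open Classical in
theorem cnt_lact_symm (c : Bool) (v : B.A) :
    B.cnt ((B.lact c).symm v) =
      ((B.S2 v).filter (fun g => (FreeGroup.of c)⁻¹ * g ∈ startsA true)).card := by
  unfold cnt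
  symm
  apply Finset.card_bij (fun g _ => (FreeGroup.of c)⁻¹ * g)
  · intro g hg
    rw [mem_filter] at hg ⊢
    refine ⟨?_, hg.2⟩
    rw [mem_S2_lact_symm, mul_inv_cancel_left]
    exact hg.1
  · intro g _ h _ e
    exact mul_left_cancel e
  · intro g hg
    rw [mem_filter] at hg
    refine ⟨FreeGroup.of c * g, ?_, by group⟩
    rw [mem_filter]
    refine ⟨(B.mem_S2_lact_symm c v g).1 hg.1, ?_⟩
    rw [inv_mul_cancel_left]
    exact hg.2

theorem card_S2_lact (c : Bool) (v : B.A) : (B.S2 (B.lact c v)).card = (B.S2 v).card := by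
  symm
  apply Finset.card_bij (fun g _ => FreeGroup.of c * g)
  · intro g hg
    exact (B.mem_S2_lact_mul c v g).2 hg
  · intro g _ h _ e
    exact mul_left_cancel e
  · intro g hg
    refine ⟨(FreeGroup.of c)⁻¹ * g, (B.mem_S2_lact c v g).1 hg, by group⟩

theorem card_S2_lact_symm (c : Bool) (v : B.A) :
    (B.S2 ((B.lact c).symm v)).card = (B.S2 v).card := by
  rw [← B.card_S2_lact c, AddEquiv.apply_symm_apply]

theorem cnt_cover (v : B.A) : (B.S2 v).card ≤ B.cnt v + B.cnt (B.lact true v) := by
  classical
  rw [cnt_lact]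
  unfold cnt
  calc (B.S2 v).card ≤ ((B.S2 v).filter (fun g => g ∈ startsA true) ∪
        (B.S2 v).filter (fun g => FreeGroup.of true * g ∈ startsA true)).card := by
        apply Finset.card_le_card
        intro g hg
        rw [mem_union, mem_filter, mem_filter]
        rcases startsA_cover true g with h | h
        · left; exact ⟨hg, h⟩
        · right; exact ⟨hg, h⟩
    _ ≤ _ := Finset.card_union_le _ _

theorem cnt_disj (v : B.A) :
    B.cnt v + B.cnt (B.lact false v) + B.cnt ((B.lact false).symm v) ≤ (B.S2 v).card := by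
  classical
  rw [cnt_lact, cnt_lact_symm]
  unfold cnt
  have hab : (true : Bool) ≠ false := by decide
  rw [← Finset.card_union_of_disjoint, ← Finset.card_union_of_disjoint]
  · apply Finset.card_le_card
    intro g hg
    rw [mem_union, mem_union, mem_filter, mem_filter, mem_filter] at hg
    rcases hg with (h | h) | h <;> exact h.1
  · rw [Finset.disjoint_left]
    intro g hg hg'
    rw [mem_union, mem_filter, mem_filter] at hg
    rw [mem_filter] at hg'
    rcases hg with h | h
    · exact (startsA_disj hab g).2.1 h.2 hg'.2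
    · exact (startsA_disj hab g).2.2 h.2 hg'.2
  · rw [Finset.disjoint_left]
    intro g hg hg'
    rw [mem_filter] at hg hg'
    exact (startsA_disj hab g).1 hg.2 hg'.2

theorem cnt_le (v : B.A) : B.cnt v ≤ (B.S2 v).card := by
  classical
  unfold cnt
  exact Finset.card_filter_le _ _

open Classical in
/-- The weight function on the group. -/
def wt (g : B.G) : ℝ :=
  if g.right ≠ 1 then (if g.right ∈ startsA Gen.a then 1 else 0)
  else (B.cnt (Multiplicative.toAdd g.left) : ℝ) / (B.S2 (Multiplicative.toAdd g.left)).card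

open Classical in
/-- The indicator function of the complement of `V_F³`. -/
def io (g : B.G) : ℝ :=
  if g.right ≠ 1 then 1 else (if (B.S2 (Multiplicative.toAdd g.left)).Nonempty then 1 else 0)

theorem wt_nonneg (g : B.G) : 0 ≤ B.wt g := by
  unfold wt
  split_ifs <;> positivity

theorem wt_le_one (g : B.G) : B.wt g ≤ 1 := by
  unfold wt
  split_ifs
  · exact le_refl _
  · norm_num
  · apply div_le_one_of_le₀
    · exact_mod_cast B.cnt_le _
    · positivity

theorem io_nonneg (g : B.G) : 0 ≤ B.io g := by
  unfold io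
  split_ifs <;> positivity

theorem io_le_one (g : B.G) : B.io g ≤ 1 := by
  unfold io
  split_ifs <;> norm_num

/-- Conjugation by a generator. -/
def cg (x : Gen) : B.G ≃ B.G := (MulAut.conj (B.gen x)).toEquiv

theorem cg_apply (x : Gen) (g : B.G) : B.cg x g = B.gen x * g * (B.gen x)⁻¹ := rfl

theorem cg_symm_apply (x : Gen) (g : B.G) : (B.cg x).symm g = (B.gen x)⁻¹ * g * B.gen x := by
  rw [Equiv.symm_apply_eq, cg_apply]
  group

theorem gen_right (x : Gen) : (B.gen x).right = FreeGroup.of x := rfl

theorem cg_right (x : Gen) (g : B.G) :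
    (B.cg x g).right = FreeGroup.of x * g.right * (FreeGroup.of x)⁻¹ := by
  rw [cg_apply, SemidirectProduct.mul_right, SemidirectProduct.mul_right,
    SemidirectProduct.inv_right, gen_right]

theorem cg_symm_right (x : Gen) (g : B.G) :
    ((B.cg x).symm g).right = (FreeGroup.of x)⁻¹ * g.right * FreeGroup.of x := by
  rw [cg_symm_apply, SemidirectProduct.mul_right, SemidirectProduct.mul_right,
    SemidirectProduct.inv_right, gen_right]

theorem eq_inA {g : B.G} (h : g.right = 1) : g = B.inA (Multiplicative.toAdd g.left) := by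
  unfold inA
  apply SemidirectProduct.ext
  · rfl
  · rw [h]; rfl

theorem cg_inA (x : Gen) (v : B.A) : B.cg x (B.inA v) = B.inA (B.act x v) := by
  rw [cg_apply, conj_gen_inA]

theorem cg_symm_inA (x : Gen) (v : B.A) : (B.cg x).symm (B.inA v) = B.inA ((B.act x).symm v) := by
  rw [Equiv.symm_apply_eq, cg_inA, AddEquiv.apply_symm_apply]

theorem wt_inA (v : B.A) : B.wt (B.inA v) = (B.cnt v : ℝ) / (B.S2 v).card := by
  unfold wt
  rw [if_neg (by simp [inA])]
  rfl

theorem io_inA (v : B.A) [Decidable (B.S2 v).Nonempty] :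
    B.io (B.inA v) = if (B.S2 v).Nonempty then 1 else 0 := by
  unfold io
  rw [if_neg (by simp [inA])]
  congr

theorem wt_of_right {g : B.G} (h : g.right ≠ 1) [Decidable (g.right ∈ startsA Gen.a)] :
    B.wt g = if g.right ∈ startsA Gen.a then 1 else 0 := by
  unfold wt
  rw [if_pos h]
  congr

theorem io_of_right {g : B.G} (h : g.right ≠ 1) : B.io g = 1 := by
  unfold io
  rw [if_pos h]

theorem wt_cover (g : B.G) : B.io g ≤ B.wt g + B.wt (B.cg Gen.a g) := by
  classical
  by_cases h : g.right = 1
  · rw [B.eq_inA h]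
    set v : B.A := Multiplicative.toAdd g.left
    rw [cg_inA, wt_inA, wt_inA, io_inA]
    have e : B.act Gen.a v = B.lact true v := rfl
    rw [e, card_S2_lact]
    split_ifs with hS
    · have hpos : (0 : ℝ) < (B.S2 v).card := by exact_mod_cast hS.card_pos
      rw [← add_div, le_div_iff₀ hpos, one_mul]
      exact_mod_cast B.cnt_cover v
    · positivity
  · have h' : (B.cg Gen.a g).right ≠ 1 := by
      rw [cg_right]
      intro h1
      exact h (conj_eq_one_iff.1 h1)
    rw [B.io_of_right h, B.wt_of_right h, B.wt_of_right h', cg_right]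
    rcases conj_cover Gen.a h with h1 | h1
    · rw [if_pos h1]
      split_ifs <;> norm_num
    · rw [if_pos h1]
      split_ifs <;> norm_num

theorem wt_disj (g : B.G) :
    B.wt g + B.wt (B.cg Gen.b g) + B.wt ((B.cg Gen.b).symm g) ≤ B.io g := by
  classical
  by_cases h : g.right = 1
  · rw [B.eq_inA h]
    set v : B.A := Multiplicative.toAdd g.left
    rw [cg_inA, cg_symm_inA, wt_inA, wt_inA, wt_inA, io_inA]
    have e : B.act Gen.b = B.lact false := rfl
    rw [e, card_S2_lact, card_S2_lact_symm]
    split_ifs with hS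
    · have hpos : (0 : ℝ) < (B.S2 v).card := by exact_mod_cast hS.card_pos
      rw [← add_div, ← add_div, div_le_iff₀ hpos, one_mul]
      exact_mod_cast B.cnt_disj v
    · rw [Finset.not_nonempty_iff_eq_empty] at hS
      rw [hS]
      simp
  · have h' : (B.cg Gen.b g).right ≠ 1 := by
      rw [cg_right]
      intro h1
      exact h (conj_eq_one_iff.1 h1)
    have h'' : ((B.cg Gen.b).symm g).right ≠ 1 := by
      rw [cg_symm_right]
      intro h1
      apply h
      have : g.right = FreeGroup.of Gen.b * ((FreeGroup.of Gen.b)⁻¹ * g.right *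
        FreeGroup.of Gen.b) * (FreeGroup.of Gen.b)⁻¹ := by group
      rw [this, h1]
      group
    rw [B.io_of_right h, B.wt_of_right h, B.wt_of_right h', B.wt_of_right h'', cg_right,
      cg_symm_right]
    have hab : Gen.a ≠ Gen.b := by decide
    have hd := conj_disj hab g.right
    split_ifs with h1 h2 h3 h3 h2 h3 h3 <;> try norm_num
    · exact hd.1 h1 h2
    · exact hd.1 h1 h2
    · exact hd.2.1 h1 h3
    · exact hd.2.2 h2 h3

end Blocks

end Pool.Agent.InnerAm
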